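import Mathlib

/-!
# Hom shifts: gap function (statement level definitions)
-/

namespace Pool.Agent.H26.Hom

/-- `x : ℤ² → V` is a point of the Hom shift `X_G`: neighbours in the square grid go to
neighbours in `G`. -/
def IsPoint {V : Type*} (G : SimpleGraph V) (x : ℤ × ℤ → V) : Prop :=
  ∀ u v : ℤ × ℤ, |u.1 - v.1| + |u.2 - v.2| = 1 → G.Adj (x u) (x v)

/-- The block pattern `p` of size `n` is the restriction of `x` to
`B_n(u) = u + {0, …, n-1}²`. -/
def OccursAt {V : Type*} {n : ℕ} (x : ℤ × ℤ → V) (u : ℤ × ℤ) (p : Fin n × Fin n → V) : Prop :=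
  ∀ a : Fin n × Fin n, x (u.1 + ((a.1 : ℕ) : ℤ), u.2 + ((a.2 : ℕ) : ℤ)) = p a

/-- Globally admissible block patterns. -/
def Admissible {V : Type*} (G : SimpleGraph V) {n : ℕ} (p : Fin n × Fin n → V) : Prop :=
  ∃ x : ℤ × ℤ → V, IsPoint G x ∧ ∃ u : ℤ × ℤ, OccursAt x u p

/-- `δ(B_n(u), B_n(u')) ≥ m`: every point of the first block is at sup-distance at least `m`
from every point of the second one. -/
def Separated (n m : ℕ) (u u' : ℤ × ℤ) : Prop :=
  ∀ a b : Fin n × Fin n,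
    (m : ℤ) ≤ max |(u.1 + ((a.1 : ℕ) : ℤ)) - (u'.1 + ((b.1 : ℕ) : ℤ))|
      |(u.2 + ((a.2 : ℕ) : ℤ)) - (u'.2 + ((b.2 : ℕ) : ℤ))|

/-- The gluing condition for blocks of size `n`, with phase `k`, at all separations at
least `m`. -/
def GluesAt {V : Type*} (G : SimpleGraph V) (k n m : ℕ) : Prop :=
  ∀ p p' : Fin n × Fin n → V, Admissible G p → Admissible G p' →
    ∀ u u' : ℤ × ℤ, Separated n m u u' →
      ∃ x : ℤ × ℤ → V, IsPoint G x ∧ ∃ v : ℤ × ℤ, max |v.1| |v.2| < (k : ℤ) ∧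
        OccursAt x u p ∧ OccursAt x (u'.1 + v.1, u'.2 + v.2) p'

/-- `X_G` is `(f,k)`-phased block gluing. -/
def PhasedGluing {V : Type*} (G : SimpleGraph V) (f : ℕ → ℕ) (k : ℕ) : Prop :=
  ∀ n : ℕ, 1 ≤ n → GluesAt G k n (f n)

/-- The phase `θ`: the least `k ≥ 1` for which some `f` works. -/
noncomputable def phase {V : Type*} (G : SimpleGraph V) : ℕ :=
  sInf {k : ℕ | 1 ≤ k ∧ ∃ f : ℕ → ℕ, PhasedGluing G f k}

/-- The gap function `γ_G`. -/
noncomputable def gap {V : Type*} (G : SimpleGraph V) (n : ℕ) : ℕ :=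
  sInf {m : ℕ | GluesAt G (phase G) n m}

/-- `g = O(f)` on `n ≥ 1`. -/
def IsO (g f : ℕ → ℝ) : Prop :=
  ∃ c K : ℝ, 0 < c ∧ 0 < K ∧ ∀ n : ℕ, 1 ≤ n → g n ≤ c * f n + K

/-- `f = Θ(g)`. -/
def IsTheta (f g : ℕ → ℝ) : Prop := IsO g f ∧ IsO f g

/-- The question Q1: the gap function of every finite connected graph with an edge is in one of
the classes `Θ(1)`, `Θ(log n)`, `Θ(n)`. -/
def Trichotomy : Prop :=
  ∀ (V : Type) [Finite V] (G : SimpleGraph V), G.Connected → (∃ a b, G.Adj a b) →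
    IsTheta (fun n => (gap G n : ℝ)) (fun _ => 1) ∨
    IsTheta (fun n => (gap G n : ℝ)) (fun n => Real.log n) ∨
    IsTheta (fun n => (gap G n : ℝ)) (fun n => (n : ℝ))

end Pool.Agent.H26.Hom
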