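import Mathlib
import Pool.Agent.H26.Hom.Defs

/-!
# The graph with 732 vertices whose gap function is `Θ(log log n)`
-/

namespace Pool.Agent.H26.Hom

inductive Flag | E | K | F
deriving DecidableEq, Fintype, Repr

/-- letters of the words -/
inductive Letter
  | plain (b : Bool)
  | comp (h : Flag) (b : Bool)
  | cons (h : Flag) (b : Bool)
  | dead
deriving DecidableEq, Fintype, Repr

inductive Kind | idle | nop | car (h : Flag)
deriving DecidableEq, Fintype, Repr

structure State where
  kind : Kind
  bit : Bool
deriving DecidableEq, Fintype, Repr

def isPlain : Letter → Bool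
  | .plain _ => true
  | _ => false

/-- a computing letter with flag `E` -/
def isCompE : Letter → Bool
  | .comp .E _ => true
  | _ => false

/-- kinds allowed just before a letter -/
def inOK : Letter → Kind → Bool
  | .plain _, .nop => false
  | .plain _, _ => true
  | _, .car _ => false
  | _, _ => true

/-- kinds allowed just after a letter -/
def outOK : Letter → Kind → Bool
  | .comp _ _, .idle => false
  | .comp _ _, _ => true
  | _, .car _ => false
  | _, _ => true

/-- `rule h b k k' h'`: the flag `h` at a bit `b`, read with bits `k` before and `k'` after,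
may be replaced by `h'`. -/
def rule : Flag → Bool → Bool → Bool → Flag → Bool
  | .E, true, k, k', h' => if k && k' then decide (h' = .E) else decide (h' = .F)
  | .E, false, k, k', h' => (k == k') && (if k then decide (h' = .K) else decide (h' = .E))
  | .K, _, k, k', h' => (k == k') && decide (h' = .K)
  | .F, _, _, _, h' => decide (h' = .F)

def bitOK : Letter → Bool → Kind → Bool → Bool
  | .comp h b, k, .car h', k' => rule h b k k' h'
  | .comp h b, k, _, k' => decide (∃ h', rule h b k k' h' = true)
  | _, k, _, k' => k == k'

/-- the letter written above `x` when the states around it have kinds `κ`, `κ'` -/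
def out : Letter → Kind → Kind → Letter
  | .plain b, .car h, _ => .comp h b
  | .comp h b, _, .car _ => .cons h b
  | .comp _ _, _, _ => .dead
  | x, _, _ => x

def okT (s : State) (x : Letter) (s' : State) : Bool :=
  inOK x s.kind && outOK x s'.kind && bitOK x s.bit s'.kind s'.bit

/-- transitions -/
def Trans : Type := {t : State × Letter × State // okT t.1 t.2.1 t.2.2 = true}

instance : DecidableEq Trans := by unfold Trans; infer_instance
instance : Fintype Trans := by unfold Trans; infer_instance

def Trans.src (t : Trans) : State := t.1.1
def Trans.tgt (t : Trans) : State := t.1.2.2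
def Trans.bot (t : Trans) : Letter := t.1.2.1
def Trans.top (t : Trans) : Letter := out t.1.2.1 t.1.1.kind t.1.2.2.kind

/-- symbol of a middle hub: a state, or a star with a coordinate -/
abbrev Sym := State ⊕ Bool

/-- vertices -/
inductive Vtx
  | om (i : Fin 4)
  | del (j : Bool)
  | hb (c : Bool)
  | hm (c : Bool) (σ : Sym)
  | eb (c : Bool) (x : Letter) (j : Bool)
  | em (c : Bool) (t : Trans) (j : Bool)
deriving DecidableEq, Fintype

/-- the state of the transition `t` on the side of the coordinate `j` -/
def Trans.side (t : Trans) (j : Bool) : State := if j then t.tgt else t.src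

/-- the middle hub symbol `σ` is compatible with the end of `t` of coordinate `j` -/
def symOK (σ : Sym) (t : Trans) (j : Bool) : Prop := σ = .inl (t.side j) ∨ σ = .inr j

instance (σ : Sym) (t : Trans) (j : Bool) : Decidable (symOK σ t j) := by
  unfold symOK; infer_instance

/-- base end versus middle end (of the same coordinate) -/
def vertOK (c : Bool) (x : Letter) (c' : Bool) (t : Trans) : Prop :=
  (c' = c ∧ t.bot = x) ∨ (c' = !c ∧ t.top = x)

instance (c : Bool) (x : Letter) (c' : Bool) (t : Trans) : Decidable (vertOK c x c' t) := by
  unfold vertOK; infer_instance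

/-- adjacency -/
def adj : Vtx → Vtx → Prop
  | .om i, .om i' => i ≠ i'
  | .om _, .del _ => True
  | .del _, .om _ => True
  | .om _, .hb _ => True
  | .hb _, .om _ => True
  | .om _, .hm _ _ => True
  | .hm _ _, .om _ => True
  | .del j, .del j' => j ≠ j'
  | .del j, .eb _ x j' => j = j' ∧ isCompE x = false
  | .eb _ x j', .del j => j = j' ∧ isCompE x = false
  | .hb _, .hm _ _ => True
  | .hm _ _, .hb _ => True
  | .hb c, .eb c' _ _ => c = c'
  | .eb c' _ _, .hb c => c = c'
  | .eb c x j, .eb c' x' j' => c = c' ∧ x = x' ∧ j ≠ j'
  | .hm c σ, .em c' t j => c = c' ∧ symOK σ t j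
  | .em c' t j, .hm c σ => c = c' ∧ symOK σ t j
  | .em c t j, .em c' t' j' => c = c' ∧ t = t' ∧ j ≠ j'
  | .eb c x j, .em c' t j' => j = j' ∧ vertOK c x c' t
  | .em c' t j', .eb c x j => j = j' ∧ vertOK c x c' t
  | _, _ => False

/-- the graph -/
def G : SimpleGraph Vtx where
  Adj := adj
  symm := ⟨fun u v h => by
    cases u <;> cases v <;> simp only [adj] at h ⊢ <;> grind⟩
  loopless := ⟨fun v h => by cases v <;> simp [adj] at h⟩

end Pool.Agent.H26.Hom
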