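import Mathlib
import Pool.Agent.H26.Hom.Defs
import Pool.Agent.H26.Hom.Graph

/-!
# Project HOM: statements of the modules
-/

namespace Pool.Agent.H26.Hom

/-! ## Rows -/

/-- bi-infinite walk -/
def IsWalk {V : Type*} (G : SimpleGraph V) (p : ℤ → V) : Prop := ∀ k, G.Adj (p k) (p (k + 1))

/-- two rows, one above the other -/
def VAdj {V : Type*} (G : SimpleGraph V) (p q : ℤ → V) : Prop := ∀ k, G.Adj (p k) (q k)

/-- the index `0` or `1` of the parity of `k` -/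
def par (k : ℤ) : Fin 4 := if k % 2 = 0 then 0 else 1

/-- the alternating row -/
def alt (k : ℤ) : Vtx := .om (par k)

/-- Every walk of `n` vertices is deformed into the alternating walk `o 0, o 1, o 0, …` in `R`
rows. -/
def Collapses {V : Type*} (G : SimpleGraph V) (o : Fin 4 → V) (n R : ℕ) : Prop :=
  ∀ p : ℤ → V, (∀ k : ℤ, 0 ≤ k → k + 1 < n → G.Adj (p k) (p (k + 1))) →
    ∃ y : ℕ → ℤ → V, (∀ k : ℤ, 0 ≤ k → k < n → y 0 k = p k) ∧
      (∀ t : ℕ, ∀ k : ℤ, 0 ≤ k → k + 1 < n → G.Adj (y t k) (y t (k + 1))) ∧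
      (∀ t : ℕ, ∀ k : ℤ, 0 ≤ k → k < n → G.Adj (y t k) (y (t + 1) k)) ∧
      (∀ k : ℤ, 0 ≤ k → k < n → y R k = o (par k))

/-- **GAPU** (generic): collapsing walks gives gluing. -/
def GAPU_stmt : Prop :=
  ∀ (V : Type) (G : SimpleGraph V) (o : Fin 4 → V), (∀ i j, i ≠ j → G.Adj (o i) (o j)) →
    ∀ n R : ℕ, 1 ≤ n → Collapses G o (n + 1) R → GluesAt G 1 n (2 * R + 4)

/-- **GAPL** (generic): gluing gives a collapse of a given walk in `m` rows. -/
def GAPL_stmt : Prop :=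
  ∀ (V : Type) (G : SimpleGraph V) (o : Fin 4 → V), (∀ i j, i ≠ j → G.Adj (o i) (o j)) →
    ∀ n m : ℕ, 1 ≤ n → GluesAt G 1 n m → ∀ x : ℤ → V, IsWalk G x →
      ∃ y : ℕ → ℤ → V, (∀ k : ℤ, 0 ≤ k → k < n → y 0 k = x k) ∧
      (∀ t : ℕ, t ≤ m → ∀ k : ℤ, 0 ≤ k → k + 1 < n → G.Adj (y t k) (y t (k + 1))) ∧
      (∀ t : ℕ, t < m → ∀ k : ℤ, 0 ≤ k → k < n → G.Adj (y t k) (y (t + 1) k)) ∧
      (∀ k : ℤ, 0 ≤ k → k < n → y m k = o (par k))

/-! ## Lower bound -/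

/-- `b` is the only common neighbour of `a` and `c`, and `a ≠ c` -/
def Tight {V : Type*} (G : SimpleGraph V) (a b c : V) : Prop :=
  a ≠ c ∧ ∀ v, G.Adj a v → G.Adj v c → v = b

/-- **TIGHT** (generic): above a tight row, a large window is uniform. -/
def TIGHT_stmt : Prop :=
  ∀ (V : Type) (G : SimpleGraph V) (x y : ℤ → V) (lo hi : ℤ) (L : ℕ),
    lo + 3 * L + 3 ≤ hi →
    (∀ k, lo < k → k < hi → Tight G (x (k - 1)) (x k) (x (k + 1))) →
    (∀ k, lo ≤ k → k < hi → G.Adj (y k) (y (k + 1))) →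
    (∀ k, lo ≤ k → k ≤ hi → G.Adj (x k) (y k)) →
    ∃ lo' hi' : ℤ, lo < lo' ∧ hi' < hi ∧ lo' + L ≤ hi' ∧
      ((∀ k, lo' ≤ k → k ≤ hi' → y k = x (k + 1)) ∨
       (∀ k, lo' ≤ k → k ≤ hi' → y k = x (k - 1)) ∨
       (∀ k, lo' ≤ k → k ≤ hi' → y k ≠ x (k - 1) ∧ y k ≠ x (k + 1)))

/-- expansion of a word in the base -/
def baseRow (c : Bool) (w : ℤ → Letter) (k : ℤ) : Vtx :=
  if k % 3 = 0 then .hb c else .eb c (w (k / 3)) (decide (k % 3 = 2))

/-- expansion of a path of transitions in the middle -/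
def midRow (c : Bool) (t : ℤ → Trans) (k : ℤ) : Vtx :=
  if k % 3 = 0 then .hm c (.inl (t (k / 3)).src) else .em c (t (k / 3)) (decide (k % 3 = 2))

/-- **CLST**: tightness of the two kinds of rows. -/
def CLST_stmt : Prop :=
  (∀ c w k, Tight G (baseRow c w (k - 1)) (baseRow c w k) (baseRow c w (k + 1))) ∧
  (∀ c t k, Tight G (midRow c t (k - 1)) (midRow c t k) (midRow c t (k + 1)))

/-- **CLSB**: rows above a base row which nowhere shift it. -/
def CLSB_stmt : Prop :=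
  ∀ (c : Bool) (w : ℤ → Letter) (y : ℤ → Vtx) (lo hi : ℤ), lo + 12 ≤ hi →
    (∀ k, lo ≤ k → k < hi → G.Adj (y k) (y (k + 1))) →
    (∀ k, lo ≤ k → k ≤ hi → G.Adj (baseRow c w k) (y k)) →
    (∀ k, lo ≤ k → k ≤ hi → y k ≠ baseRow c w (k - 1) ∧ y k ≠ baseRow c w (k + 1)) →
    (∀ a : ℤ, lo ≤ 3 * a → 3 * a + 2 ≤ hi → isCompE (w a) = false) ∨
    ∃ (c' : Bool) (t : ℤ → Trans),
      (∀ a : ℤ, lo ≤ 3 * a → 3 * a + 5 ≤ hi → (t a).tgt = (t (a + 1)).src) ∧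
      (∀ k, lo + 3 ≤ k → k + 3 ≤ hi → y k = midRow c' t k) ∧
      ((∀ a : ℤ, lo ≤ 3 * a → 3 * a + 2 ≤ hi → (t a).bot = w a) ∨
       (∀ a : ℤ, lo ≤ 3 * a → 3 * a + 2 ≤ hi → (t a).top = w a))

/-- **CLSM**: rows above a middle row which nowhere shift it. -/
def CLSM_stmt : Prop :=
  ∀ (c : Bool) (t : ℤ → Trans) (y : ℤ → Vtx) (lo hi : ℤ), lo + 12 ≤ hi →
    (∀ k, lo ≤ k → k < hi → G.Adj (y k) (y (k + 1))) →
    (∀ k, lo ≤ k → k ≤ hi → G.Adj (midRow c t k) (y k)) →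
    (∀ k, lo ≤ k → k ≤ hi → y k ≠ midRow c t (k - 1) ∧ y k ≠ midRow c t (k + 1)) →
    ∃ (c' : Bool) (w : ℤ → Letter),
      (∀ k, lo + 3 ≤ k → k + 3 ≤ hi → y k = baseRow c' w k) ∧
      ((∀ a : ℤ, lo ≤ 3 * a → 3 * a + 2 ≤ hi → w a = (t a).bot) ∨
       (∀ a : ℤ, lo ≤ 3 * a → 3 * a + 2 ≤ hi → w a = (t a).top))

/-- Structured words: blocks of length `r`; in the block `q`, the letter number `s` is
`cons (H s q) (B q s)` for `s < i`, `comp (H i q) (B q i)` for `s = i` and `plain (B q s)` for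
`s > i`. -/
def conf (r : ℕ) (B : ℤ → ℕ → Bool) (H : ℕ → ℤ → Flag) (i : ℕ) (a : ℤ) : Letter :=
  if (a % r).toNat < i then
    .cons (H (a % r).toNat (a / r)) (B (a / r) (a % r).toNat)
  else if (a % r).toNat = i then .comp (H i (a / r)) (B (a / r) i)
  else .plain (B (a / r) (a % r).toNat)

/-- **CONFU**: going up from a structured word. -/
def CONFU_stmt : Prop :=
  ∀ (r : ℕ) (B : ℤ → ℕ → Bool) (H : ℕ → ℤ → Flag) (i : ℕ) (A Z : ℤ) (t : ℤ → Trans),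
    i + 2 ≤ r →
    (∀ a, A ≤ a → a ≤ Z → (t a).bot = conf r B H i a) →
    (∀ a, A ≤ a → a < Z → (t a).tgt = (t (a + 1)).src) →
    ∃ H' : ℕ → ℤ → Flag, (∀ s ≤ i, H' s = H s) ∧
      (∀ a, A < a → a < Z → (t a).top = conf r B H' (i + 1) a) ∧
      ∃ κ : ℤ → Bool, ∀ q : ℤ, A ≤ q * r → (q + 2) * r ≤ Z →
        rule (H i q) (B q i) (κ q) (κ (q + 1)) (H' (i + 1) q) = true

/-- **CONFD**: going down from a structured word. -/
def CONFD_stmt : Prop :=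
  ∀ (r : ℕ) (B : ℤ → ℕ → Bool) (H : ℕ → ℤ → Flag) (i : ℕ) (A Z : ℤ) (t : ℤ → Trans),
    i + 2 ≤ r → A + 2 * r ≤ Z →
    (∀ a, A ≤ a → a ≤ Z → (t a).top = conf r B H i a) →
    (∀ a, A ≤ a → a < Z → (t a).tgt = (t (a + 1)).src) →
    ∃ i' : ℕ, i = i' + 1 ∧ ∀ a, A < a → a < Z → (t a).bot = conf r B H i' a

/-- the kill lists -/
def Kl : ℕ → List (List Bool)
  | 0 => [[]]
  | j + 1 => (Kl j).map (false :: ·) ++
      (Kl j).flatMap (fun a => (true :: a) :: (Kl j).map (false :: ·))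

/-- the bits of the periodic word of level `T` -/
def klBits (T : ℕ) (q : ℤ) (s : ℕ) : Bool :=
  ((Kl T).getD (q % ((Kl T).length : ℤ)).toNat []).getD s false

/-- **KILL**: after `i ≤ T` levels a flag `E` is left. -/
def KILL_stmt : Prop :=
  (∀ T, (Kl T).length = 2 ^ (2 ^ T) - 1) ∧
  ∀ (T i : ℕ) (H : ℕ → ℤ → Flag) (q₀ : ℤ), i ≤ T →
    (∀ q, q₀ ≤ q → q < q₀ + 2 * (Kl T).length → H 0 q = .E) →
    (∀ s < i, ∃ κ : ℤ → Bool, ∀ q, q₀ ≤ q → q < q₀ + 2 * (Kl T).length →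
      rule (H s q) (klBits T q s) (κ q) (κ (q + 1)) (H (s + 1) q) = true) →
    ∃ q, q₀ ≤ q ∧ q < q₀ + 2 * (Kl T).length ∧ H i q = .E

/-- **LB**: a long walk which does not collapse in `2T` rows. -/
def LB_stmt : Prop :=
  ∀ T n : ℕ, 2 ^ (2 ^ (T + 5)) ≤ n → ∃ x : ℤ → Vtx, IsWalk G x ∧
    ∀ m ≤ 2 * T, ∀ y : ℕ → ℤ → Vtx, (∀ k : ℤ, 0 ≤ k → k < n → y 0 k = x k) →
      (∀ t : ℕ, t ≤ m → ∀ k : ℤ, 0 ≤ k → k + 1 < n → G.Adj (y t k) (y t (k + 1))) →
      (∀ t : ℕ, t < m → ∀ k : ℤ, 0 ≤ k → k < n → G.Adj (y t k) (y (t + 1) k)) →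
      ¬ (∀ k : ℤ, 0 ≤ k → k < n → y m k = alt k)

/-- **ASML**: assembly of the lower bound. -/
def ASML_stmt : Prop :=
  TIGHT_stmt → CLST_stmt → CLSB_stmt → CLSM_stmt → CONFU_stmt → CONFD_stmt → KILL_stmt → LB_stmt

/-! ## Upper bound: words -/

/-- number of plain letters at the beginning -/
def lp : List Letter → ℕ
  | .plain _ :: l => lp l + 1
  | _ => 0

/-- the new value of the counter: number of `T`-long `E` since the last `T`-long `F` -/
def upd (T a : ℕ) (x : Letter) (l : List Letter) : ℕ :=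
  match x with
  | .comp .E _ => if T ≤ lp l then a + 1 else a
  | .comp .F _ => if T ≤ lp l then 0 else a
  | _ => a

/-- the counter, starting at `a`, stays below `N` -/
def Wok (N T : ℕ) : ℕ → List Letter → Prop
  | _, [] => True
  | a, x :: l => upd T a x l < N ∧ Wok N T (upd T a x l) l

/-- a path of transitions starting at the state `s` -/
def PathFrom : State → List Trans → Prop
  | _, [] => True
  | s, t :: ts => t.src = s ∧ PathFrom t.tgt ts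

/-- **WORD**: one level of the game on words. -/
def WORD_stmt : Prop :=
  ∀ (N T : ℕ) (w : List Letter), 0 < N → Wok ((N + 1) ^ 2 - 1) (T + 1) 0 w →
    ∃ (s : State) (ts : List Trans), PathFrom s ts ∧ ts.map Trans.bot = w ∧
      Wok N T 0 (ts.map Trans.top)

/-- `2 ^ 2 ^ T - 1` -/
def nT (T : ℕ) : ℕ := 2 ^ (2 ^ T) - 1

/-- a tower of `T` transitions -/
def TowerOK (T : ℕ) (W : ℕ → Letter) (τ : ℕ → Trans) : Prop :=
  (∀ l < T, (τ l).bot = W l ∧ (τ l).top = W (l + 1)) ∧ isCompE (W T) = false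

/-- **SEL**: towers for all letters of a finite set, compatible along steps of length three. -/
def SEL_stmt : Prop :=
  ∀ (T : ℕ) (S : Finset ℤ) (W₀ : ℤ → Letter), S.card < nT T →
    ∃ (W : ℤ → ℕ → Letter) (τ : ℤ → ℕ → Trans),
      (∀ k ∈ S, W k 0 = W₀ k ∧ TowerOK T (W k) (τ k)) ∧
      (∀ k ∈ S, k + 3 ∈ S → ∀ l < T, (τ k l).tgt = (τ (k + 3) l).src)

/-! ## Upper bound: rows -/

/-- hubs -/
def isHub : Vtx → Bool
  | .om _ => true
  | .hb _ => true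
  | .hm _ _ => true
  | _ => false

/-- the coordinate of an end -/
def coord : Vtx → Bool
  | .del j => j
  | .eb _ _ j => j
  | .em _ _ j => j
  | _ => false

/-- `r` is nice: two consecutive ends of different coordinates are between hubs -/
def Nice (r : ℤ → Vtx) : Prop :=
  ∀ k, isHub (r k) = false → isHub (r (k + 1)) = false → coord (r k) ≠ coord (r (k + 1)) →
    isHub (r (k - 1)) = true ∧ isHub (r (k + 2)) = true

/-- **NORM**: every walk is deformed into a nice walk in four rows, which keeps its hubs. -/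
def NORM_stmt : Prop :=
  ∀ p : ℤ → Vtx, IsWalk G p → (∃ M : ℤ, ∀ k, M ≤ |k| → isHub (p k) = true) →
    ∃ y₁ y₂ y₃ r : ℤ → Vtx, IsWalk G y₁ ∧ IsWalk G y₂ ∧ IsWalk G y₃ ∧ IsWalk G r ∧
      VAdj G p y₁ ∧ VAdj G y₁ y₂ ∧ VAdj G y₂ y₃ ∧ VAdj G y₃ r ∧ Nice r ∧
      ∀ k, isHub (p k) = true → r k = p k

/-- column over a base hub (`σ l` is the symbol of level `l`) -/
def hubCol : ℕ → Bool → (ℕ → Sym) → ℤ → ℕ → Vtx
  | 0, c, _, _, 0 => .hb c
  | 0, _, _, k, t + 1 => alt (k + (t + 1 : ℕ))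
  | _ + 1, c, _, _, 0 => .hb c
  | _ + 1, c, σ, _, 1 => .hm c (σ 0)
  | T + 1, c, σ, k, t + 2 => hubCol T (!c) (fun l => σ (l + 1)) k t

/-- column over a base end -/
def letCol : ℕ → Bool → (ℕ → Letter) → (ℕ → Trans) → Bool → ℤ → ℕ → Vtx
  | 0, c, W, _, j, _, 0 => .eb c (W 0) j
  | 0, _, _, _, j, _, 1 => .del j
  | 0, _, _, _, _, k, t + 2 => alt (k + (t + 2 : ℕ))
  | _ + 1, c, W, _, j, _, 0 => .eb c (W 0) j
  | _ + 1, c, _, τ, j, _, 1 => .em c (τ 0) j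
  | T + 1, c, W, τ, j, k, t + 2 =>
      letCol T (!c) (fun l => W (l + 1)) (fun l => τ (l + 1)) j k t

/-- labels of the positions of a nice walk -/
inductive Lab
  | om (i : Fin 4)
  | del (j : Bool)
  | nb (c : Bool) (x : Letter) (j : Bool)
  | nm (c : Bool) (t : Trans) (j : Bool)
  | hubB (c : Bool) (σ : ℕ → Sym)
  | hubM (c : Bool) (s : Sym) (σ : ℕ → Sym)
  | letB (c : Bool) (W : ℕ → Letter) (τ : ℕ → Trans) (j : Bool)
  | letM (c : Bool) (t : Trans) (W : ℕ → Letter) (τ : ℕ → Trans) (j : Bool)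

/-- the vertex of a label -/
def Lab.vtx : Lab → Vtx
  | .om i => .om i
  | .del j => .del j
  | .nb c x j => .eb c x j
  | .nm c t j => .em c t j
  | .hubB c _ => .hb c
  | .hubM c s _ => .hm c s
  | .letB c W _ j => .eb c (W 0) j
  | .letM c t _ _ j => .em c t j

/-- the second row over `om i` at the position `k` -/
def omUp (i : Fin 4) (k : ℤ) : Vtx :=
  if i = par (k + 1) then .om (if k % 2 = 0 then 2 else 3) else alt (k + 1)

/-- the column of a label at the position `k` -/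
def Lab.col (T : ℕ) : Lab → ℤ → ℕ → Vtx
  | .om i, _, 0 => .om i
  | .om i, k, 1 => omUp i k
  | .om _, k, t + 2 => alt (k + (t + 2 : ℕ))
  | .del j, _, 0 => .del j
  | .del _, k, t + 1 => alt (k + (t + 1 : ℕ))
  | .nb c x j, _, 0 => .eb c x j
  | .nb c _ _, _, 1 => .hb c
  | .nb _ _ _, k, t + 2 => alt (k + (t + 2 : ℕ))
  | .nm c t j, _, 0 => .em c t j
  | .nm c _ j, _, 1 => .hm c (.inr j)
  | .nm _ _ _, k, t + 2 => alt (k + (t + 2 : ℕ))
  | .hubB c σ, k, t => hubCol T c σ k t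
  | .hubM c s _, _, 0 => .hm c s
  | .hubM c _ σ, k, t + 1 => hubCol T (!c) σ (k + 1) t
  | .letB c W τ j, k, t => letCol T c W τ j k t
  | .letM c t _ _ j, _, 0 => .em c t j
  | .letM c _ W τ j, k, t + 1 => letCol T (!c) W τ j (k + 1) t

/-- valid labels -/
def Lab.valid (T : ℕ) : Lab → Prop
  | .letB _ W τ _ => TowerOK T W τ
  | .letM _ t W τ _ => t.top = W 0 ∧ TowerOK T W τ
  | _ => True

/-- a hub next to an end of a letter -/
def hubLet (T : ℕ) (σ : ℕ → Sym) (τ : ℕ → Trans) (j : Bool) : Prop := ∀ l < T, symOK (σ l) (τ l) j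

/-- compatible labels of two neighbouring positions (to be used symmetrically) -/
def Lab.comp1 (T : ℕ) : Lab → Lab → Prop
  | .hubB c σ, .letB c' _ τ j => c = c' ∧ hubLet T σ τ j
  | .hubM c s σ, .letM c' t _ τ j => c = c' ∧ symOK s t j ∧ hubLet T σ τ j
  | .letB c W τ j, .letB c' W' τ' j' => c = c' ∧ W = W' ∧ τ = τ' ∧ j ≠ j'
  | .letM c t W τ j, .letM c' t' W' τ' j' => c = c' ∧ t = t' ∧ W = W' ∧ τ = τ' ∧ j ≠ j'
  | .nb c x j, .nm c' t j' => j = j' ∧ vertOK c x c' t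
  | .del j, .nb _ x j' => j = j' ∧ isCompE x = false
  | .del j, .del j' => j ≠ j'
  | .om i, .om i' => i ≠ i'
  | .om _, .del _ => True
  | .om _, .hubB _ _ => True
  | .om _, .hubM _ _ _ => True
  | .hubB _ _, .hubM _ _ _ => True
  | .hubB c _, .nb c' _ _ => c = c'
  | .hubM c s _, .nm c' t j => c = c' ∧ symOK s t j
  | _, _ => False

def Lab.compat (T : ℕ) (a b : Lab) : Prop := a.comp1 T b ∨ b.comp1 T a

/-- **LAB**: the columns of compatible labels are adjacent. -/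
def LAB_stmt : Prop :=
  (∀ (T : ℕ) (a : Lab) (k : ℤ) (t : ℕ), a.valid T → G.Adj (a.col T k t) (a.col T k (t + 1))) ∧
  (∀ (T : ℕ) (a b : Lab) (k : ℤ) (t : ℕ), a.valid T → b.valid T → a.compat T b →
    G.Adj (a.col T k t) (b.col T (k + 1) t)) ∧
  (∀ (T : ℕ) (a : Lab) (k : ℤ) (t : ℕ), 2 * T + 3 ≤ t → a.col T k t = alt (k + t)) ∧
  (∀ (T : ℕ) (a : Lab) (k : ℤ), a.col T k 0 = a.vtx)

/-- **LABEL**: nice walks have labels. -/
def LABEL_stmt : Prop :=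
  SEL_stmt → ∀ (T : ℕ) (r : ℤ → Vtx), IsWalk G r → Nice r →
    (∃ S : Finset ℤ, S.card < nT T ∧ ∀ k, isHub (r k) = false → k ∈ S) →
    ∃ lab : ℤ → Lab, (∀ k, (lab k).vtx = r k) ∧ (∀ k, (lab k).valid T) ∧
      (∀ k, (lab k).compat T (lab (k + 1)))

/-- **UB**: short walks collapse. -/
def UB_stmt : Prop := ∀ T n : ℕ, n < nT T → Collapses G .om n (2 * T + 8)

/-- **ASMU**: assembly of the upper bound. -/
def ASMU_stmt : Prop := SEL_stmt → NORM_stmt → LAB_stmt → LABEL_stmt → UB_stmt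

/-! ## Final -/

/-- **CONN**: the graph is connected. -/
def CONN_stmt : Prop := G.Connected

/-- **FIN** (generic): from the two bounds to the asymptotics. -/
def FIN_stmt : Prop :=
  ∀ (V : Type) (G : SimpleGraph V),
    (∀ T n : ℕ, 1 ≤ n → n + 1 < nT T → GluesAt G 1 n (4 * T + 20)) →
    (∀ T n : ℕ, 2 ^ (2 ^ (T + 5)) ≤ n → ∀ m ≤ 2 * T, ¬ GluesAt G 1 n m) →
    IsTheta (fun n => (gap G n : ℝ)) (fun n => Real.log (Real.log n)) ∧
    ¬ IsTheta (fun n => (gap G n : ℝ)) (fun _ => 1) ∧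
    ¬ IsTheta (fun n => (gap G n : ℝ)) (fun n => Real.log n) ∧
    ¬ IsTheta (fun n => (gap G n : ℝ)) (fun n => (n : ℝ))

/-- the theorem -/
def MAIN_stmt : Prop :=
  (∃ (V : Type) (_ : Finite V) (G : SimpleGraph V), G.Connected ∧ (∃ a b, G.Adj a b) ∧
    IsTheta (fun n => (gap G n : ℝ)) (fun n => Real.log (Real.log n))) ∧ ¬ Trichotomy

theorem main_of (h1 : GAPU_stmt) (h2 : GAPL_stmt) (h3 : LB_stmt) (h4 : UB_stmt)
    (h5 : CONN_stmt) (h6 : FIN_stmt) : MAIN_stmt := by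
  have hom : ∀ i j : Fin 4, i ≠ j → G.Adj (.om i) (.om j) := fun i j h => h
  have key := h6 Vtx G
    (fun T n hn hT => by
      have := h1 Vtx G .om hom n (2 * T + 8) hn (h4 T (n + 1) hT)
      have e : 2 * (2 * T + 8) + 4 = 4 * T + 20 := by ring
      rw [e] at this
      exact this)
    (fun T n hn m hm hg => by
      obtain ⟨x, hx, hx'⟩ := h3 T n hn
      have hn1 : 1 ≤ n := le_trans Nat.one_le_two_pow hn
      obtain ⟨y, hy0, hyh, hyv, hym⟩ := h2 Vtx G .om hom n m hn1 hg x hx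
      exact hx' m hm y hy0 hyh hyv hym)
  refine ⟨⟨Vtx, inferInstance, G, h5, ⟨.om 0, .om 1, hom 0 1 (by decide)⟩, key.1⟩, ?_⟩
  intro hq
  rcases hq Vtx G h5 ⟨.om 0, .om 1, hom 0 1 (by decide)⟩ with h | h | h
  · exact key.2.1 h
  · exact key.2.2.1 h
  · exact key.2.2.2 h

end Pool.Agent.H26.Hom
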