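import Mathlib
import Pool.Agent.H26.Hom.Stmts

namespace Pool.Agent.H26.Hom

namespace Asml

theorem gadj (u v : Vtx) : G.Adj u v ↔ adj u v := Iff.rfl

theorem baseRow_walk (c : Bool) (w : ℤ → Letter) : IsWalk G (baseRow c w) := by
  intro k
  rw [gadj]
  have h3 : k % 3 = 0 ∨ k % 3 = 1 ∨ k % 3 = 2 := by omega
  rcases h3 with h | h | h
  · have h' : (k + 1) % 3 = 1 := by omega
    simp [baseRow, h, h', adj]
  · have h' : (k + 1) % 3 = 2 := by omega
    have h'' : (k + 1) / 3 = k / 3 := by omega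
    simp [baseRow, h, h', h'', adj]
  · have h' : (k + 1) % 3 = 0 := by omega
    simp [baseRow, h, h', adj]

theorem baseRow_ne_alt (c : Bool) (w : ℤ → Letter) (k l : ℤ) : baseRow c w k ≠ alt l := by
  unfold baseRow alt; split <;> simp

theorem midRow_ne_alt (c : Bool) (t : ℤ → Trans) (k l : ℤ) : midRow c t k ≠ alt l := by
  unfold midRow alt; split <;> simp

theorem baseRow_congr (c : Bool) (w w' : ℤ → Letter) (k : ℤ) (h : w (k / 3) = w' (k / 3)) :
    baseRow c w k = baseRow c w' k := by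
  unfold baseRow; rw [h]

theorem conf_congr (r : ℕ) (B : ℤ → ℕ → Bool) (H H' : ℕ → ℤ → Flag) (i : ℕ) (a : ℤ)
    (h : ∀ s ≤ i, H' s = H s) : conf r B H' i a = conf r B H i a := by
  unfold conf
  by_cases h1 : (a % r).toNat < i
  · rw [if_pos h1, if_pos h1, h _ h1.le]
  · rw [if_neg h1, if_neg h1, h i le_rfl]

/-- history of the flags -/
def Hist (T : ℕ) (H : ℕ → ℤ → Flag) (i : ℕ) (lo hi : ℤ) : Prop :=
  (∀ q, H 0 q = .E) ∧ ∀ s < i, ∃ κ : ℤ → Bool, ∀ q : ℤ,
    lo ≤ 3 * (q * ((T + 3 : ℕ) : ℤ)) → 3 * ((q + 2) * ((T + 3 : ℕ) : ℤ)) + 2 ≤ hi →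
    rule (H s q) (klBits T q s) (κ q) (κ (q + 1)) (H (s + 1) q) = true

theorem Hist.mono {T : ℕ} {H : ℕ → ℤ → Flag} {i i' : ℕ} {lo hi lo' hi' : ℤ}
    (h : Hist T H i lo hi) (hi1 : i' ≤ i) (h1 : lo ≤ lo') (h2 : hi' ≤ hi) :
    Hist T H i' lo' hi' := by
  refine ⟨h.1, fun s hs => ?_⟩
  obtain ⟨κ, hκ⟩ := h.2 s (lt_of_lt_of_le hs hi1)
  exact ⟨κ, fun q h3 h4 => hκ q (by omega) (by omega)⟩

def InvB (T i : ℕ) (lo hi : ℤ) (y : ℤ → Vtx) : Prop :=
  ∃ (c : Bool) (e : ℤ) (H : ℕ → ℤ → Flag), Hist T H i (lo + e) (hi + e) ∧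
    ∀ k, lo ≤ k → k ≤ hi → y k = baseRow c (conf (T + 3) (klBits T) H i) (k + e)

def InvM (T i : ℕ) (lo hi : ℤ) (y : ℤ → Vtx) : Prop :=
  ∃ (c : Bool) (e : ℤ) (H : ℕ → ℤ → Flag) (t : ℤ → Trans), Hist T H (i + 1) (lo + e) (hi + e) ∧
    (∀ a : ℤ, lo + e ≤ 3 * a → 3 * a + 5 ≤ hi + e → (t a).tgt = (t (a + 1)).src) ∧
    (∀ a : ℤ, lo + e ≤ 3 * a → 3 * a + 2 ≤ hi + e →
      (t a).bot = conf (T + 3) (klBits T) H i a ∧
      (t a).top = conf (T + 3) (klBits T) H (i + 1) a) ∧
    ∀ k, lo ≤ k → k ≤ hi → y k = midRow c t (k + e)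

/-- length which guarantees a flag `E` -/
def P (T : ℕ) : ℕ := 3 * (T + 3) * (2 * (Kl T).length + 4) + 40

theorem isCompE_conf (r : ℕ) (B : ℤ → ℕ → Bool) (H : ℕ → ℤ → Flag) (i : ℕ) (q : ℤ)
    (hi : i < r) (hE : H i q = .E) : isCompE (conf r B H i (q * r + i)) = true := by
  have hr : (0 : ℤ) < r := by omega
  have h1 : (q * r + i) % (r : ℤ) = i := by
    rw [add_comm, Int.add_mul_emod_self_right]
    exact Int.emod_eq_of_lt (by omega) (by omega)
  have h2 : (q * r + i) / (r : ℤ) = q := by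
    rw [add_comm, Int.add_mul_ediv_right _ _ hr.ne', Int.ediv_eq_zero_of_lt (by omega) (by omega)]
    simp
  unfold conf
  rw [h1, h2]
  simp [hE, isCompE]

theorem killed (hKILL : KILL_stmt) (T i : ℕ) (H : ℕ → ℤ → Flag) (lo hi : ℤ) (hi1 : i ≤ T)
    (hH : Hist T H i lo hi) (lo1 hi1' : ℤ) (h1 : lo ≤ lo1) (h2 : hi1' ≤ hi)
    (hL : lo1 + P T ≤ hi1')
    (hno : ∀ a : ℤ, lo1 ≤ 3 * a → 3 * a + 2 ≤ hi1' →
      isCompE (conf (T + 3) (klBits T) H i a) = false) : False := by
  obtain ⟨-, hK⟩ := hKILL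
  set M : ℕ := (Kl T).length with hM
  set r : ℤ := ((T + 3 : ℕ) : ℤ) with hr
  have hr0 : 3 ≤ r := by rw [hr]; push_cast; omega
  have hP : (P T : ℤ) = 3 * r * (2 * M + 4) + 40 := by
    unfold P; rw [← hM, hr]; push_cast; ring
  rw [hP] at hL
  set q₀ : ℤ := (lo1 + 3 * r - 1) / (3 * r) with hq0
  have h3r : 0 < 3 * r := by omega
  have hq1 : lo1 ≤ 3 * r * q₀ := by
    have := Int.lt_ediv_add_one_mul_self (lo1 + 3 * r - 1) h3r
    rw [← hq0] at this
    nlinarith
  have hq2 : 3 * r * q₀ ≤ lo1 + 3 * r - 1 := by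
    have := Int.ediv_mul_le (lo1 + 3 * r - 1) h3r.ne'
    rw [← hq0] at this
    nlinarith
  obtain ⟨q, hqa, hqb, hqE⟩ := hK T i H q₀ hi1 (fun q _ _ => hH.1 q) (fun s hs => by
    obtain ⟨κ, hκ⟩ := hH.2 s hs
    refine ⟨κ, fun q h3 h4 => hκ q ?_ ?_⟩
    · have : r * q₀ ≤ r * q := by nlinarith
      nlinarith
    · have : r * q ≤ r * (q₀ + 2 * M - 1) := by
        apply mul_le_mul_of_nonneg_left _ (by omega)
        omega
      nlinarith)
  have e := isCompE_conf (T + 3) (klBits T) H i q (by omega) hqE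
  have hqr : r * q₀ ≤ r * q := by nlinarith
  have hqr2 : r * q ≤ r * (q₀ + 2 * M - 1) := by
    apply mul_le_mul_of_nonneg_left _ (by omega)
    omega
  have hir : (i : ℤ) + 3 ≤ r := by rw [hr]; push_cast; omega
  have := hno (q * ((T + 3 : ℕ) : ℤ) + i) (by rw [← hr]; nlinarith) (by rw [← hr]; nlinarith)
  rw [this] at e
  exact absurd e (by simp)

theorem stepB (hT : TIGHT_stmt) (hC : CLST_stmt) (hB : CLSB_stmt) (hU : CONFU_stmt)
    (hD : CONFD_stmt) (hK : KILL_stmt) (T i : ℕ) (hiT : i ≤ T) (lo hi : ℤ) (L : ℕ)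
    (hL : P T ≤ L) (hlen : lo + 3 * L + 100 ≤ hi) (x y : ℤ → Vtx) (hx : InvB T i lo hi x)
    (hw : ∀ k, lo ≤ k → k < hi → G.Adj (y k) (y (k + 1)))
    (hv : ∀ k, lo ≤ k → k ≤ hi → G.Adj (x k) (y k)) :
    ∃ lo' hi' : ℤ, lo ≤ lo' ∧ hi' ≤ hi ∧ lo' + L ≤ hi' ∧
      (InvB T i lo' hi' y ∨ InvM T i lo' hi' y ∨ ∃ i', i = i' + 1 ∧ InvM T i' lo' hi' y) := by
  obtain ⟨c, e, H, hH, hxe⟩ := hx
  set w := conf (T + 3) (klBits T) H i with hwdef
  obtain ⟨lo1, hi1, h1, h2, h3, hcase⟩ := hT Vtx G (fun k => baseRow c w (k + e)) y lo hi (L + 20)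
    (by push_cast; omega)
    (fun k _ _ => by
      have := hC.1 c w (k + e)
      have e1 : k - 1 + e = k + e - 1 := by ring
      have e2 : k + 1 + e = k + e + 1 := by ring
      simp only [e1, e2]
      exact this)
    hw
    (fun k h h' => by rw [← hxe k h h']; exact hv k h h')
  push_cast at h3
  rcases hcase with hF | hBk | hN
  · refine ⟨lo1, hi1, by omega, by omega, by omega, Or.inl ⟨c, e + 1, H,
      hH.mono le_rfl (by omega) (by omega), fun k h h' => ?_⟩⟩
    rw [hF k h h']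
    change baseRow c w (k + 1 + e) = _
    congr 1; ring
  · refine ⟨lo1, hi1, by omega, by omega, by omega, Or.inl ⟨c, e - 1, H,
      hH.mono le_rfl (by omega) (by omega), fun k h h' => ?_⟩⟩
    rw [hBk k h h']
    change baseRow c w (k - 1 + e) = _
    congr 1; ring
  · have hcl := hB c w (fun K => y (K - e)) (lo1 + e) (hi1 + e) (by omega)
      (fun k h h' => by
        have := hw (k - e) (by omega) (by omega)
        have e1 : k - e + 1 = k + 1 - e := by ring
        rw [e1] at this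
        exact this)
      (fun k h h' => by
        have := hv (k - e) (by omega) (by omega)
        rw [hxe (k - e) (by omega) (by omega)] at this
        have e1 : k - e + e = k := by ring
        rw [e1] at this
        exact this)
      (fun k h h' => by
        have := hN (k - e) (by omega) (by omega)
        have e1 : k - e - 1 + e = k - 1 := by ring
        have e2 : k - e + 1 + e = k + 1 := by ring
        simp only [e1, e2] at this
        exact this)
    rcases hcl with hno | ⟨c', t, hch, hrow, hbt⟩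
    · exact (killed hK T i H (lo + e) (hi + e) hiT hH (lo1 + e) (hi1 + e) (by omega) (by omega)
        (by have : (P T : ℤ) ≤ L := by exact_mod_cast hL
            omega) hno).elim
    · set A : ℤ := (lo1 + e + 2) / 3 with hA
      set Z : ℤ := (hi1 + e - 2) / 3 with hZ
      have hrow' : ∀ k, lo1 + 9 ≤ k → k ≤ hi1 - 9 → y k = midRow c' t (k + e) := by
        intro k h h'
        have := hrow (k + e) (by omega) (by omega)
        have e1 : k + e - e = k := by ring
        simp only [e1] at this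
        exact this
      rcases hbt with hbot | htop
      · obtain ⟨H', hH'1, hH'2, κ, hκ⟩ := hU (T + 3) (klBits T) H i A Z t (by omega)
          (fun a h h' => hbot a (by omega) (by omega))
          (fun a h h' => hch a (by omega) (by omega))
        refine ⟨lo1 + 9, hi1 - 9, by omega, by omega, by omega, Or.inr (Or.inl
          ⟨c', e, H', t, ?_, ?_, ?_, hrow'⟩)⟩
        · refine ⟨fun q => by rw [hH'1 0 (by omega)]; exact hH.1 q, fun s hs => ?_⟩
          rcases Nat.lt_succ_iff_lt_or_eq.mp hs with h | h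
          · obtain ⟨κ', hκ'⟩ := hH.2 s h
            refine ⟨κ', fun q h4 h5 => ?_⟩
            rw [hH'1 s (by omega), hH'1 (s + 1) (by omega)]
            exact hκ' q (by omega) (by omega)
          · subst h
            refine ⟨κ, fun q h4 h5 => ?_⟩
            rw [hH'1 s le_rfl]
            exact hκ q (by omega) (by omega)
        · intro a h h'
          exact hch a (by omega) (by omega)
        · intro a h h'
          refine ⟨?_, hH'2 a (by omega) (by omega)⟩
          rw [conf_congr _ _ H H' i a hH'1]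
          exact hbot a (by omega) (by omega)
      · have hPL : (P T : ℤ) ≤ L := by exact_mod_cast hL
        have hP3 : 6 * ((T + 3 : ℕ) : ℤ) + 40 ≤ P T := by
          unfold P
          push_cast
          nlinarith
        obtain ⟨i', hi', hbot⟩ := hD (T + 3) (klBits T) H i A Z t (by omega)
          (by omega)
          (fun a h h' => htop a (by omega) (by omega))
          (fun a h h' => hch a (by omega) (by omega))
        subst hi'
        refine ⟨lo1 + 9, hi1 - 9, by omega, by omega, by omega, Or.inr (Or.inr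
          ⟨i', rfl, c', e, H, t, hH.mono le_rfl (by omega) (by omega), ?_, ?_, hrow'⟩)⟩
        · intro a h h'
          exact hch a (by omega) (by omega)
        · intro a h h'
          exact ⟨hbot a (by omega) (by omega), htop a (by omega) (by omega)⟩

theorem stepM (hT : TIGHT_stmt) (hC : CLST_stmt) (hM : CLSM_stmt) (T i : ℕ) (lo hi : ℤ) (L : ℕ)
    (hlen : lo + 3 * L + 100 ≤ hi) (x y : ℤ → Vtx) (hx : InvM T i lo hi x)
    (hw : ∀ k, lo ≤ k → k < hi → G.Adj (y k) (y (k + 1)))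
    (hv : ∀ k, lo ≤ k → k ≤ hi → G.Adj (x k) (y k)) :
    ∃ lo' hi' : ℤ, lo ≤ lo' ∧ hi' ≤ hi ∧ lo' + L ≤ hi' ∧
      (InvM T i lo' hi' y ∨ InvB T i lo' hi' y ∨ InvB T (i + 1) lo' hi' y) := by
  obtain ⟨c, e, H, t, hH, hch, hbt, hxe⟩ := hx
  obtain ⟨lo1, hi1, h1, h2, h3, hcase⟩ := hT Vtx G (fun k => midRow c t (k + e)) y lo hi (L + 20)
    (by push_cast; omega)
    (fun k _ _ => by
      have := hC.2 c t (k + e)
      have e1 : k - 1 + e = k + e - 1 := by ring
      have e2 : k + 1 + e = k + e + 1 := by ring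
      simp only [e1, e2]
      exact this)
    hw
    (fun k h h' => by rw [← hxe k h h']; exact hv k h h')
  push_cast at h3
  rcases hcase with hF | hBk | hN
  · refine ⟨lo1, hi1, by omega, by omega, by omega, Or.inl ⟨c, e + 1, H, t,
      hH.mono le_rfl (by omega) (by omega), fun a h h' => hch a (by omega) (by omega),
      fun a h h' => hbt a (by omega) (by omega), fun k h h' => ?_⟩⟩
    rw [hF k h h']
    change midRow c t (k + 1 + e) = _
    congr 1; ring
  · refine ⟨lo1, hi1, by omega, by omega, by omega, Or.inl ⟨c, e - 1, H, t,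
      hH.mono le_rfl (by omega) (by omega), fun a h h' => hch a (by omega) (by omega),
      fun a h h' => hbt a (by omega) (by omega), fun k h h' => ?_⟩⟩
    rw [hBk k h h']
    change midRow c t (k - 1 + e) = _
    congr 1; ring
  · obtain ⟨c', w, hrow, hcase'⟩ := hM c t (fun K => y (K - e)) (lo1 + e) (hi1 + e) (by omega)
      (fun k h h' => by
        have := hw (k - e) (by omega) (by omega)
        have e1 : k - e + 1 = k + 1 - e := by ring
        rw [e1] at this
        exact this)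
      (fun k h h' => by
        have := hv (k - e) (by omega) (by omega)
        rw [hxe (k - e) (by omega) (by omega)] at this
        have e1 : k - e + e = k := by ring
        rw [e1] at this
        exact this)
      (fun k h h' => by
        have := hN (k - e) (by omega) (by omega)
        have e1 : k - e - 1 + e = k - 1 := by ring
        have e2 : k - e + 1 + e = k + 1 := by ring
        simp only [e1, e2] at this
        exact this)
    have hrow' : ∀ k, lo1 + 9 ≤ k → k ≤ hi1 - 9 → y k = baseRow c' w (k + e) := by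
      intro k h h'
      have := hrow (k + e) (by omega) (by omega)
      have e1 : k + e - e = k := by ring
      simp only [e1] at this
      exact this
    refine ⟨lo1 + 9, hi1 - 9, by omega, by omega, by omega, ?_⟩
    rcases hcase' with hb | ht
    · refine Or.inr (Or.inl ⟨c', e, H, hH.mono (by omega) (by omega) (by omega),
        fun k h h' => ?_⟩)
      rw [hrow' k h h']
      refine baseRow_congr _ _ _ _ ?_
      rw [hb ((k + e) / 3) (by omega) (by omega)]
      exact (hbt ((k + e) / 3) (by omega) (by omega)).1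
    · refine Or.inr (Or.inr ⟨c', e, H, hH.mono le_rfl (by omega) (by omega),
        fun k h h' => ?_⟩)
      rw [hrow' k h h']
      refine baseRow_congr _ _ _ _ ?_
      rw [ht ((k + e) / 3) (by omega) (by omega)]
      exact (hbt ((k + e) / 3) (by omega) (by omega)).2

/-- lengths of the windows -/
def D (T : ℕ) : ℕ → ℕ
  | 0 => P T
  | j + 1 => 3 * D T j + 100

theorem D_ge (T j : ℕ) : P T ≤ D T j := by
  induction j with
  | zero => exact le_rfl
  | succ j ih => simp only [D]; omega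

theorem D_le (T j : ℕ) : D T j + 50 = 3 ^ j * (P T + 50) := by
  induction j with
  | zero => simp [D]
  | succ j ih => simp only [D, pow_succ]; nlinarith

def Inv (T h : ℕ) (lo hi : ℤ) (y : ℤ → Vtx) : Prop :=
  ∃ i, (h = 2 * i ∧ InvB T i lo hi y) ∨ (h = 2 * i + 1 ∧ InvM T i lo hi y)

theorem step (hT : TIGHT_stmt) (hC : CLST_stmt) (hB : CLSB_stmt) (hM : CLSM_stmt)
    (hU : CONFU_stmt) (hD : CONFD_stmt) (hK : KILL_stmt) (T h : ℕ) (hh : h ≤ 2 * T)
    (lo hi : ℤ) (L : ℕ) (hL : P T ≤ L) (hlen : lo + 3 * L + 100 ≤ hi) (x y : ℤ → Vtx)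
    (hx : Inv T h lo hi x)
    (hw : ∀ k, lo ≤ k → k < hi → G.Adj (y k) (y (k + 1)))
    (hv : ∀ k, lo ≤ k → k ≤ hi → G.Adj (x k) (y k)) :
    ∃ (h' : ℕ) (lo' hi' : ℤ), h' ≤ h + 1 ∧ lo ≤ lo' ∧ hi' ≤ hi ∧ lo' + L ≤ hi' ∧
      Inv T h' lo' hi' y := by
  obtain ⟨i, ⟨hi1, hx1⟩ | ⟨hi1, hx1⟩⟩ := hx
  · obtain ⟨lo', hi', h1, h2, h3, h4 | h4 | ⟨i', h5, h4⟩⟩ :=
      stepB hT hC hB hU hD hK T i (by omega) lo hi L hL hlen x y hx1 hw hv
    · exact ⟨2 * i, lo', hi', by omega, h1, h2, h3, i, Or.inl ⟨rfl, h4⟩⟩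
    · exact ⟨2 * i + 1, lo', hi', by omega, h1, h2, h3, i, Or.inr ⟨rfl, h4⟩⟩
    · exact ⟨2 * i' + 1, lo', hi', by omega, h1, h2, h3, i', Or.inr ⟨rfl, h4⟩⟩
  · obtain ⟨lo', hi', h1, h2, h3, h4 | h4 | h4⟩ :=
      stepM hT hC hM T i lo hi L hlen x y hx1 hw hv
    · exact ⟨2 * i + 1, lo', hi', by omega, h1, h2, h3, i, Or.inr ⟨rfl, h4⟩⟩
    · exact ⟨2 * i, lo', hi', by omega, h1, h2, h3, i, Or.inl ⟨rfl, h4⟩⟩
    · exact ⟨2 * (i + 1), lo', hi', by omega, h1, h2, h3, i + 1, Or.inl ⟨rfl, h4⟩⟩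

theorem bound (hK : KILL_stmt) (T m n : ℕ) (hm : m ≤ 2 * T) (hn : 2 ^ (2 ^ (T + 5)) ≤ n) :
    D T m + 1 ≤ n := by
  have hlen := hK.1 T
  have h1 : D T m ≤ 3 ^ (2 * T) * (P T + 50) := by
    have := D_le T m
    have h2 : 3 ^ m * (P T + 50) ≤ 3 ^ (2 * T) * (P T + 50) :=
      Nat.mul_le_mul_right _ (Nat.pow_le_pow_right (by norm_num) hm)
    omega
  have h3 : 3 ^ (2 * T) ≤ 2 ^ (4 * T) := by
    calc 3 ^ (2 * T) = 9 ^ T := by rw [pow_mul]; norm_num
      _ ≤ 16 ^ T := Nat.pow_le_pow_left (by norm_num) T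
      _ = 2 ^ (4 * T) := by rw [pow_mul]; norm_num
  have hT2 : T < 2 ^ T := Nat.lt_two_pow_self
  have h4 : P T + 50 + 1 ≤ 2 ^ (T + 11 + 2 ^ T) := by
    unfold P
    rw [hlen]
    set Q := 2 ^ (2 ^ T) with hQ
    have hQ1 : 1 ≤ Q := Nat.one_le_two_pow
    have e : 2 ^ (T + 11 + 2 ^ T) = 2048 * 2 ^ T * Q := by
      rw [pow_add, pow_add, ← hQ]; ring
    rw [e]
    have h5 : 2 * (Q - 1) + 4 ≤ 4 * Q := by omega
    have h6 : 3 * (T + 3) * (2 * (Q - 1) + 4) ≤ 3 * (T + 3) * (4 * Q) :=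
      Nat.mul_le_mul_left _ h5
    have h7 : T + 3 ≤ 4 * 2 ^ T := by omega
    have h8 : 3 * (T + 3) * (4 * Q) ≤ 3 * (4 * 2 ^ T) * (4 * Q) :=
      Nat.mul_le_mul_right _ (Nat.mul_le_mul_left _ h7)
    have h9 : 1 ≤ 2 ^ T * Q := Nat.mul_pos (by positivity) hQ1
    nlinarith
  have h10 : 3 ^ (2 * T) * (P T + 50) + 1 ≤ 2 ^ (4 * T) * 2 ^ (T + 11 + 2 ^ T) := by
    have h11 : 3 ^ (2 * T) * (P T + 50) + 1 ≤ 3 ^ (2 * T) * (P T + 50 + 1) := by
      have : 1 ≤ 3 ^ (2 * T) := Nat.one_le_pow _ _ (by norm_num)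
      nlinarith
    exact h11.trans (Nat.mul_le_mul h3 h4)
  have h12 : 2 ^ (4 * T) * 2 ^ (T + 11 + 2 ^ T) ≤ 2 ^ (2 ^ (T + 5)) := by
    rw [← pow_add]
    apply Nat.pow_le_pow_right (by norm_num)
    rw [pow_add 2 T 5]
    omega
  omega

end Asml

open Asml in
theorem ASML : ASML_stmt := by
  intro hT hC hB hM hU hD hK T n hn
  refine ⟨baseRow false (conf (T + 3) (klBits T) (fun _ _ => .E) 0), baseRow_walk _ _, ?_⟩
  intro m hm y hy0 hyh hyv hym
  have hbd := bound hK T m n hm hn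
  have key : ∀ t : ℕ, t ≤ m → ∃ (h : ℕ) (lo hi : ℤ), h ≤ t ∧ 0 ≤ lo ∧ hi < n ∧
      lo + D T (m - t) ≤ hi ∧ Inv T h lo hi (y t) := by
    intro t
    induction t with
    | zero =>
      intro _
      refine ⟨0, 0, n - 1, le_rfl, le_rfl, by omega, ?_, 0, Or.inl ⟨rfl, false, 0,
        fun _ _ => .E, ⟨fun _ => rfl, fun s hs => absurd hs (by omega)⟩, fun k h h' => ?_⟩⟩
      · have : ((D T m + 1 : ℕ) : ℤ) ≤ n := by exact_mod_cast hbd
        push_cast at this
        simp only [Nat.sub_zero]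
        omega
      · rw [hy0 k h (by omega), add_zero]
    | succ t ih =>
      intro htm
      obtain ⟨h, lo, hi, h1, h2, h3, h4, h5⟩ := ih (by omega)
      have e : m - t = (m - (t + 1)) + 1 := by omega
      rw [e] at h4
      simp only [D] at h4
      push_cast at h4
      obtain ⟨h', lo', hi', g1, g2, g3, g4, g5⟩ := step hT hC hB hM hU hD hK T h (by omega) lo hi
        (D T (m - (t + 1))) (D_ge T _) (by omega) (y t) (y (t + 1)) h5
        (fun k hk hk' => hyh (t + 1) htm k (by omega) (by omega))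
        (fun k hk hk' => hyv t (by omega) k (by omega) (by omega))
      exact ⟨h', lo', hi', by omega, by omega, by omega, g4, g5⟩
  obtain ⟨h, lo, hi, h1, h2, h3, h4, i, ⟨-, c, e, H, -, h5⟩ | ⟨-, c, e, H, t, -, -, -, h5⟩⟩ :=
    key m le_rfl
  · have h6 := hym lo h2 (by omega)
    rw [h5 lo le_rfl (by omega)] at h6
    exact baseRow_ne_alt _ _ _ _ h6
  · have h6 := hym lo h2 (by omega)
    rw [h5 lo le_rfl (by omega)] at h6
    exact midRow_ne_alt _ _ _ _ h6

end Pool.Agent.H26.Hom
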