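import Mathlib
import Pool.Agent.H26.Hom.Stmts

namespace Pool.Agent.H26.Hom

namespace Asmu

theorem gadj (u v : Vtx) : G.Adj u v ↔ adj u v := Iff.rfl

def own : Vtx → Vtx
  | .del _ => .om 0
  | .eb c _ _ => .hb c
  | .em c _ j => .hm c (.inr j)
  | .om i => if i = 2 then .om 3 else .om 2
  | _ => .om 2

def g2 (v : Vtx) : Vtx := if v = .om 2 then .om 3 else .om 2

theorem own_hub (v : Vtx) : isHub (own v) = true := by
  cases v <;> simp only [own] <;> first | rfl | (split <;> rfl)

theorem own_adj (v : Vtx) : G.Adj (own v) v := by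
  rw [gadj]
  cases v with
  | om i =>
    simp only [own]
    split
    · rename_i h; subst h; simp [adj]
    · rename_i h; simp only [adj]; exact fun h' => h h'.symm
  | _ => simp [own, adj, symOK]

theorem g2_hub (v : Vtx) : isHub (g2 v) = true := by unfold g2; split <;> rfl

theorem g2_adj (v : Vtx) (hv : isHub v = true) : G.Adj (g2 v) v := by
  rw [gadj]
  unfold g2
  split
  · rename_i h; subst h; simp [adj]
  · rename_i h
    cases v with
    | om i => simp only [adj]; intro h'; exact h (by rw [h'])
    | hb c => simp [adj]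
    | hm c σ => simp [adj]
    | _ => simp [isHub] at hv

theorem alt_adj (k : ℤ) : G.Adj (alt k) (alt (k + 1)) := by
  rw [gadj]
  unfold alt par
  rcases Int.emod_two_eq_zero_or_one k with h | h
  · have : (k + 1) % 2 = 1 := by omega
    simp [h, this, adj]
  · have : (k + 1) % 2 = 0 := by omega
    simp [h, this, adj]

theorem alt_hub (k : ℤ) : isHub (alt k) = true := rfl

theorem g2_alt (v : Vtx) (k : ℤ) : G.Adj (g2 v) (alt k) := by
  rw [gadj]
  unfold g2 alt par
  split <;> split <;> simp [adj]

/-- the extended row -/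
def ext (p : ℤ → Vtx) (n : ℕ) (k : ℤ) : Vtx :=
  if 0 ≤ k ∧ k < n then p k
  else if k = -1 then own (p 0)
  else if k = -2 then g2 (own (p 0))
  else if k = n then own (p (n - 1))
  else if k = n + 1 then g2 (own (p (n - 1)))
  else alt k

theorem ext_walk (p : ℤ → Vtx) (n : ℕ) (hn : 1 ≤ n)
    (hp : ∀ k : ℤ, 0 ≤ k → k + 1 < n → G.Adj (p k) (p (k + 1))) : IsWalk G (ext p n) := by
  intro k
  have e1 : ∀ k : ℤ, 0 ≤ k → k < n → ext p n k = p k := fun k h h' => by simp [ext, h, h']
  have e2 : ext p n (-1) = own (p 0) := by simp [ext]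
  have e3 : ext p n (-2) = g2 (own (p 0)) := by simp [ext]
  have e4 : ext p n n = own (p (n - 1)) := by
    have : (n : ℤ) ≠ -1 := by omega
    have : (n : ℤ) ≠ -2 := by omega
    simp [ext, *]
  have e5 : ext p n (n + 1) = g2 (own (p (n - 1))) := by
    have h1 : ¬ (0 ≤ (n : ℤ) + 1 ∧ (n : ℤ) + 1 < n) := by omega
    have h2 : (n : ℤ) + 1 ≠ -1 := by omega
    have h3 : (n : ℤ) + 1 ≠ -2 := by omega
    have h4 : (n : ℤ) + 1 ≠ n := by omega
    rw [ext, if_neg h1, if_neg h2, if_neg h3, if_neg h4, if_pos rfl]
  have e6 : ∀ k : ℤ, k ≤ -3 → ext p n k = alt k := fun k h => by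
    have h1 : ¬ (0 ≤ k ∧ k < n) := by omega
    have h2 : k ≠ -1 := by omega
    have h3 : k ≠ -2 := by omega
    have h4 : k ≠ n := by omega
    have h5 : k ≠ n + 1 := by omega
    rw [ext, if_neg h1, if_neg h2, if_neg h3, if_neg h4, if_neg h5]
  have e7 : ∀ k : ℤ, (n : ℤ) + 2 ≤ k → ext p n k = alt k := fun k h => by
    have h1 : ¬ (0 ≤ k ∧ k < n) := by omega
    have h2 : k ≠ -1 := by omega
    have h3 : k ≠ -2 := by omega
    have h4 : k ≠ n := by omega
    have h5 : k ≠ n + 1 := by omega
    rw [ext, if_neg h1, if_neg h2, if_neg h3, if_neg h4, if_neg h5]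
  rcases lt_trichotomy k (-3) with h | h | h
  · rw [e6 k (by omega), e6 (k + 1) (by omega)]; exact alt_adj k
  · subst h
    rw [e6 (-3) (by omega), show (-3 : ℤ) + 1 = -2 by norm_num, e3]
    exact (g2_alt _ _).symm
  · rcases lt_trichotomy k (-1) with h' | h' | h'
    · obtain rfl : k = -2 := by omega
      rw [e3, show (-2 : ℤ) + 1 = -1 by norm_num, e2]
      exact g2_adj _ (own_hub _)
    · subst h'
      rw [e2, show (-1 : ℤ) + 1 = 0 by norm_num, e1 0 le_rfl (by omega)]
      exact own_adj _
    · rcases lt_trichotomy (k + 1) n with h'' | h'' | h''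
      · rw [e1 k (by omega) (by omega), e1 (k + 1) (by omega) h'']
        exact hp k (by omega) h''
      · rw [e1 k (by omega) (by omega), h'', e4]
        have : (n : ℤ) - 1 = k := by omega
        rw [this]
        exact (own_adj _).symm
      · rcases lt_trichotomy k (n + 1) with h3 | h3 | h3
        · obtain rfl : k = n := by omega
          rw [e4, e5]
          exact (g2_adj _ (own_hub _)).symm
        · subst h3
          rw [e5, e7 _ (by omega)]
          exact g2_alt _ _
        · rw [e7 k (by omega), e7 (k + 1) (by omega)]; exact alt_adj k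

theorem ext_hub (p : ℤ → Vtx) (n : ℕ) (k : ℤ) (hk : isHub (ext p n k) = false) :
    0 ≤ k ∧ k < n := by
  by_contra h
  rw [ext, if_neg h] at hk
  revert hk
  split
  · simp [own_hub]
  · split
    · simp [g2_hub]
    · split
      · simp [own_hub]
      · split
        · simp [g2_hub]
        · simp [alt_hub]

end Asmu

open Asmu in
theorem ASMU : ASMU_stmt := by
  intro hSEL hNORM hLAB hLABEL T n hn p hp
  rcases Nat.eq_zero_or_pos n with h0 | h0
  · subst h0
    refine ⟨fun _ => p, fun k _ _ => rfl, ?_, ?_, ?_⟩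
    · intro t k h1 h2; exfalso; push_cast at h2; omega
    · intro t k h1 h2; exfalso; push_cast at h2; omega
    · intro k h1 h2; exfalso; push_cast at h2; omega
  obtain ⟨y₁, y₂, y₃, r, w1, w2, w3, wr, v1, v2, v3, v4, hnice, hkeep⟩ :=
    hNORM (ext p n) (ext_walk p n h0 hp) ⟨n + 1, fun k hk => by
      by_contra h
      have h' : isHub (ext p n k) = false := by simpa using h
      obtain ⟨h1, h2⟩ := ext_hub p n k h'
      rw [abs_of_nonneg h1] at hk
      omega⟩
  obtain ⟨lab, hl1, hl2, hl3⟩ := hLABEL hSEL T r wr hnice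
    ⟨Finset.Ico (0 : ℤ) n, by simpa using hn, fun k hk => by
      have : isHub (ext p n k) = false := by
        by_contra h
        have h' : isHub (ext p n k) = true := by simpa using h
        rw [hkeep k h'] at hk
        exact h hk
      simpa using ext_hub p n k this⟩
  obtain ⟨L1, L2, L3, L4⟩ := hLAB
  let y : ℕ → ℤ → Vtx := fun t => match t with
    | 0 => ext p n
    | 1 => y₁
    | 2 => y₂
    | 3 => y₃
    | t + 4 => fun k => (lab k).col T k t
  have y4 : y 4 = r := by
    funext k
    change (lab k).col T k 0 = r k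
    rw [L4, hl1]
  have hw : ∀ t, IsWalk G (y t) := by
    intro t
    match t with
    | 0 => exact ext_walk p n h0 hp
    | 1 => exact w1
    | 2 => exact w2
    | 3 => exact w3
    | t + 4 =>
      intro k
      exact L2 T (lab k) (lab (k + 1)) k t (hl2 k) (hl2 (k + 1)) (hl3 k)
  have hv : ∀ t, VAdj G (y t) (y (t + 1)) := by
    intro t
    match t with
    | 0 => exact v1
    | 1 => exact v2
    | 2 => exact v3
    | 3 => 
      change VAdj G y₃ (y 4)
      rw [y4]; exact v4
    | t + 4 =>
      intro k
      exact L1 T (lab k) k t (hl2 k)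
  refine ⟨y, ?_, ?_, ?_, ?_⟩
  · intro k h1 h2
    change ext p n k = p k
    simp [ext, h1, h2]
  · intro t k _ _; exact hw t k
  · intro t k _ _; exact hv t k
  · intro k _ _
    change (lab k).col T k (2 * T + 4) = _
    rw [L3 T (lab k) k (2 * T + 4) (by omega)]
    unfold alt
    congr 1
    unfold par
    have : (k + ((2 * T + 4 : ℕ) : ℤ)) % 2 = k % 2 := by push_cast; omega
    rw [this]

end Pool.Agent.H26.Hom
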