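import Mathlib
import Pool.Agent.H26.Hom.Stmts

namespace Pool.Agent.H26.Hom

namespace Clst

theorem tb0 (c : Bool) (x z : Letter) : Tight G (.eb c x true) (.hb c) (.eb c z false) := by
  refine ⟨by simp, ?_⟩
  intro v h1 h2
  change adj _ _ at h1
  change adj _ _ at h2
  cases v <;> simp only [adj] at h1 h2 <;> grind

theorem tb1 (c : Bool) (x : Letter) : Tight G (.hb c) (.eb c x false) (.eb c x true) := by
  refine ⟨by simp, ?_⟩
  intro v h1 h2
  change adj _ _ at h1
  change adj _ _ at h2
  cases v <;> simp only [adj] at h1 h2 <;> grind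

theorem tb2 (c : Bool) (x : Letter) : Tight G (.eb c x false) (.eb c x true) (.hb c) := by
  refine ⟨by simp, ?_⟩
  intro v h1 h2
  change adj _ _ at h1
  change adj _ _ at h2
  cases v <;> simp only [adj] at h1 h2 <;> grind

theorem tm0 (c : Bool) (t t' : Trans) :
    Tight G (.em c t true) (.hm c (.inl t'.src)) (.em c t' false) := by
  refine ⟨by simp, ?_⟩
  intro v h1 h2
  change adj _ _ at h1
  change adj _ _ at h2
  cases v <;> simp only [adj, symOK, vertOK, Trans.side] at h1 h2 <;> grind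

theorem tm1 (c : Bool) (s : Sym) (t : Trans) :
    Tight G (.hm c s) (.em c t false) (.em c t true) := by
  refine ⟨by simp, ?_⟩
  intro v h1 h2
  change adj _ _ at h1
  change adj _ _ at h2
  cases v <;> simp only [adj, symOK, vertOK, Trans.side] at h1 h2 <;> grind

theorem tm2 (c : Bool) (s : Sym) (t : Trans) :
    Tight G (.em c t false) (.em c t true) (.hm c s) := by
  refine ⟨by simp, ?_⟩
  intro v h1 h2
  change adj _ _ at h1
  change adj _ _ at h2
  cases v <;> simp only [adj, symOK, vertOK, Trans.side] at h1 h2 <;> grind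

theorem cases3 (k : ℤ) : ∃ a : ℤ, k = 3 * a ∨ k = 3 * a + 1 ∨ k = 3 * a + 2 :=
  ⟨k / 3, by omega⟩

theorem base0 (c : Bool) (w : ℤ → Letter) (a : ℤ) : baseRow c w (3 * a) = .hb c := by
  have : (3 * a) % 3 = 0 := by omega
  simp [baseRow]

theorem base1 (c : Bool) (w : ℤ → Letter) (a : ℤ) :
    baseRow c w (3 * a + 1) = .eb c (w a) false := by
  have h1 : (3 * a + 1) % 3 = 1 := by omega
  have h2 : (3 * a + 1) / 3 = a := by omega
  simp [baseRow, h1, h2]

theorem base2 (c : Bool) (w : ℤ → Letter) (a : ℤ) :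
    baseRow c w (3 * a + 2) = .eb c (w a) true := by
  have h1 : (3 * a + 2) % 3 = 2 := by omega
  have h2 : (3 * a + 2) / 3 = a := by omega
  simp [baseRow, h1, h2]

theorem mid0 (c : Bool) (t : ℤ → Trans) (a : ℤ) :
    midRow c t (3 * a) = .hm c (.inl (t a).src) := by
  have h1 : (3 * a) % 3 = 0 := by omega
  have h2 : (3 * a) / 3 = a := by omega
  simp [midRow]

theorem mid1 (c : Bool) (t : ℤ → Trans) (a : ℤ) :
    midRow c t (3 * a + 1) = .em c (t a) false := by
  have h1 : (3 * a + 1) % 3 = 1 := by omega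
  have h2 : (3 * a + 1) / 3 = a := by omega
  simp [midRow, h1, h2]

theorem mid2 (c : Bool) (t : ℤ → Trans) (a : ℤ) :
    midRow c t (3 * a + 2) = .em c (t a) true := by
  have h1 : (3 * a + 2) % 3 = 2 := by omega
  have h2 : (3 * a + 2) / 3 = a := by omega
  simp [midRow, h1, h2]

end Clst

open Clst in
theorem CLST : CLST_stmt := by
  constructor
  · intro c w k
    obtain ⟨a, rfl | rfl | rfl⟩ := cases3 k
    · rw [show 3 * a - 1 = 3 * (a - 1) + 2 by ring, base0, base1, base2]
      exact tb0 _ _ _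
    · rw [show 3 * a + 1 - 1 = 3 * a by ring, show 3 * a + 1 + 1 = 3 * a + 2 by ring, base0,
        base1, base2]
      exact tb1 _ _
    · rw [show 3 * a + 2 - 1 = 3 * a + 1 by ring, show 3 * a + 2 + 1 = 3 * (a + 1) by ring,
        base0, base1, base2]
      exact tb2 _ _
  · intro c t k
    obtain ⟨a, rfl | rfl | rfl⟩ := cases3 k
    · rw [show 3 * a - 1 = 3 * (a - 1) + 2 by ring, mid0, mid1, mid2]
      exact tm0 _ _ _
    · rw [show 3 * a + 1 - 1 = 3 * a by ring, show 3 * a + 1 + 1 = 3 * a + 2 by ring, mid0,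
        mid1, mid2]
      exact tm1 _ _ _
    · rw [show 3 * a + 2 - 1 = 3 * a + 1 by ring, show 3 * a + 2 + 1 = 3 * (a + 1) by ring,
        mid0, mid1, mid2]
      exact tm2 _ _ _

end Pool.Agent.H26.Hom
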