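import Mathlib
import Pool.Agent.H26.Hom.Stmts
import Pool.Agent.H26.Hom.CLST

namespace Pool.Agent.H26.Hom

namespace Clsb

open Clst

/-- the two ends above a letter, when nothing is shifted -/
theorem letter (c : Bool) (x : Letter) (u v : Vtx) (h1 : G.Adj (.eb c x false) u)
    (h2 : G.Adj (.eb c x true) v) (h3 : G.Adj u v) (n1 : u ≠ .hb c) (n2 : u ≠ .eb c x true)
    (n3 : v ≠ .eb c x false) (n4 : v ≠ .hb c) :
    (u = .del false ∧ v = .del true ∧ isCompE x = false) ∨
      ∃ (c' : Bool) (t : Trans), u = .em c' t false ∧ v = .em c' t true ∧ vertOK c x c' t := by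
  change adj _ _ at h1
  change adj _ _ at h2
  change adj _ _ at h3
  cases u with
  | del j =>
    simp only [adj] at h1
    cases v <;> simp only [adj] at h2 h3 <;> grind
  | hb c' => simp only [adj] at h1; grind
  | eb c' x' j => simp only [adj] at h1; grind
  | em c' t j =>
    simp only [adj] at h1
    cases v <;> simp only [adj] at h2 h3 <;> grind
  | _ => simp [adj] at h1

/-- the hub between two letters -/
theorem hub (c : Bool) (u v w : Vtx) (h : G.Adj (.hb c) v) (h1 : G.Adj u v) (h2 : G.Adj v w)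
    (hu : u = .del true ∨ ∃ c' t, u = .em c' t true)
    (hw : w = .del false ∨ ∃ c' t, w = .em c' t false) :
    (u = .del true ∧ w = .del false) ∨
      ∃ (c' : Bool) (t t' : Trans), u = .em c' t true ∧ w = .em c' t' false ∧ t.tgt = t'.src ∧
        v = .hm c' (.inl t'.src) := by
  change adj _ _ at h
  change adj _ _ at h1
  change adj _ _ at h2
  rcases hu with rfl | ⟨c1, t1, rfl⟩ <;> rcases hw with rfl | ⟨c2, t2, rfl⟩
  · left; exact ⟨rfl, rfl⟩
  · cases v <;> simp only [adj] at h h1 h2 <;> grind
  · cases v <;> simp only [adj] at h h1 h2 <;> grind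
  · right
    cases v with
    | hm c' s =>
      simp only [adj, symOK, Trans.side] at h h1 h2
      obtain ⟨e1, h1⟩ := h1
      obtain ⟨e2, h2⟩ := h2
      subst e1; subst e2
      refine ⟨c', t1, t2, rfl, rfl, ?_, ?_⟩ <;> grind
    | _ => simp only [adj] at h h1 h2 <;> grind

end Clsb

open Clst Clsb in
theorem CLSB : CLSB_stmt := by
  intro c w y lo hi hlh hh hv hn
  -- the letters
  have L : ∀ a : ℤ, lo ≤ 3 * a → 3 * a + 2 ≤ hi →
      (y (3 * a + 1) = .del false ∧ y (3 * a + 2) = .del true ∧ isCompE (w a) = false) ∨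
      ∃ (c' : Bool) (t : Trans), y (3 * a + 1) = .em c' t false ∧ y (3 * a + 2) = .em c' t true ∧
        vertOK c (w a) c' t := by
    intro a h1 h2
    have e1 := hv (3 * a + 1) (by omega) (by omega)
    have e2 := hv (3 * a + 2) (by omega) (by omega)
    have e3 := hh (3 * a + 1) (by omega) (by omega)
    have n1 := hn (3 * a + 1) (by omega) (by omega)
    have n2 := hn (3 * a + 2) (by omega) (by omega)
    rw [show 3 * a + 1 - 1 = 3 * a by ring, show 3 * a + 1 + 1 = 3 * a + 2 by ring, base0,
      base2] at n1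
    rw [show 3 * a + 2 - 1 = 3 * a + 1 by ring, show 3 * a + 2 + 1 = 3 * (a + 1) by ring, base0,
      base1] at n2
    rw [base1] at e1
    rw [base2] at e2
    rw [show 3 * a + 1 + 1 = 3 * a + 2 by ring] at e3
    exact letter c (w a) _ _ e1 e2 e3 n1.1 n1.2 n2.1 n2.2
  -- the hubs
  have H : ∀ a : ℤ, lo ≤ 3 * a → 3 * (a + 1) + 2 ≤ hi →
      (y (3 * a + 2) = .del true ∧ y (3 * (a + 1) + 1) = .del false) ∨
      ∃ (c' : Bool) (t t' : Trans), y (3 * a + 2) = .em c' t true ∧
        y (3 * (a + 1) + 1) = .em c' t' false ∧ t.tgt = t'.src ∧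
        y (3 * (a + 1)) = .hm c' (.inl t'.src) := by
    intro a h1 h2
    have e0 := hv (3 * (a + 1)) (by omega) (by omega)
    rw [base0] at e0
    have e1 := hh (3 * a + 2) (by omega) (by omega)
    rw [show 3 * a + 2 + 1 = 3 * (a + 1) by ring] at e1
    have e2 := hh (3 * (a + 1)) (by omega) (by omega)
    refine hub c _ _ _ e0 e1 e2 ?_ ?_
    · rcases L a h1 (by omega) with h | ⟨c', t, h⟩
      · left; exact h.2.1
      · right; exact ⟨c', t, h.2.1⟩
    · rcases L (a + 1) (by omega) (by omega) with h | ⟨c', t, h⟩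
      · left; exact h.1
      · right; exact ⟨c', t, h.1⟩
  -- the first letter
  obtain ⟨a0, ha0, ha1⟩ : ∃ a0 : ℤ, lo ≤ 3 * a0 ∧ 3 * a0 ≤ lo + 2 := ⟨(lo + 2) / 3, by omega, by omega⟩
  rcases L a0 ha0 (by omega) with h0 | ⟨c', t0, h0⟩
  · left
    have key : ∀ n : ℕ, 3 * (a0 + n) + 2 ≤ hi → y (3 * (a0 + n) + 1) = .del false ∧
        y (3 * (a0 + n) + 2) = .del true ∧ isCompE (w (a0 + n)) = false := by
      intro n
      induction n with
      | zero => intro _; simpa using h0
      | succ n ih =>
        intro hn'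
        push_cast at hn' ⊢
        rw [← add_assoc] at hn' ⊢
        have ih' := ih (by omega)
        rcases H (a0 + n) (by omega) (by omega) with h | ⟨c', t, t', h, _⟩
        · rcases L (a0 + n + 1) (by omega) (by omega) with h' | ⟨c', t, h', _⟩
          · exact h'
          · rw [h.2] at h'; cases h'
        · rw [ih'.2.1] at h; cases h
    intro a h1 h2
    have := key (a - a0).toNat
    have e : a0 + ((a - a0).toNat : ℤ) = a := by omega
    rw [e] at this
    exact (this h2).2.2
  · right
    have key : ∀ n : ℕ, 3 * (a0 + n) + 2 ≤ hi → ∃ t : Trans,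
        y (3 * (a0 + n) + 1) = .em c' t false ∧
        y (3 * (a0 + n) + 2) = .em c' t true ∧ vertOK c (w (a0 + n)) c' t := by
      intro n
      induction n with
      | zero => intro _; exact ⟨t0, by simpa using h0⟩
      | succ n ih =>
        intro hn'
        push_cast at hn' ⊢
        rw [← add_assoc] at hn' ⊢
        obtain ⟨t, ih1, ih2, ih3⟩ := ih (by omega)
        rcases H (a0 + n) (by omega) (by omega) with h | ⟨c1, t1, t', h, h', _⟩
        · rw [ih2] at h; cases h.1
        · rcases L (a0 + n + 1) (by omega) (by omega) with h2 | ⟨c2, t2, h2, h3, h4⟩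
          · rw [h'] at h2; cases h2.1
          · rw [ih2] at h
            rw [h'] at h2
            simp only [Vtx.em.injEq] at h h2
            obtain ⟨rfl, _⟩ := h
            obtain ⟨rfl, rfl, _⟩ := h2
            exact ⟨t', h', h3, h4⟩
    have key' : ∀ a : ℤ, ∃ t : Trans, lo ≤ 3 * a → 3 * a + 2 ≤ hi →
        y (3 * a + 1) = .em c' t false ∧
        y (3 * a + 2) = .em c' t true ∧ vertOK c (w a) c' t := by
      intro a
      by_cases h : lo ≤ 3 * a ∧ 3 * a + 2 ≤ hi
      · have := key (a - a0).toNat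
        have e : a0 + ((a - a0).toNat : ℤ) = a := by omega
        rw [e] at this
        obtain ⟨t, ht⟩ := this h.2
        exact ⟨t, fun _ _ => ht⟩
      · exact ⟨t0, fun h1 h2 => absurd ⟨h1, h2⟩ h⟩
    choose t ht using key'
    have hub' : ∀ a : ℤ, lo ≤ 3 * a → 3 * (a + 1) + 2 ≤ hi →
        (t a).tgt = (t (a + 1)).src ∧ y (3 * (a + 1)) = .hm c' (.inl (t (a + 1)).src) := by
      intro a h1 h2
      rcases H a h1 h2 with h | ⟨c1, t1, t2, h3, h4, h5, h6⟩
      · rw [(ht a h1 (by omega)).2.1] at h; cases h.1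
      · rw [(ht a h1 (by omega)).2.1] at h3
        rw [(ht (a + 1) (by omega) h2).1] at h4
        simp only [Vtx.em.injEq] at h3 h4
        obtain ⟨rfl, rfl, _⟩ := h3
        obtain ⟨_, rfl, _⟩ := h4
        exact ⟨h5, h6⟩
    refine ⟨c', t, fun a h1 h2 => (hub' a h1 (by omega)).1, ?_, ?_⟩
    · intro k h1 h2
      obtain ⟨a, rfl | rfl | rfl⟩ := cases3 k
      · have := (hub' (a - 1) (by omega) (by omega)).2
        rw [show a - 1 + 1 = a by ring] at this
        rw [this, mid0]
      · rw [mid1]; exact (ht a (by omega) (by omega)).1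
      · rw [mid2]; exact (ht a (by omega) (by omega)).2.1
    · by_cases hc : c' = c
      · left
        intro a h1 h2
        rcases (ht a h1 h2).2.2 with h | h
        · exact h.2
        · exfalso; rw [hc] at h; cases c <;> simp at h
      · right
        intro a h1 h2
        rcases (ht a h1 h2).2.2 with h | h
        · exact absurd h.1 hc
        · exact h.2

end Pool.Agent.H26.Hom
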