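import Mathlib
import Pool.Agent.H26.Hom.Stmts
import Pool.Agent.H26.Hom.CLST

namespace Pool.Agent.H26.Hom

namespace Clsm

open Clst

/-- the two ends above a transition, when nothing is shifted -/
theorem letter (c : Bool) (t t' : Trans) (u v : Vtx) (h1 : G.Adj (.em c t false) u)
    (h2 : G.Adj (.em c t true) v) (h3 : G.Adj u v) (n1 : u ≠ .hm c (.inl t.src))
    (n2 : u ≠ .em c t true) (n3 : v ≠ .em c t false) (n4 : v ≠ .hm c (.inl t'.src)) :
    ∃ (c' : Bool) (x : Letter), u = .eb c' x false ∧ v = .eb c' x true ∧ vertOK c' x c t := by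
  change adj _ _ at h1
  change adj _ _ at h2
  change adj _ _ at h3
  cases u with
  | hm c' s =>
    simp only [adj] at h1
    cases v <;> simp only [adj] at h2 h3 <;> grind
  | em c' t j => simp only [adj] at h1; grind
  | eb c' x j =>
    simp only [adj] at h1
    cases v <;> simp only [adj] at h2 h3 <;> grind
  | _ => simp [adj] at h1

/-- the hub between two letters -/
theorem hub (v : Vtx) (c' c'' : Bool) (x x' : Letter) (h1 : G.Adj (.eb c' x true) v)
    (h2 : G.Adj v (.eb c'' x' false)) : c' = c'' ∧ v = .hb c' := by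
  change adj _ _ at h1
  change adj _ _ at h2
  cases v <;> simp only [adj] at h1 h2 <;> grind

end Clsm

open Clst Clsm in
theorem CLSM : CLSM_stmt := by
  intro c t y lo hi hlh hh hv hn
  -- the letters
  have L : ∀ a : ℤ, lo ≤ 3 * a → 3 * a + 2 ≤ hi →
      ∃ (c' : Bool) (x : Letter), y (3 * a + 1) = .eb c' x false ∧
        y (3 * a + 2) = .eb c' x true ∧ vertOK c' x c (t a) := by
    intro a h1 h2
    have e1 := hv (3 * a + 1) (by omega) (by omega)
    have e2 := hv (3 * a + 2) (by omega) (by omega)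
    have e3 := hh (3 * a + 1) (by omega) (by omega)
    have n1 := hn (3 * a + 1) (by omega) (by omega)
    have n2 := hn (3 * a + 2) (by omega) (by omega)
    rw [show 3 * a + 1 - 1 = 3 * a by ring, show 3 * a + 1 + 1 = 3 * a + 2 by ring, mid0,
      mid2] at n1
    rw [show 3 * a + 2 - 1 = 3 * a + 1 by ring, show 3 * a + 2 + 1 = 3 * (a + 1) by ring, mid0,
      mid1] at n2
    rw [mid1] at e1
    rw [mid2] at e2
    rw [show 3 * a + 1 + 1 = 3 * a + 2 by ring] at e3
    exact letter c (t a) _ _ _ e1 e2 e3 n1.1 n1.2 n2.1 n2.2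
  -- the first letter
  obtain ⟨a0, ha0, ha1⟩ : ∃ a0 : ℤ, lo ≤ 3 * a0 ∧ 3 * a0 ≤ lo + 2 := ⟨(lo + 2) / 3, by omega, by omega⟩
  obtain ⟨c', x0, h0⟩ := L a0 ha0 (by omega)
  have key : ∀ n : ℕ, 3 * (a0 + n) + 2 ≤ hi → ∃ x : Letter,
      y (3 * (a0 + n) + 1) = .eb c' x false ∧
      y (3 * (a0 + n) + 2) = .eb c' x true ∧ vertOK c' x c (t (a0 + n)) := by
    intro n
    induction n with
    | zero => intro _; exact ⟨x0, by simpa using h0⟩
    | succ n ih =>
      intro hn'
      push_cast at hn' ⊢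
      rw [← add_assoc] at hn' ⊢
      obtain ⟨x, ih1, ih2, ih3⟩ := ih (by omega)
      obtain ⟨c2, x2, h2, h3, h4⟩ := L (a0 + n + 1) (by omega) (by omega)
      have e1 := hh (3 * (a0 + n) + 2) (by omega) (by omega)
      rw [show 3 * (a0 + n) + 2 + 1 = 3 * (a0 + n + 1) by ring, ih2] at e1
      have e2 := hh (3 * (a0 + n + 1)) (by omega) (by omega)
      rw [h2] at e2
      obtain ⟨rfl, _⟩ := hub _ _ _ _ _ e1 e2
      exact ⟨x2, h2, h3, h4⟩
  have key' : ∀ a : ℤ, ∃ x : Letter, lo ≤ 3 * a → 3 * a + 2 ≤ hi →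
      y (3 * a + 1) = .eb c' x false ∧
      y (3 * a + 2) = .eb c' x true ∧ vertOK c' x c (t a) := by
    intro a
    by_cases h : lo ≤ 3 * a ∧ 3 * a + 2 ≤ hi
    · have := key (a - a0).toNat
      have e : a0 + ((a - a0).toNat : ℤ) = a := by omega
      rw [e] at this
      obtain ⟨t, ht⟩ := this h.2
      exact ⟨t, fun _ _ => ht⟩
    · exact ⟨x0, fun h1 h2 => absurd ⟨h1, h2⟩ h⟩
  choose w hw using key'
  refine ⟨c', w, ?_, ?_⟩
  · intro k h1 h2
    obtain ⟨a, rfl | rfl | rfl⟩ := cases3 k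
    · have e1 := hh (3 * (a - 1) + 2) (by omega) (by omega)
      rw [show 3 * (a - 1) + 2 + 1 = 3 * a by ring, (hw (a - 1) (by omega) (by omega)).2.1] at e1
      have e2 := hh (3 * a) (by omega) (by omega)
      rw [(hw a (by omega) (by omega)).1] at e2
      rw [base0]
      exact (hub _ _ _ _ _ e1 e2).2
    · rw [base1]; exact (hw a (by omega) (by omega)).1
    · rw [base2]; exact (hw a (by omega) (by omega)).2.1
  · by_cases hc : c = c'
    · left
      intro a h1 h2
      rcases (hw a h1 h2).2.2 with h | h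
      · exact h.2.symm
      · exfalso; rw [hc] at h; cases c' <;> simp at h
    · right
      intro a h1 h2
      rcases (hw a h1 h2).2.2 with h | h
      · exact absurd h.1 hc
      · exact h.2.symm

end Pool.Agent.H26.Hom
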