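import Mathlib
import Pool.Agent.H26.Hom.Stmts

namespace Pool.Agent.H26.Hom

/-- every vertex is reachable from `om 0` -/
theorem reach0 (v : Vtx) : G.Reachable (.om 0) v := by
  have step : ∀ u v : Vtx, G.Reachable (.om 0) u → adj u v → G.Reachable (.om 0) v :=
    fun u v h h' => h.trans (SimpleGraph.Adj.reachable h')
  have h0 : G.Reachable (.om 0) (.om 0) := SimpleGraph.Reachable.refl _
  have h1 : G.Reachable (.om 0) (.om 1) := step _ _ h0 (by simp [adj])
  have hb : ∀ c, G.Reachable (.om 0) (.hb c) := fun c => step _ _ h0 (by simp [adj])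
  have hm : ∀ c σ, G.Reachable (.om 0) (.hm c σ) := fun c σ => step _ _ h0 (by simp [adj])
  cases v with
  | om i =>
    by_cases hi : i = 0
    · subst hi; exact h0
    · exact step _ _ h0 (by simp [adj]; exact fun h => hi h.symm)
  | del j => exact step _ _ h0 (by simp [adj])
  | hb c => exact hb c
  | hm c σ => exact hm c σ
  | eb c x j => exact step _ _ (hb c) (by simp [adj])
  | em c t j => exact step _ _ (hm c (.inr j)) (by simp [adj, symOK])

theorem CONN : CONN_stmt := by
  unfold CONN_stmt
  have : Nonempty Vtx := ⟨.om 0⟩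
  exact ⟨fun u v => (reach0 u).symm.trans (reach0 v)⟩

end Pool.Agent.H26.Hom
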