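import Pool.Agent.H26.Hom.Stmts

/-!
From the two bounds to the asymptotics of the gap function.
-/

namespace Pool.Agent.H26.Hom

theorem FIN_loglog_le {n : ℕ} (hn : 1 ≤ n) {S : ℕ} (h : n < 2 ^ (2 ^ S)) :
    Real.log (Real.log n) ≤ S := by
  have hn' : (1 : ℝ) ≤ n := by exact_mod_cast hn
  rcases (Real.log_nonneg hn').eq_or_lt with h0 | h0
  · rw [← h0, Real.log_zero]
    positivity
  have h1 : (n : ℝ) ≤ 2 ^ (2 ^ S) := by exact_mod_cast h.le
  have h2 := Real.log_le_log (by linarith) h1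
  rw [Real.log_pow] at h2
  have h3 := Real.log_le_log h0 h2
  have hl2 : 0 < Real.log 2 := Real.log_pos (by norm_num)
  have hl2' : Real.log 2 ≤ 1 := by
    have := Real.log_le_sub_one_of_pos (show (0 : ℝ) < 2 by norm_num)
    linarith
  push_cast at h3
  rw [Real.log_mul (by positivity) hl2.ne', Real.log_pow] at h3
  have h4 : Real.log (Real.log 2) ≤ 0 := Real.log_nonpos hl2.le hl2'
  have h5 : (S : ℝ) * Real.log 2 ≤ S * 1 := mul_le_mul_of_nonneg_left hl2' (by positivity)
  linarith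

theorem FIN_loglog_ge {n : ℕ} (hn : 3 ≤ n) {T : ℕ} (h : 2 ^ (2 ^ T) < n + 3) :
    (T : ℝ) ≤ 2 * Real.log (Real.log n) + 4 := by
  have hn' : (3 : ℝ) ≤ n := by exact_mod_cast hn
  have hl2 : 1 / 2 ≤ Real.log 2 := by
    have := Real.log_two_gt_d9
    linarith
  have h1 : ((2 : ℝ)) ^ (2 ^ T) ≤ (n : ℝ) ^ 2 := by
    have h2 : 2 ^ (2 ^ T) ≤ n ^ 2 := by nlinarith
    exact_mod_cast h2
  have h2 := Real.log_le_log (by positivity) h1
  rw [Real.log_pow, Real.log_pow] at h2
  push_cast at h2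
  have he : Real.exp 1 ≤ n := (Real.exp_one_lt_d9.le.trans (by norm_num)).trans hn'
  have hlog1 : 1 ≤ Real.log n := by
    rw [Real.le_log_iff_exp_le (by linarith)]
    exact he
  have h3 : (2 : ℝ) ^ T ≤ 4 * Real.log n := by
    have h4 : (2 : ℝ) ^ T * (1 / 2) ≤ 2 ^ T * Real.log 2 :=
      mul_le_mul_of_nonneg_left hl2 (by positivity)
    linarith
  have h4 := Real.log_le_log (by positivity) h3
  rw [Real.log_pow, Real.log_mul (by norm_num) (by linarith)] at h4
  have h5 : Real.log 4 = 2 * Real.log 2 := by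
    rw [show (4 : ℝ) = 2 ^ 2 by norm_num, Real.log_pow]
    norm_num
  have h6 : Real.log 2 ≤ 1 := by
    have := Real.log_le_sub_one_of_pos (show (0 : ℝ) < 2 by norm_num)
    linarith
  have h7 : 0 ≤ Real.log (Real.log n) := Real.log_nonneg hlog1
  rw [h5] at h4
  have h8 : (T : ℝ) * (1 / 2) ≤ T * Real.log 2 := mul_le_mul_of_nonneg_left hl2 (by positivity)
  linarith

theorem FIN : FIN_stmt := by
  intro V G hU hL
  have hbig : ∀ n : ℕ, ∃ T : ℕ, n + 3 ≤ 2 ^ (2 ^ T) := fun n => by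
    refine ⟨n + 3, ?_⟩
    have h1 : n + 3 < 2 ^ (n + 3) := Nat.lt_two_pow_self
    have h2 : 2 ^ (n + 3) < 2 ^ (2 ^ (n + 3)) := Nat.lt_two_pow_self
    omega
  have hU' : ∀ T n : ℕ, 1 ≤ n → n + 3 ≤ 2 ^ (2 ^ T) → GluesAt G 1 n (4 * T + 20) := by
    intro T n hn h
    refine hU T n hn ?_
    unfold nT
    omega
  -- the phase
  have hset : (1 : ℕ) ∈ {k : ℕ | 1 ≤ k ∧ ∃ f : ℕ → ℕ, PhasedGluing G f k} := by
    refine ⟨le_rfl, fun n => 4 * (hbig n).choose + 20, fun n hn => ?_⟩
    exact hU' _ n hn (hbig n).choose_spec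
  have hph : phase G = 1 := by
    refine le_antisymm (Nat.sInf_le hset) ?_
    exact (Nat.sInf_mem ⟨1, hset⟩).1
  have hgle : ∀ T n : ℕ, 1 ≤ n → n + 3 ≤ 2 ^ (2 ^ T) → gap G n ≤ 4 * T + 20 := by
    intro T n hn h
    refine Nat.sInf_le ?_
    show GluesAt G (phase G) n (4 * T + 20)
    rw [hph]
    exact hU' T n hn h
  have hgge : ∀ T n : ℕ, 2 ^ (2 ^ (T + 5)) ≤ n → 2 * T < gap G n := by
    intro T n h
    by_contra hc
    have hn1 : 1 ≤ n := le_trans Nat.one_le_two_pow h
    have hne : {m : ℕ | GluesAt G (phase G) n m}.Nonempty := by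
      refine ⟨4 * (hbig n).choose + 20, ?_⟩
      show GluesAt G (phase G) n _
      rw [hph]
      exact hU' _ n hn1 (hbig n).choose_spec
    have hmem : GluesAt G (phase G) n (gap G n) := Nat.sInf_mem hne
    rw [hph] at hmem
    exact hL T n h (gap G n) (by omega) hmem
  -- no upper bound for log by the gap
  have hnolog : ¬ ∃ c K : ℝ, 0 < c ∧ 0 < K ∧ ∀ n : ℕ, 1 ≤ n →
      Real.log n ≤ c * (gap G n : ℝ) + K := by
    rintro ⟨c, K, hc, hK, h⟩
    obtain ⟨s, hs⟩ := exists_nat_gt (64 * c + 2 * K)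
    have hs0 : 0 < s := by
      rcases Nat.eq_zero_or_pos s with h0 | h0
      · exfalso
        rw [h0] at hs
        push_cast at hs
        linarith
      · exact h0
    have hs1 : (1 : ℝ) ≤ s := by exact_mod_cast hs0
    have hn1 : 1 ≤ 2 ^ (2 ^ (2 * s)) := Nat.one_le_two_pow
    have h1 := h (2 ^ (2 ^ (2 * s))) hn1
    have h2 := hgle (2 * s + 1) (2 ^ (2 ^ (2 * s))) hn1 (by
      have e : 2 ^ (2 ^ (2 * s + 1)) = 2 ^ (2 ^ (2 * s)) * 2 ^ (2 ^ (2 * s)) := by
        rw [← pow_add]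
        congr 1
        rw [pow_succ]
        ring
      have h3 : 4 ≤ 2 ^ (2 ^ (2 * s)) := by
        have h4 : 2 ≤ 2 ^ (2 * s) := by
          calc 2 = 2 ^ 1 := by norm_num
            _ ≤ 2 ^ (2 * s) := Nat.pow_le_pow_right (by norm_num) (by omega)
        calc 4 = 2 ^ 2 := by norm_num
          _ ≤ 2 ^ (2 ^ (2 * s)) := Nat.pow_le_pow_right (by norm_num) h4
      rw [e]
      nlinarith)
    have h2' : (gap G (2 ^ (2 ^ (2 * s))) : ℝ) ≤ 4 * (2 * s + 1) + 20 := by exact_mod_cast h2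
    have h3 : (s : ℝ) ^ 2 ≤ 2 ^ (2 * s) := by
      have h4 : s < 2 ^ s := Nat.lt_two_pow_self
      have h5 : (s : ℝ) ≤ 2 ^ s := by exact_mod_cast h4.le
      calc (s : ℝ) ^ 2 ≤ (2 ^ s) ^ 2 := pow_le_pow_left₀ (by positivity) h5 2
        _ = 2 ^ (2 * s) := by rw [← pow_mul, mul_comm]
    have h4 : Real.log ((2 ^ (2 ^ (2 * s)) : ℕ) : ℝ) = 2 ^ (2 * s) * Real.log 2 := by
      push_cast
      rw [Real.log_pow]
      push_cast
      ring
    rw [h4] at h1
    have hl2 : 1 / 2 ≤ Real.log 2 := by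
      have := Real.log_two_gt_d9
      linarith
    have h5 : (2 : ℝ) ^ (2 * s) * (1 / 2) ≤ 2 ^ (2 * s) * Real.log 2 :=
      mul_le_mul_of_nonneg_left hl2 (by positivity)
    have h6 := mul_le_mul_of_nonneg_left h2' hc.le
    have h7 : (s : ℝ) ^ 2 * (1 / 2) ≤ c * (4 * (2 * s + 1) + 20) + K := by linarith
    nlinarith [mul_pos hc (show (0 : ℝ) < s by linarith), mul_pos hK (show (0 : ℝ) < s by linarith)]
  refine ⟨⟨?_, ?_⟩, ?_, ?_, ?_⟩
  · -- lower bound
    refine ⟨1, 6, by norm_num, by norm_num, fun n hn => ?_⟩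
    have hex : ∃ S : ℕ, n < 2 ^ (2 ^ S) := by
      obtain ⟨T, hT⟩ := hbig n
      exact ⟨T, by omega⟩
    set S := Nat.find hex with hS
    have h1 := Nat.find_spec hex
    rw [← hS] at h1
    have h2 := FIN_loglog_le hn h1
    have h3 : (S : ℝ) ≤ gap G n + 6 := by
      rcases Nat.lt_or_ge S 6 with h | h
      · have : (S : ℝ) ≤ 6 := by exact_mod_cast h.le
        have h4 : (0 : ℝ) ≤ gap G n := Nat.cast_nonneg _
        linarith
      · have h4 : 2 ^ (2 ^ (S - 6 + 5)) ≤ n := by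
          have := Nat.find_min hex (show S - 6 + 5 < S by omega)
          omega
        have h5 := hgge (S - 6) n h4
        have h6 : S ≤ gap G n + 6 := by omega
        exact_mod_cast h6
    linarith
  · -- upper bound
    refine ⟨8, 60, by norm_num, by norm_num, fun n hn => ?_⟩
    rcases Nat.lt_or_ge n 3 with h3 | h3
    · have h1 := hgle 2 n hn (by
        calc n + 3 ≤ 16 := by omega
          _ = 2 ^ (2 ^ 2) := by norm_num)
      have h1' : (gap G n : ℝ) ≤ 28 := by exact_mod_cast h1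
      have h2 : -2 ≤ Real.log (Real.log n) := by
        have hn2 : n = 1 ∨ n = 2 := by omega
        rcases hn2 with h | h
        · rw [h]
          simp
        · rw [h]
          have hl2 : 1 / 2 ≤ Real.log 2 := by
            have := Real.log_two_gt_d9
            linarith
          have h4 := Real.one_sub_inv_le_log_of_pos (show 0 < Real.log 2 by linarith)
          have h5 : (Real.log 2)⁻¹ ≤ 2 := by
            have := inv_anti₀ (by norm_num : (0 : ℝ) < 1 / 2) hl2
            norm_num at this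
            exact this
          push_cast
          linarith
      linarith
    · have hex : ∃ T : ℕ, n + 3 ≤ 2 ^ (2 ^ T) := hbig n
      set T := Nat.find hex with hT
      have h1 := Nat.find_spec hex
      rw [← hT] at h1
      have h2 := hgle T n hn h1
      have hT0 : T ≠ 0 := by
        intro h0
        rw [h0] at h1
        norm_num at h1
        omega
      have h4 : 2 ^ (2 ^ (T - 1)) < n + 3 := by
        have := Nat.find_min hex (show T - 1 < T by omega)
        omega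
      have h5 := FIN_loglog_ge h3 h4
      have h6 : ((T - 1 : ℕ) : ℝ) = T - 1 := by
        rw [Nat.cast_sub (by omega)]
        norm_num
      rw [h6] at h5
      have h2' : (gap G n : ℝ) ≤ 4 * T + 20 := by exact_mod_cast h2
      linarith
  · rintro ⟨-, c, K, hc, hK, h⟩
    obtain ⟨T, hT⟩ := exists_nat_gt (c + K)
    have h1 := h (2 ^ (2 ^ (T + 5))) Nat.one_le_two_pow
    have h2 := hgge T (2 ^ (2 ^ (T + 5))) le_rfl
    have h3 : (T : ℝ) ≤ gap G (2 ^ (2 ^ (T + 5))) := by
      have : T ≤ gap G (2 ^ (2 ^ (T + 5))) := by omega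
      exact_mod_cast this
    simp only [mul_one] at h1
    linarith
  · rintro ⟨h, -⟩
    exact hnolog h
  · rintro ⟨⟨c, K, hc, hK, h⟩, -⟩
    refine hnolog ⟨c, K, hc, hK, fun n hn => ?_⟩
    have h1 := h n hn
    have h2 : (0 : ℝ) < n := by exact_mod_cast hn
    have h3 := Real.log_le_sub_one_of_pos h2
    simp only at h1
    linarith

end Pool.Agent.H26.Hom
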