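import Pool.Agent.H26.Hom.Stmts

set_option autoImplicit false

namespace Pool.Agent.H26.Hom

theorem diag_point {V : Type} {G : SimpleGraph V} {x : ℤ → V} (hx : IsWalk G x) (s : ℤ) :
    IsPoint G (fun u : ℤ × ℤ => x (u.1 + u.2 - s)) := by
  intro u v h
  obtain ⟨u1, u2⟩ := u
  obtain ⟨v1, v2⟩ := v
  simp only at h ⊢
  have key : u1 + u2 - s + 1 = v1 + v2 - s ∨ v1 + v2 - s + 1 = u1 + u2 - s := by
    rcases abs_cases (u1 - v1) with ⟨h1, _⟩ | ⟨h1, _⟩ <;>
      rcases abs_cases (u2 - v2) with ⟨h2, _⟩ | ⟨h2, _⟩ <;> omega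
  rcases key with h | h
  · rw [← h]; exact hx _
  · rw [← h]; exact (hx _).symm

theorem par_walk {V : Type} {G : SimpleGraph V} {o : Fin 4 → V}
    (ho : ∀ i j, i ≠ j → G.Adj (o i) (o j)) : IsWalk G (fun k => o (par k)) := by
  intro k
  apply ho
  unfold par
  split_ifs <;> omega

theorem GAPL : GAPL_stmt := by
  intro V G o ho n m hn hG x hx
  set p : Fin n × Fin n → V :=
    fun a => x (((a.1 : ℕ) : ℤ) + ((a.2 : ℕ) : ℤ) - ((n : ℤ) - 1)) with hp
  set p' : Fin n × Fin n → V := fun a => o (par (((a.1 : ℕ) : ℤ) + ((a.2 : ℕ) : ℤ))) with hp'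
  have hpa : Admissible G p := by
    refine ⟨_, diag_point hx ((n : ℤ) - 1), (0, 0), ?_⟩
    intro a
    simp [hp]
  have hpa' : Admissible G p' := by
    refine ⟨_, diag_point (par_walk ho) 0, (0, 0), ?_⟩
    intro a
    simp [hp']
  have hsep : Separated n m (0, 0) (0, (n : ℤ) - 1 + m) := by
    intro a b
    apply le_max_of_le_right
    have ha := a.2.isLt
    have hb : (0 : ℤ) ≤ ((b.2 : ℕ) : ℤ) := Int.natCast_nonneg _
    simp only
    rw [abs_sub_comm]
    apply le_trans _ (le_abs_self _)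
    omega
  obtain ⟨z, hz, v, hv, hzp, hzp'⟩ := hG p p' hpa hpa' (0, 0) (0, (n : ℤ) - 1 + m) hsep
  have hv0 : v.1 = 0 ∧ v.2 = 0 := by
    have h1 := lt_of_le_of_lt (le_max_left _ _) hv
    have h2 := lt_of_le_of_lt (le_max_right _ _) hv
    constructor
    · have := abs_nonneg v.1
      exact abs_eq_zero.mp (by push_cast at h1; omega)
    · have := abs_nonneg v.2
      exact abs_eq_zero.mp (by push_cast at h2; omega)
  refine ⟨fun t k => z (k, (n : ℤ) - 1 + t), ?_, ?_, ?_, ?_⟩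
  · intro k hk hkn
    have h := hzp (⟨k.toNat, by omega⟩, ⟨n - 1, by omega⟩)
    have e1 : ((k.toNat : ℕ) : ℤ) = k := Int.toNat_of_nonneg hk
    have e2 : ((n - 1 : ℕ) : ℤ) = (n : ℤ) - 1 := by omega
    simp only [hp, e1, e2, zero_add] at h
    simp only [Nat.cast_zero, add_zero]
    rw [h]
    congr 1
    ring
  · intro t _ k _ _
    apply hz
    simp
  · intro t _ k _ _
    apply hz
    push_cast
    have e : (n : ℤ) - 1 + t - ((n : ℤ) - 1 + (t + 1)) = -1 := by ring
    simp only [sub_self, e]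
    norm_num
  · intro k hk hkn
    have h := hzp' (⟨k.toNat, by omega⟩, ⟨0, by omega⟩)
    have e1 : ((k.toNat : ℕ) : ℤ) = k := Int.toNat_of_nonneg hk
    simp only [hp', e1, hv0.1, hv0.2, Nat.cast_zero, add_zero, zero_add] at h
    exact h

end Pool.Agent.H26.Hom
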