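import Pool.Agent.H26.Hom.Stmts

set_option autoImplicit false

namespace Pool.Agent.H26.Hom.Gapu

/-- a bi-infinite stack of rows -/
def Stack {V : Type} (G : SimpleGraph V) (Z : ℤ → ℤ → V) : Prop :=
  (∀ j, IsWalk G (Z j)) ∧ (∀ j, VAdj G (Z j) (Z (j + 1)))

theorem Stack.point {V : Type} {G : SimpleGraph V} {Z : ℤ → ℤ → V} (h : Stack G Z) :
    IsPoint G (fun u : ℤ × ℤ => Z u.2 u.1) := by
  rintro ⟨u1, u2⟩ ⟨v1, v2⟩ huv
  simp only at huv ⊢
  have key : (u2 = v2 ∧ (u1 + 1 = v1 ∨ v1 + 1 = u1)) ∨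
      (u1 = v1 ∧ (u2 + 1 = v2 ∨ v2 + 1 = u2)) := by
    rcases abs_cases (u1 - v1) with ⟨h1, _⟩ | ⟨h1, _⟩ <;>
      rcases abs_cases (u2 - v2) with ⟨h2, _⟩ | ⟨h2, _⟩ <;> omega
  rcases key with ⟨rfl, rfl | rfl⟩ | ⟨rfl, rfl | rfl⟩
  · exact h.1 _ _
  · exact (h.1 _ _).symm
  · exact h.2 _ _
  · exact (h.2 _ _).symm

theorem glue {V : Type} {G : SimpleGraph V} {Z Z' : ℤ → ℤ → V} (hZ : Stack G Z)
    (hZ' : Stack G Z') (c : ℤ) (h : Z c = Z' c) :
    ∃ W, Stack G W ∧ (∀ j ≤ c, W j = Z j) ∧ (∀ j ≥ c, W j = Z' j) := by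
  have a1 : ∀ j ≤ c, (fun j => if j ≤ c then Z j else Z' j) j = Z j := by
    intro j hj; simp [hj]
  have a2 : ∀ j ≥ c, (fun j => if j ≤ c then Z j else Z' j) j = Z' j := by
    intro j hj
    rcases eq_or_lt_of_le hj with h' | h'
    · subst h'; simp [h]
    · simp [not_le.mpr h']
  refine ⟨fun j => if j ≤ c then Z j else Z' j, ⟨?_, ?_⟩, a1, a2⟩
  · intro j
    by_cases hj : j ≤ c
    · rw [a1 j hj]; exact hZ.1 j
    · rw [a2 j (by omega)]; exact hZ'.1 j
  · intro j
    by_cases hj : j + 1 ≤ c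
    · rw [a1 j (by omega), a1 (j + 1) hj]; exact hZ.2 j
    · rw [a2 (j + 1) (by omega)]
      by_cases hj' : j = c
      · rw [a2 j (by omega)]; exact hZ'.2 j
      · rw [a2 j (by omega)]; exact hZ'.2 j

/-- folding of the line onto `[0, n]` -/
def fold (n : ℕ) (k : ℤ) : ℤ :=
  if k % (2 * n) ≤ n then k % (2 * n) else 2 * n - k % (2 * n)

theorem fold_mem {n : ℕ} (hn : 1 ≤ n) (k : ℤ) : 0 ≤ fold n k ∧ fold n k ≤ n := by
  have h1 := Int.emod_nonneg k (show (2 * n : ℤ) ≠ 0 by omega)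
  have h2 := Int.emod_lt_of_pos k (show (0 : ℤ) < 2 * n by omega)
  unfold fold
  split_ifs <;> omega

theorem fold_id {n : ℕ} (hn : 1 ≤ n) (k : ℤ) (h0 : 0 ≤ k) (hk : k ≤ n) : fold n k = k := by
  have : k % (2 * n) = k := Int.emod_eq_of_lt h0 (by omega)
  unfold fold
  rw [this, if_pos hk]

theorem fold_step {n : ℕ} (hn : 1 ≤ n) (k : ℤ) :
    fold n (k + 1) = fold n k + 1 ∨ fold n k = fold n (k + 1) + 1 := by
  have h1 := Int.emod_nonneg k (show (2 * n : ℤ) ≠ 0 by omega)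
  have h2 := Int.emod_lt_of_pos k (show (0 : ℤ) < 2 * n by omega)
  have h3 : (k + 1) % (2 * n) = (k % (2 * n) + 1) % (2 * n) := by
    rw [Int.add_emod (k % (2 * n)), Int.emod_emod_of_dvd _ (dvd_refl _), ← Int.add_emod]
  unfold fold
  rw [h3]
  by_cases hs : k % (2 * n) + 1 = 2 * n
  · rw [hs, Int.emod_self]
    split_ifs <;> omega
  · rw [Int.emod_eq_of_lt (by omega) (by omega)]
    split_ifs <;> omega

theorem par_fold {n : ℕ} (k : ℤ) : par (fold n k) = par k := by
  have h : k % (2 * n) % 2 = k % 2 := Int.emod_emod_of_dvd _ (Dvd.intro _ rfl)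
  unfold par fold
  split_ifs <;> first | rfl | omega

theorem par_succ_ne (k : ℤ) : par k ≠ par (k + 1) := by
  unfold par
  split_ifs <;> omega

theorem fold_walk {V : Type} {G : SimpleGraph V} {n : ℕ} (hn : 1 ≤ n) {r : ℤ → V}
    (hr : ∀ k : ℤ, 0 ≤ k → k + 1 < ((n + 1 : ℕ) : ℤ) → G.Adj (r k) (r (k + 1))) (s : ℤ) :
    IsWalk G (fun i => r (fold n (i - s))) := by
  intro i
  have e : i + 1 - s = (i - s) + 1 := by ring
  change G.Adj (r (fold n (i - s))) (r (fold n (i + 1 - s)))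
  rw [e]
  have m1 := fold_mem hn (i - s)
  have m2 := fold_mem hn (i - s + 1)
  rcases fold_step hn (i - s) with h | h
  · rw [h]; exact hr _ m1.1 (by push_cast; omega)
  · rw [h]; exact (hr _ m2.1 (by push_cast; omega)).symm

/-- vertical case -/
theorem vert {V : Type} {G : SimpleGraph V} {o : Fin 4 → V}
    (ho : ∀ i j, i ≠ j → G.Adj (o i) (o j)) {n R : ℕ} (hn : 1 ≤ n)
    (hC : Collapses G o (n + 1) R) {P P' : ℤ × ℤ → V} (hP : IsPoint G P) (hP' : IsPoint G P')
    (u u' : ℤ × ℤ) (hu : u.2 + ((n : ℤ) - 1) + (2 * R + 4) ≤ u'.2) :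
    ∃ x : ℤ × ℤ → V, IsPoint G x ∧
      (∀ a b : ℤ, 0 ≤ a → a < n → 0 ≤ b → b < n → x (u.1 + a, u.2 + b) = P (u.1 + a, u.2 + b)) ∧
      (∀ a b : ℤ, 0 ≤ a → a < n → 0 ≤ b → b < n →
        x (u'.1 + a, u'.2 + b) = P' (u'.1 + a, u'.2 + b)) := by
  obtain ⟨u1, u2⟩ := u
  obtain ⟨v1, v2⟩ := u'
  simp only at hu ⊢
  set j0 : ℤ := u2 + ((n : ℤ) - 1) with hj0
  -- folded points
  have hfp : ∀ {P : ℤ × ℤ → V}, IsPoint G P → ∀ s : ℤ,
      Stack G (fun j i => P (s + fold n (i - s), j)) := by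
    intro P hP s
    refine ⟨fun j => ?_, fun j i => ?_⟩
    · refine fold_walk hn (r := fun k => P (s + k, j)) ?_ s
      intro k _ _
      apply hP
      have e : s + k - (s + (k + 1)) = -1 := by ring
      simp only [e, sub_self]
      norm_num
    · apply hP
      have e : j - (j + 1) = -1 := by ring
      simp only [e, sub_self]
      norm_num
  obtain ⟨y, y0, yh, yv, yR⟩ := hC (fun k => P (u1 + k, j0)) (by
    intro k _ _
    apply hP
    have e : u1 + k - (u1 + (k + 1)) = -1 := by ring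
    simp only [e, sub_self]
    norm_num)
  obtain ⟨z, z0, zh, zv, zR⟩ := hC (fun k => P' (v1 + k, v2)) (by
    intro k _ _
    apply hP'
    have e : v1 + k - (v1 + (k + 1)) = -1 := by ring
    simp only [e, sub_self]
    norm_num)
  have hys : ∀ (y : ℕ → ℤ → V), (∀ t : ℕ, ∀ k : ℤ, 0 ≤ k → k + 1 < ((n + 1 : ℕ) : ℤ) →
      G.Adj (y t k) (y t (k + 1))) → (∀ t : ℕ, ∀ k : ℤ, 0 ≤ k → k < ((n + 1 : ℕ) : ℤ) →
      G.Adj (y t k) (y (t + 1) k)) → ∀ c s : ℤ,
      Stack G (fun j i => y (j - c).natAbs (fold n (i - s))) := by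
    intro y yh yv c s
    refine ⟨fun j => fold_walk hn (yh _) s, fun j i => ?_⟩
    have m1 := fold_mem hn (i - s)
    change G.Adj (y (j - c).natAbs (fold n (i - s))) (y (j + 1 - c).natAbs (fold n (i - s)))
    rcases le_or_gt c j with h | h
    · have e : (j + 1 - c).natAbs = (j - c).natAbs + 1 := by omega
      rw [e]; exact yv _ _ m1.1 (by push_cast; omega)
    · have e : (j - c).natAbs = (j + 1 - c).natAbs + 1 := by omega
      rw [e]; exact (yv _ _ m1.1 (by push_cast; omega)).symm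
  have S1 := hfp hP u1
  have S2 := hys y yh yv j0 u1
  have S5 := hys z zh zv v2 v1
  have S6 := hfp hP' v1
  -- the middle
  set p2 : ℤ → Fin 4 := fun i => if i % 2 = 0 then 2 else 3 with hp2
  set Z4 : ℤ → ℤ → V := fun j i =>
    if j = v2 - R - 1 then o (p2 i)
    else if j < v2 - R - 1 then o (par (i - u1 + (j - (j0 + R))))
    else o (par (i - v1 + (j - (v2 - R)))) with hZ4
  have hp2n : ∀ i k, p2 i ≠ par k := by
    intro i k; simp only [hp2, par]; split_ifs <;> decide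
  have hp2s : ∀ i, p2 i ≠ p2 (i + 1) := by
    intro i; simp only [hp2]; split_ifs <;> omega
  have S4 : Stack G Z4 := by
    constructor
    · intro j i
      simp only [hZ4]
      split_ifs with h1 h2
      · exact ho _ _ (hp2s i)
      · apply ho
        have e : i + 1 - u1 + (j - (j0 + R)) = (i - u1 + (j - (j0 + R))) + 1 := by ring
        rw [e]; exact par_succ_ne _
      · apply ho
        have e : i + 1 - v1 + (j - (v2 - R)) = (i - v1 + (j - (v2 - R))) + 1 := by ring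
        rw [e]; exact par_succ_ne _
    · intro j i
      simp only [hZ4]
      by_cases h1 : j = v2 - R - 1
      · rw [if_pos h1, if_neg (by omega), if_neg (by omega)]
        exact ho _ _ (hp2n _ _)
      · rw [if_neg h1]
        by_cases h2 : j < v2 - R - 1
        · rw [if_pos h2]
          by_cases h3 : j + 1 = v2 - R - 1
          · rw [if_pos h3]; exact ho _ _ (hp2n _ _).symm
          · rw [if_neg h3, if_pos (by omega)]
            apply ho
            have e : i - u1 + (j + 1 - (j0 + R)) = (i - u1 + (j - (j0 + R))) + 1 := by ring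
            rw [e]; exact par_succ_ne _
        · rw [if_neg h2, if_neg (by omega), if_neg (by omega)]
          apply ho
          have e : i - v1 + (j + 1 - (v2 - R)) = (i - v1 + (j - (v2 - R))) + 1 := by ring
          rw [e]; exact par_succ_ne _
  obtain ⟨W1, T1, A1, B1⟩ := glue S1 S2 j0 (by
    funext i
    have m := fold_mem hn (i - u1)
    simp only [sub_self, Int.natAbs_zero]
    rw [y0 _ m.1 (by push_cast; omega)])
  obtain ⟨W2, T2, A2, B2⟩ := glue T1 S4 (j0 + R) (by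
    rw [B1 _ (by omega)]
    funext i
    have m := fold_mem hn (i - u1)
    have e : (j0 + (R : ℤ) - j0).natAbs = R := by omega
    simp only [e]
    rw [yR _ m.1 (by push_cast; omega), par_fold]
    simp only [hZ4]
    rw [if_neg (by omega), if_pos (by omega), sub_self, add_zero])
  obtain ⟨W3, T3, A3, B3⟩ := glue T2 S5 (v2 - R) (by
    rw [B2 _ (by omega)]
    funext i
    have m := fold_mem hn (i - v1)
    have e : (v2 - (R : ℤ) - v2).natAbs = R := by omega
    simp only [e]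
    rw [zR _ m.1 (by push_cast; omega), par_fold]
    simp only [hZ4]
    rw [if_neg (by omega), if_neg (by omega), sub_self, add_zero])
  obtain ⟨W4, T4, A4, B4⟩ := glue T3 S6 v2 (by
    rw [B3 _ (by omega)]
    funext i
    have m := fold_mem hn (i - v1)
    simp only [sub_self, Int.natAbs_zero]
    rw [z0 _ m.1 (by push_cast; omega)])
  refine ⟨_, T4.point, ?_, ?_⟩
  · intro a b ha han hb hbn
    change W4 (u2 + b) (u1 + a) = _
    rw [A4 _ (by omega), A3 _ (by omega), A2 _ (by omega), A1 _ (by omega)]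
    have e : u1 + a - u1 = a := by ring
    simp only [e]
    rw [fold_id hn a ha (by omega)]
  · intro a b ha han hb hbn
    change W4 (v2 + b) (v1 + a) = _
    rw [B4 _ (by omega)]
    have e : v1 + a - v1 = a := by ring
    simp only [e]
    rw [fold_id hn a ha (by omega)]

theorem swap_point {V : Type} {G : SimpleGraph V} {P : ℤ × ℤ → V} (hP : IsPoint G P) :
    IsPoint G (fun u => P (u.2, u.1)) := by
  intro u v h
  apply hP
  simp only
  rw [add_comm]; exact h

/-- both coordinates and both orders -/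
theorem any {V : Type} {G : SimpleGraph V} {o : Fin 4 → V}
    (ho : ∀ i j, i ≠ j → G.Adj (o i) (o j)) {n R : ℕ} (hn : 1 ≤ n)
    (hC : Collapses G o (n + 1) R) {P P' : ℤ × ℤ → V} (hP : IsPoint G P) (hP' : IsPoint G P')
    (u u' : ℤ × ℤ) (hu : ((n : ℤ) - 1) + (2 * R + 4) ≤ |u.1 - u'.1| ∨
      ((n : ℤ) - 1) + (2 * R + 4) ≤ |u.2 - u'.2|) :
    ∃ x : ℤ × ℤ → V, IsPoint G x ∧
      (∀ a b : ℤ, 0 ≤ a → a < n → 0 ≤ b → b < n → x (u.1 + a, u.2 + b) = P (u.1 + a, u.2 + b)) ∧
      (∀ a b : ℤ, 0 ≤ a → a < n → 0 ≤ b → b < n →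
        x (u'.1 + a, u'.2 + b) = P' (u'.1 + a, u'.2 + b)) := by
  rcases hu with hu | hu
  · rcases abs_cases (u.1 - u'.1) with ⟨h1, _⟩ | ⟨h1, _⟩
    · obtain ⟨x, hx, g1, g2⟩ := vert ho hn hC (swap_point hP') (swap_point hP) (u'.2, u'.1)
        (u.2, u.1) (by simp only; omega)
      refine ⟨_, swap_point hx, ?_, ?_⟩
      · intro a b ha han hb hbn
        exact g2 b a hb hbn ha han
      · intro a b ha han hb hbn
        exact g1 b a hb hbn ha han
    · obtain ⟨x, hx, g1, g2⟩ := vert ho hn hC (swap_point hP) (swap_point hP') (u.2, u.1)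
        (u'.2, u'.1) (by simp only; omega)
      refine ⟨_, swap_point hx, ?_, ?_⟩
      · intro a b ha han hb hbn
        exact g1 b a hb hbn ha han
      · intro a b ha han hb hbn
        exact g2 b a hb hbn ha han
  · rcases abs_cases (u.2 - u'.2) with ⟨h1, _⟩ | ⟨h1, _⟩
    · obtain ⟨x, hx, g1, g2⟩ := vert ho hn hC hP' hP u' u (by omega)
      exact ⟨x, hx, g2, g1⟩
    · exact vert ho hn hC hP hP' u u' (by omega)

/-- indices of two points of the blocks at small distance -/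
theorem near {n m : ℕ} (hn : 1 ≤ n) (hm : 1 ≤ m) (d e : ℤ) (h : |d - e| < ((n : ℤ) - 1) + m) :
    ∃ a b : Fin n, |(d + ((a : ℕ) : ℤ)) - (e + ((b : ℕ) : ℤ))| < (m : ℤ) := by
  rw [abs_lt] at h
  rcases le_total d e with hde | hde
  · by_cases h1 : e - d ≤ n - 1
    · refine ⟨⟨(e - d).toNat, by omega⟩, ⟨0, by omega⟩, ?_⟩
      rw [abs_lt]
      simp only [Nat.cast_zero]
      omega
    · refine ⟨⟨n - 1, by omega⟩, ⟨0, by omega⟩, ?_⟩
      rw [abs_lt]
      simp only [Nat.cast_zero]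
      omega
  · by_cases h1 : d - e ≤ n - 1
    · refine ⟨⟨0, by omega⟩, ⟨(d - e).toNat, by omega⟩, ?_⟩
      rw [abs_lt]
      simp only [Nat.cast_zero]
      omega
    · refine ⟨⟨0, by omega⟩, ⟨n - 1, by omega⟩, ?_⟩
      rw [abs_lt]
      simp only [Nat.cast_zero]
      omega

theorem shift_point {V : Type} {G : SimpleGraph V} {P : ℤ × ℤ → V} (hP : IsPoint G P)
    (s : ℤ × ℤ) : IsPoint G (fun u => P (u.1 + s.1, u.2 + s.2)) := by
  intro u v h
  apply hP
  simp only
  have e1 : u.1 + s.1 - (v.1 + s.1) = u.1 - v.1 := by ring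
  have e2 : u.2 + s.2 - (v.2 + s.2) = u.2 - v.2 := by ring
  rw [e1, e2]; exact h

end Gapu

open Gapu in
theorem GAPU : GAPU_stmt := by
  intro V G o ho n R hn hC p p' hp hp' u u' hsep
  obtain ⟨P, hP, w, hw⟩ := hp
  obtain ⟨P', hP', w', hw'⟩ := hp'
  have hu : ((n : ℤ) - 1) + (2 * R + 4) ≤ |u.1 - u'.1| ∨
      ((n : ℤ) - 1) + (2 * R + 4) ≤ |u.2 - u'.2| := by
    by_contra hcon
    push Not at hcon
    obtain ⟨a1, b1, h1⟩ := near hn (m := 2 * R + 4) (by omega) u.1 u'.1 (by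
      push_cast; exact hcon.1)
    obtain ⟨a2, b2, h2⟩ := near hn (m := 2 * R + 4) (by omega) u.2 u'.2 (by
      push_cast; exact hcon.2)
    have h3 := hsep (a1, a2) (b1, b2)
    exact absurd h3 (not_le.mpr (max_lt h1 h2))
  obtain ⟨x, hx, g1, g2⟩ := any ho hn hC (shift_point hP (w.1 - u.1, w.2 - u.2))
    (shift_point hP' (w'.1 - u'.1, w'.2 - u'.2)) u u' hu
  refine ⟨x, hx, (0, 0), by simp, ?_, ?_⟩
  · intro a
    rw [g1 _ _ (Int.natCast_nonneg _) (by exact_mod_cast a.1.isLt) (Int.natCast_nonneg _)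
      (by exact_mod_cast a.2.isLt), ← hw a]
    congr 1
    ext <;> simp <;> ring
  · intro a
    simp only [add_zero]
    rw [g2 _ _ (Int.natCast_nonneg _) (by exact_mod_cast a.1.isLt) (Int.natCast_nonneg _)
      (by exact_mod_cast a.2.isLt), ← hw' a]
    congr 1
    ext <;> simp <;> ring

end Pool.Agent.H26.Hom
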