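import Pool.Agent.H26.Hom.Stmts

set_option autoImplicit false

namespace Pool.Agent.H26.Hom.Kill

/-- item: flag, remaining address, next flag -/
abbrev It := Flag × List Bool × Flag

inductive Run : Bool → List It → Bool → Prop
  | nil (k : Bool) : Run k [] k
  | cons {h h' : Flag} {a : List Bool} {k k' k'' : Bool} {L : List It} :
      rule h (a.headD false) k k' h' = true → Run k' L k'' → Run k ((h, a, h') :: L) k''

/-- old addresses of the flags `E` -/
def EO (L : List It) : List (List Bool) := (L.filter (fun x => x.1 = .E)).map (fun x => x.2.1)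

/-- new addresses of the flags `E` -/
def EN (L : List It) : List (List Bool) :=
  (L.filter (fun x => x.2.2 = .E)).map (fun x => x.2.1.tail)

theorem EO_append (L M : List It) : EO (L ++ M) = EO L ++ EO M := by simp [EO]
theorem EN_append (L M : List It) : EN (L ++ M) = EN L ++ EN M := by simp [EN]

theorem Run.split {L M : List It} : ∀ {k k' : Bool}, Run k (L ++ M) k' →
    ∃ m, Run k L m ∧ Run m M k' := by
  induction L with
  | nil => intro k k' h; exact ⟨k, Run.nil k, h⟩
  | cons x L ih =>
    intro k k' h
    cases h with
    | cons hr h =>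
      obtain ⟨m, h1, h2⟩ := ih h
      exact ⟨m, Run.cons hr h1, h2⟩

/-- split a list along its `E` addresses -/
theorem EO_split {A B : List (List Bool)} : ∀ {L : List It}, EO L = A ++ B →
    ∃ L1 L2, L = L1 ++ L2 ∧ EO L1 = A ∧ EO L2 = B := by
  induction A with
  | nil => intro L h; exact ⟨[], L, rfl, rfl, h⟩
  | cons a A ih =>
    intro L
    induction L with
    | nil => intro h; simp [EO] at h
    | cons x L ihL =>
      intro h
      by_cases hx : x.1 = .E
      · have e : EO (x :: L) = x.2.1 :: EO L := by simp [EO, hx]
        rw [e] at h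
        simp only [List.cons_append, List.cons.injEq] at h
        obtain ⟨L1, L2, h1, h2, h3⟩ := ih h.2
        refine ⟨x :: L1, L2, by rw [h1]; rfl, ?_, h3⟩
        have e : EO (x :: L1) = x.2.1 :: EO L1 := by simp [EO, hx]
        rw [e, h.1, h2]
      · have e : EO (x :: L) = EO L := by simp [EO, hx]
        rw [e] at h
        obtain ⟨L1, L2, h1, h2, h3⟩ := ihL h
        refine ⟨x :: L1, L2, by rw [h1]; rfl, ?_, h3⟩
        have e : EO (x :: L1) = EO L1 := by simp [EO, hx]
        rw [e, h2]

/-- a part whose `E` have bit `false` -/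
theorem zpart : ∀ {L : List It} {Z : List (List Bool)} {k k' : Bool}, Run k L k' →
    (∀ x ∈ L, x.1 ≠ .F) → EO L = Z.map (false :: ·) →
    k' = k ∧ (∀ x ∈ L, x.2.2 ≠ .F) ∧ (k = false → EN L = Z) ∧ (k = true → EN L = []) := by
  intro L
  induction L with
  | nil =>
    intro Z k k' hr _ he
    cases hr
    refine ⟨rfl, by simp, ?_, ?_⟩
    · intro _
      have : Z = [] := by simpa [EO] using he.symm
      simp [EN, this]
    · intro _; rfl
  | cons x L ih =>
    intro Z k k' hr hF he
    cases hr with
    | cons hrule hr =>
      rename_i h h' a m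
      cases h with
      | F => exact absurd rfl (hF _ (List.mem_cons_self))
      | K =>
        have e : EO ((Flag.K, a, h') :: L) = EO L := by simp [EO]
        rw [e] at he
        have hm : k = m ∧ h' = .K := by simpa [rule] using hrule
        obtain ⟨rfl, rfl⟩ := hm
        obtain ⟨h1, h2, h3, h4⟩ := ih hr (fun x hx => hF x (List.mem_cons_of_mem _ hx)) he
        have e' : EN ((Flag.K, a, Flag.K) :: L) = EN L := by simp [EN]
        refine ⟨h1, ?_, ?_, ?_⟩
        · intro x hx
          rcases List.mem_cons.mp hx with rfl | hx
          · simp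
          · exact h2 x hx
        · rw [e']; exact h3
        · rw [e']; exact h4
      | E =>
        have e : EO ((Flag.E, a, h') :: L) = a :: EO L := by simp [EO]
        rw [e] at he
        cases Z with
        | nil => simp at he
        | cons z Z =>
          simp only [List.map_cons, List.cons.injEq] at he
          obtain ⟨rfl, he⟩ := he
          cases k with
          | false =>
            have hm : m = false ∧ h' = .E := by
              revert hrule; cases m <;> cases h' <;> simp [rule]
            obtain ⟨rfl, rfl⟩ := hm
            obtain ⟨h1, h2, h3, h4⟩ := ih hr (fun x hx => hF x (List.mem_cons_of_mem _ hx)) he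
            refine ⟨h1, ?_, ?_, by simp⟩
            · intro x hx
              rcases List.mem_cons.mp hx with rfl | hx
              · simp
              · exact h2 x hx
            · intro _
              have e' : EN ((Flag.E, false :: z, Flag.E) :: L) = z :: EN L := by simp [EN]
              rw [e', h3 rfl]
          | true =>
            have hm : m = true ∧ h' = .K := by
              revert hrule; cases m <;> cases h' <;> simp [rule]
            obtain ⟨rfl, rfl⟩ := hm
            obtain ⟨h1, h2, h3, h4⟩ := ih hr (fun x hx => hF x (List.mem_cons_of_mem _ hx)) he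
            refine ⟨h1, ?_, by simp, ?_⟩
            · intro x hx
              rcases List.mem_cons.mp hx with rfl | hx
              · simp
              · exact h2 x hx
            · intro _
              have e' : EN ((Flag.E, false :: z, Flag.K) :: L) = EN L := by simp [EN]
              rw [e', h4 rfl]

/-- goal of one level -/
def Good (Z : List (List Bool)) (L : List It) : Prop :=
  ∃ L1 L2 L3, L = L1 ++ (L2 ++ L3) ∧ (∀ x ∈ L2, x.2.2 ≠ .F) ∧ EN L2 = Z

theorem Good.app {Z : List (List Bool)} {L M : List It} (h : Good Z M) : Good Z (L ++ M) := by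
  obtain ⟨L1, L2, L3, h1, h2, h3⟩ := h
  exact ⟨L ++ L1, L2, L3, by rw [h1, List.append_assoc], h2, h3⟩

/-- the main part -/
theorem fpart (Z : List (List Bool)) : ∀ (A : List (List Bool)) {L : List It} {k' : Bool},
    Run true L k' → (∀ x ∈ L, x.1 ≠ .F) →
    EO L = A.flatMap (fun a => (true :: a) :: Z.map (false :: ·)) →
    Good Z L ∨ (k' = true ∧ (∀ x ∈ L, x.2.2 ≠ .F) ∧ EN L = A) := by
  intro A
  induction A with
  | nil =>
    intro L k' hr hF he
    right
    obtain ⟨h1, h2, h3, h4⟩ := zpart (Z := []) hr hF (by simpa using he)
    exact ⟨h1, h2, h4 rfl⟩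
  | cons a A ih =>
    intro L k' hr hF he
    rw [List.flatMap_cons] at he
    -- leading `K`s
    have hlead : ∀ {L : List It} {B : List (List Bool)}, EO L = (true :: a) :: B →
        ∃ L0 h' L1, L = L0 ++ ((Flag.E, true :: a, h') :: L1) ∧ EO L0 = [] ∧ EO L1 = B := by
      intro L
      induction L with
      | nil => intro B h; simp [EO] at h
      | cons x L ihL =>
        intro B h
        obtain ⟨f, b, h'⟩ := x
        by_cases hx : f = .E
        · subst hx
          have e : EO ((Flag.E, b, h') :: L) = b :: EO L := by simp [EO]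
          rw [e] at h
          simp only [List.cons.injEq] at h
          obtain ⟨rfl, h⟩ := h
          exact ⟨[], h', L, rfl, rfl, h⟩
        · have e : EO ((f, b, h') :: L) = EO L := by simp [EO, hx]
          rw [e] at h
          obtain ⟨L0, h'', L1, h1, h2, h3⟩ := ihL h
          refine ⟨(f, b, h') :: L0, h'', L1, by rw [h1]; rfl, ?_, h3⟩
          have e : EO ((f, b, h') :: L0) = EO L0 := by simp [EO, hx]
          rw [e, h2]
    obtain ⟨L0, h', L1, rfl, hL0, hL1⟩ := hlead (by rw [he, List.cons_append])
    obtain ⟨L2, L3, rfl, hL2, hL3⟩ := EO_split hL1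
    obtain ⟨m, hr0, hr1⟩ := hr.split
    have z0 := zpart (Z := []) hr0 (fun x hx => hF x (by simp [hx])) (by simpa using hL0)
    obtain ⟨rfl, z02, -, z04⟩ := z0
    cases hr1 with
    | cons hrule hr1 =>
      rename_i m
      obtain ⟨n, hr2, hr3⟩ := hr1.split
      have z2 := zpart (Z := Z) hr2 (fun x hx => hF x (by simp [hx])) hL2
      obtain ⟨rfl, z22, z23, z24⟩ := z2
      cases n with
      | false =>
        left
        refine ⟨L0 ++ [(Flag.E, true :: a, h')], L2, L3, by simp, z22, z23 rfl⟩
      | true =>
        have hm : h' = .E := by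
          revert hrule; cases h' <;> simp [rule]
        subst hm
        rcases ih hr3 (fun x hx => hF x (by simp [hx])) hL3 with h | ⟨h1, h2, h3⟩
        · left
          have := Good.app (L := L0 ++ ((Flag.E, true :: a, Flag.E) :: L2)) h
          simpa using this
        · right
          refine ⟨h1, ?_, ?_⟩
          · intro x hx
            simp only [List.mem_append, List.mem_cons] at hx
            rcases hx with hx | rfl | hx | hx
            · exact z02 x hx
            · simp
            · exact z22 x hx
            · exact h2 x hx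
          · rw [EN_append, z04 rfl]
            have e' : EN ((Flag.E, true :: a, Flag.E) :: (L2 ++ L3)) = a :: EN (L2 ++ L3) := by
              simp [EN]
            rw [e', EN_append, z24 rfl, h3]
            rfl

/-- one level -/
theorem step {j : ℕ} {L : List It} {k k' : Bool} (hr : Run k L k') (hF : ∀ x ∈ L, x.1 ≠ .F)
    (he : EO L = Kl (j + 1)) : Good (Kl j) L := by
  rw [Kl] at he
  obtain ⟨L1, L2, rfl, h1, h2⟩ := EO_split he
  obtain ⟨m, hr1, hr2⟩ := hr.split
  obtain ⟨rfl, z2, z3, z4⟩ := zpart hr1 (fun x hx => hF x (by simp [hx])) h1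
  cases m with
  | false => exact ⟨[], L1, L2, rfl, z2, z3 rfl⟩
  | true =>
    rcases fpart (Kl j) (Kl j) hr2 (fun x hx => hF x (by simp [hx])) h2 with h | ⟨g1, g2, g3⟩
    · exact h.app
    · refine ⟨[], L1 ++ L2, [], by simp, ?_, ?_⟩
      · intro x hx
        rcases List.mem_append.mp hx with hx | hx
        · exact z2 x hx
        · exact g2 x hx
      · rw [EN_append, z4 rfl, g3]; rfl

/-- values on an interval -/
def seg {α : Type} (f : ℤ → α) : ℤ → ℕ → List α
  | _, 0 => []
  | a, n + 1 => f a :: seg f (a + 1) n

theorem seg_split {α : Type} (f : ℤ → α) {M : List α} : ∀ {L : List α} {a : ℤ} {n : ℕ},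
    seg f a n = L ++ M → ∃ n1 n2, n = n1 + n2 ∧ L = seg f a n1 ∧ M = seg f (a + n1) n2 := by
  intro L
  induction L with
  | nil => intro a n h; exact ⟨0, n, by simp, rfl, by simpa using h.symm⟩
  | cons x L ih =>
    intro a n h
    cases n with
    | zero => simp [seg] at h
    | succ n =>
      simp only [seg, List.cons_append, List.cons.injEq] at h
      obtain ⟨n1, n2, h1, h2, h3⟩ := ih h.2
      refine ⟨n1 + 1, n2, by omega, ?_, ?_⟩
      · rw [seg, h.1, h2]
      · rw [h3]; push_cast; congr 1; ring

theorem mem_seg {α : Type} (f : ℤ → α) {x : α} : ∀ {a : ℤ} {n : ℕ}, x ∈ seg f a n →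
    ∃ q, a ≤ q ∧ q < a + n ∧ f q = x := by
  intro a n
  induction n generalizing a with
  | zero => intro h; simp [seg] at h
  | succ n ih =>
    intro h
    simp only [seg, List.mem_cons] at h
    rcases h with rfl | h
    · exact ⟨a, le_rfl, by push_cast; omega, rfl⟩
    · obtain ⟨q, h1, h2, h3⟩ := ih h
      exact ⟨q, by omega, by push_cast; omega, h3⟩

theorem length_seg {α : Type} (f : ℤ → α) : ∀ (n : ℕ) (a : ℤ), (seg f a n).length = n := by
  intro n
  induction n with
  | zero => intro a; rfl
  | succ n ih => intro a; simp [seg, ih]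

theorem get_seg {α : Type} (f : ℤ → α) : ∀ (n : ℕ) (a : ℤ) (i : ℕ) (h : i < (seg f a n).length),
    (seg f a n)[i] = f (a + i) := by
  intro n
  induction n with
  | zero => intro a i h; simp [seg] at h
  | succ n ih =>
    intro a i h
    cases i with
    | zero => simp [seg]
    | succ i =>
      simp only [seg, List.getElem_cons_succ]
      rw [ih]; congr 1; push_cast; ring

theorem length_Kl (T : ℕ) : (Kl T).length = 2 ^ (2 ^ T) - 1 := by
  have key : (Kl T).length + 1 = 2 ^ (2 ^ T) := by
    induction T with
    | zero => simp [Kl]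
    | succ T ih =>
      rw [Kl, List.length_append, List.length_map, List.length_flatMap]
      simp only [List.length_cons, List.length_map, List.map_const', List.sum_replicate,
        smul_eq_mul]
      rw [pow_succ 2 T, pow_mul, ← ih]
      ring
  omega

theorem Kl_ne (T : ℕ) : Kl T ≠ [] := by
  intro h
  have h1 := length_Kl T
  rw [h, List.length_nil] at h1
  have h2 : 2 ≤ 2 ^ (2 ^ T) := by
    calc 2 = 2 ^ 1 := rfl
      _ ≤ 2 ^ (2 ^ T) := Nat.pow_le_pow_right (by norm_num) Nat.one_le_two_pow
  omega

/-- address -/
def adr (T : ℕ) (q : ℤ) : List Bool := (Kl T).getD (q % ((Kl T).length : ℤ)).toNat []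

theorem head_drop (l : List Bool) (s : ℕ) : (l.drop s).headD false = l.getD s false := by
  induction l generalizing s with
  | nil => simp
  | cons a l ih =>
    cases s with
    | zero => simp
    | succ s => simpa using ih s

end Kill

open Kill in
theorem KILL : KILL_stmt := by
  refine ⟨length_Kl, ?_⟩
  intro T i H q₀ hi h0 hr
  set N := (Kl T).length with hN
  have hNpos : 0 < N := List.length_pos_iff.mpr (Kl_ne T)
  -- the invariant
  have inv : ∀ s ≤ i, ∃ (a : ℤ) (n : ℕ), q₀ ≤ a ∧ a + n ≤ q₀ + 2 * N ∧
      (∀ q, a ≤ q → q < a + n → H s q ≠ .F) ∧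
      EO (seg (fun q => (H s q, (adr T q).drop s, H (s + 1) q)) a n) = Kl (T - s) := by
    intro s
    induction s with
    | zero =>
      intro _
      refine ⟨q₀ + (-q₀) % N, N, ?_, ?_, ?_, ?_⟩
      · have := Int.emod_nonneg (-q₀) (show (N : ℤ) ≠ 0 by omega); omega
      · have := Int.emod_lt_of_pos (-q₀) (show (0 : ℤ) < N by omega); omega
      · intro q h1 h2
        have hm1 := Int.emod_nonneg (-q₀) (show (N : ℤ) ≠ 0 by omega)
        have hm2 := Int.emod_lt_of_pos (-q₀) (show (0 : ℤ) < N by omega)
        rw [h0 q (by omega) (by omega)]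
        simp
      · have hm1 := Int.emod_nonneg (-q₀) (show (N : ℤ) ≠ 0 by omega)
        have hm2 := Int.emod_lt_of_pos (-q₀) (show (0 : ℤ) < N by omega)
        have e1 : ∀ (n : ℕ) (a : ℤ), q₀ ≤ a → a + n ≤ q₀ + 2 * N →
            EO (seg (fun q => (H 0 q, (adr T q).drop 0, H (0 + 1) q)) a n) = seg (adr T) a n := by
          intro n
          induction n with
          | zero => intro a _ _; rfl
          | succ n ih =>
            intro a ha1 ha2
            have h00 : H 0 a = .E := h0 a ha1 (by push_cast at ha2; omega)
            simp only [seg]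
            have e : ∀ (x : It) (L : List It), x.1 = .E → EO (x :: L) = x.2.1 :: EO L := by
              intro x L hx; simp [EO, hx]
            rw [e _ _ h00, ih (a + 1) (by omega) (by push_cast at ha2; omega)]
            simp
        rw [e1 _ _ (by omega) (by omega), Nat.sub_zero]
        apply List.ext_getElem
        · rw [length_seg]
        · intro m h1 h2
          rw [get_seg]
          unfold adr
          rw [length_seg] at h1
          have hd : (q₀ + (-q₀) % N + m) % N = m := by
            have hq : (q₀ + (-q₀) % N) % N = 0 := by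
              rw [Int.add_emod, Int.emod_emod_of_dvd _ (dvd_refl _), ← Int.add_emod]
              simp
            rw [Int.add_emod, hq, zero_add, Int.emod_emod_of_dvd _ (dvd_refl _)]
            exact Int.emod_eq_of_lt (by omega) (by omega)
          rw [← hN, hd, Int.toNat_natCast]
          exact List.getD_eq_getElem _ _ h2
    | succ s ih =>
      intro hs
      obtain ⟨a, n, ha1, ha2, hF, he⟩ := ih (by omega)
      obtain ⟨κ, hκ⟩ := hr s (by omega)
      set f : ℤ → It := fun q => (H s q, (adr T q).drop s, H (s + 1) q) with hf
      have hrun : ∀ (n : ℕ) (a : ℤ), q₀ ≤ a → a + n ≤ q₀ + 2 * N →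
          Run (κ a) (seg f a n) (κ (a + n)) := by
        intro n
        induction n with
        | zero => intro a _ _; simpa [seg] using Run.nil (κ a)
        | succ n ih =>
          intro a h1 h2
          have h3 := hκ a h1 (by push_cast at h2; omega)
          have h4 := ih (a + 1) (by omega) (by push_cast at h2; omega)
          have e : a + 1 + (n : ℤ) = a + ((n + 1 : ℕ) : ℤ) := by push_cast; ring
          rw [e] at h4
          refine Run.cons ?_ h4
          rw [head_drop]
          exact h3
      have hT : T - s = (T - (s + 1)) + 1 := by omega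
      rw [hT] at he
      have hstep := step (hrun n a ha1 ha2) (by
        intro x hx
        obtain ⟨q, h1, h2, rfl⟩ := mem_seg f hx
        exact hF q h1 h2) he
      obtain ⟨L1, L2, L3, h1, h2, h3⟩ := hstep
      obtain ⟨n1, n', e1, -, h5⟩ := seg_split f h1
      obtain ⟨n2, n3, e2, h6, -⟩ := seg_split f h5.symm
      have hmem : ∀ (n : ℕ) (a : ℤ), (∀ x ∈ seg f a n, x.2.2 ≠ .F) →
          ∀ q, a ≤ q → q < a + n → H (s + 1) q ≠ .F := by
        intro n
        induction n with
        | zero => intro a _ q h1 h2; push_cast at h2; omega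
        | succ n ih =>
          intro a h q h1 h2
          by_cases hq : q = a
          · rw [hq]; exact h (f a) (by simp [seg])
          · exact ih (a + 1) (fun x hx => h x (by simp [seg, hx])) q (by omega)
              (by push_cast at h2; omega)
      have hEE : ∀ (n : ℕ) (a : ℤ),
          EO (seg (fun q => (H (s + 1) q, (adr T q).drop (s + 1), H (s + 1 + 1) q)) a n) =
            EN (seg f a n) := by
        intro n
        induction n with
        | zero => intro a; rfl
        | succ n ih =>
          intro a
          simp only [seg]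
          by_cases hx : H (s + 1) a = .E
          · have e1 : ∀ (x : It) (L : List It), x.1 = .E → EO (x :: L) = x.2.1 :: EO L := by
              intro x L hx; simp [EO, hx]
            have e2 : ∀ (x : It) (L : List It), x.2.2 = .E →
                EN (x :: L) = x.2.1.tail :: EN L := by
              intro x L hx; simp [EN, hx]
            rw [e1 _ _ hx, e2 _ _ hx, ih]
            simp [hf]
          · have e1 : ∀ (x : It) (L : List It), x.1 ≠ .E → EO (x :: L) = EO L := by
              intro x L hx; simp [EO, hx]
            have e2 : ∀ (x : It) (L : List It), x.2.2 ≠ .E → EN (x :: L) = EN L := by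
              intro x L hx; simp [EN, hx]
            rw [e1 _ _ hx, e2 _ _ hx, ih]
      refine ⟨a + n1, n2, by omega, ?_, ?_, ?_⟩
      · subst e1 e2; push_cast at ha2 ⊢; omega
      · apply hmem
        rw [← h6]; exact h2
      · rw [hEE, ← h6]; exact h3
  obtain ⟨a, n, ha1, ha2, -, he⟩ := inv i le_rfl
  have hne : EO (seg (fun q => (H i q, (adr T q).drop i, H (i + 1) q)) a n) ≠ [] := by
    rw [he]; exact Kl_ne _
  obtain ⟨x, hx⟩ := List.exists_mem_of_ne_nil _ hne
  simp only [EO, List.mem_map, List.mem_filter, decide_eq_true_eq] at hx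
  obtain ⟨y, ⟨hy, hyE⟩, -⟩ := hx
  obtain ⟨q, h1, h2, rfl⟩ := mem_seg _ hy
  exact ⟨q, by omega, by omega, hyE⟩

end Pool.Agent.H26.Hom
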