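import Mathlib
import Pool.Agent.H26.Hom.Stmts

namespace Pool.Agent.H26.Hom

namespace Labm

theorem gadj (u v : Vtx) : G.Adj u v ↔ adj u v := Iff.rfl

theorem alt_congr {k k' : ℤ} (h : (k - k') % 2 = 0) : alt k = alt k' := by
  unfold alt par
  have : k % 2 = k' % 2 := by omega
  rw [this]

theorem alt_adj {k k' : ℤ} (h : (k - k') % 2 = 1) : G.Adj (alt k) (alt k') := by
  rw [gadj]
  unfold alt par
  rcases Int.emod_two_eq_zero_or_one k with h1 | h1
  · have : k' % 2 = 1 := by omega
    simp [h1, this, adj]
  · have : k' % 2 = 0 := by omega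
    simp [h1, this, adj]

theorem hubCol_zero (T : ℕ) (c : Bool) (σ : ℕ → Sym) (k : ℤ) : hubCol T c σ k 0 = .hb c := by
  cases T <;> simp [hubCol]

theorem letCol_zero (T : ℕ) (c : Bool) (W : ℕ → Letter) (τ : ℕ → Trans) (j : Bool) (k : ℤ) :
    letCol T c W τ j k 0 = .eb c (W 0) j := by
  cases T <;> simp [letCol]

/-- a hub of a base or middle level, or the alternating row -/
def HL (v : Vtx) (k : ℤ) : Prop := (∃ c, v = .hb c) ∨ (∃ c s, v = .hm c s) ∨ v = alt k

theorem HL_congr {v : Vtx} {k k' : ℤ} (h : (k - k') % 2 = 0) (hv : HL v k) : HL v k' := by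
  unfold HL at *
  rw [alt_congr h] at hv
  exact hv

theorem hubCol_HL (T : ℕ) : ∀ (c : Bool) (σ : ℕ → Sym) (k : ℤ) (t : ℕ),
    HL (hubCol T c σ k t) (k + t) := by
  induction T with
  | zero =>
    intro c σ k t
    cases t with
    | zero => left; exact ⟨c, by simp [hubCol]⟩
    | succ t => right; right; simp [hubCol]
  | succ T ih =>
    intro c σ k t
    match t with
    | 0 => left; exact ⟨c, by simp [hubCol]⟩
    | 1 => right; left; exact ⟨c, σ 0, by simp [hubCol]⟩
    | t + 2 =>
      have h := ih (!c) (fun l => σ (l + 1)) k t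
      simp only [hubCol]
      exact HL_congr (by push_cast; omega) h

theorem HL_alt {v : Vtx} {k k' : ℤ} (h : (k - k') % 2 = 1) (hv : HL v k) : G.Adj v (alt k') := by
  rcases hv with ⟨c, rfl⟩ | ⟨c, s, rfl⟩ | rfl
  · rw [gadj]; simp [adj, alt]
  · rw [gadj]; simp [adj, alt]
  · exact alt_adj h

theorem HL_hb {v : Vtx} {k : ℤ} (c : Bool) (hv : HL v k) (hv' : ∀ c', v ≠ .hb c') :
    G.Adj v (.hb c) := by
  rcases hv with ⟨c', rfl⟩ | ⟨c, s, rfl⟩ | rfl
  · exact absurd rfl (hv' c')
  · rw [gadj]; simp [adj]
  · rw [gadj]; simp [adj, alt]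

theorem hubCol_vert (T : ℕ) : ∀ (c : Bool) (σ : ℕ → Sym) (k : ℤ) (t : ℕ),
    G.Adj (hubCol T c σ k t) (hubCol T c σ k (t + 1)) := by
  induction T with
  | zero =>
    intro c σ k t
    cases t with
    | zero => rw [gadj]; simp [hubCol, adj, alt]
    | succ t =>
      simp only [hubCol]
      exact alt_adj (by push_cast; omega)
  | succ T ih =>
    intro c σ k t
    match t with
    | 0 => rw [gadj]; simp [hubCol, adj]
    | 1 =>
      simp only [hubCol]
      rw [hubCol_zero, gadj]; simp [adj]
    | t + 2 =>
      simp only [hubCol]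
      exact ih _ _ k t

theorem hubCol_diag (T : ℕ) : ∀ (c : Bool) (σ : ℕ → Sym) (c' : Bool) (σ' : ℕ → Sym) (k k' : ℤ)
    (t : ℕ), (k - k') % 2 = 0 → G.Adj (hubCol T c σ k (t + 1)) (hubCol T c' σ' k' t) := by
  induction T with
  | zero =>
    intro c σ c' σ' k k' t h
    cases t with
    | zero => rw [gadj]; simp [hubCol, adj, alt]
    | succ t =>
      simp only [hubCol]
      exact alt_adj (by push_cast; omega)
  | succ T ih =>
    intro c σ c' σ' k k' t h
    match t with
    | 0 => rw [gadj]; simp [hubCol, adj]
    | 1 =>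
      simp only [hubCol]
      rw [hubCol_zero, gadj]; simp [adj]
    | t + 2 =>
      simp only [hubCol]
      exact ih _ _ _ _ k k' t h

theorem hubLet_adj (T : ℕ) : ∀ (c : Bool) (σ : ℕ → Sym) (W : ℕ → Letter) (τ : ℕ → Trans)
    (j : Bool) (k k' : ℤ) (t : ℕ), (k - k') % 2 = 1 → hubLet T σ τ j →
    G.Adj (hubCol T c σ k t) (letCol T c W τ j k' t) := by
  induction T with
  | zero =>
    intro c σ W τ j k k' t h hl
    match t with
    | 0 => rw [gadj]; simp [hubCol, letCol, adj]
    | 1 => rw [gadj]; simp [hubCol, letCol, adj, alt]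
    | t + 2 =>
      simp only [hubCol, letCol]
      exact alt_adj (by push_cast; omega)
  | succ T ih =>
    intro c σ W τ j k k' t h hl
    match t with
    | 0 => rw [gadj]; simp [hubCol, letCol, adj]
    | 1 =>
      rw [gadj]
      simp only [hubCol, letCol, adj]
      exact ⟨trivial, hl 0 (by omega)⟩
    | t + 2 =>
      simp only [hubCol, letCol]
      exact ih _ _ _ _ _ k k' t h (fun l hl' => hl (l + 1) (by omega))

theorem letLet_adj (T : ℕ) : ∀ (c : Bool) (W : ℕ → Letter) (τ : ℕ → Trans)
    (j j' : Bool) (k k' : ℤ) (t : ℕ), (k - k') % 2 = 1 → j ≠ j' →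
    G.Adj (letCol T c W τ j k t) (letCol T c W τ j' k' t) := by
  induction T with
  | zero =>
    intro c W τ j j' k k' t h hj
    match t with
    | 0 => rw [gadj]; simp [letCol, adj, hj]
    | 1 => rw [gadj]; simp [letCol, adj, hj]
    | t + 2 =>
      simp only [letCol]
      exact alt_adj (by push_cast; omega)
  | succ T ih =>
    intro c W τ j j' k k' t h hj
    match t with
    | 0 => rw [gadj]; simp [letCol, adj, hj]
    | 1 => rw [gadj]; simp [letCol, adj, hj]
    | t + 2 =>
      simp only [letCol]
      exact ih _ _ _ _ _ k k' t h hj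

theorem letCol_vert (T : ℕ) : ∀ (c : Bool) (W : ℕ → Letter) (τ : ℕ → Trans)
    (j : Bool) (k : ℤ) (t : ℕ), TowerOK T W τ →
    G.Adj (letCol T c W τ j k t) (letCol T c W τ j k (t + 1)) := by
  induction T with
  | zero =>
    intro c W τ j k t hT
    match t with
    | 0 => rw [gadj]; simp [letCol, adj, hT.2]
    | 1 => rw [gadj]; simp [letCol, adj, alt]
    | t + 2 =>
      simp only [letCol]
      exact alt_adj (by push_cast; omega)
  | succ T ih =>
    intro c W τ j k t hT
    have h0 := hT.1 0 (by omega)
    match t with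
    | 0 => rw [gadj]; simp [letCol, adj, vertOK, h0.1]
    | 1 =>
      simp only [letCol]
      rw [letCol_zero, gadj]; simp [adj, vertOK, h0.2]
    | t + 2 =>
      simp only [letCol]
      refine ih _ _ _ _ k t ⟨fun l hl => hT.1 (l + 1) (by omega), hT.2⟩

theorem hubCol_late (T : ℕ) : ∀ (c : Bool) (σ : ℕ → Sym) (k : ℤ) (t : ℕ), 2 * T + 1 ≤ t →
    hubCol T c σ k t = alt (k + t) := by
  induction T with
  | zero =>
    intro c σ k t ht
    cases t with
    | zero => omega
    | succ t => simp [hubCol]
  | succ T ih =>
    intro c σ k t ht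
    match t with
    | 0 => omega
    | 1 => omega
    | t + 2 =>
      simp only [hubCol]
      rw [ih _ _ k t (by omega)]
      exact alt_congr (by push_cast; omega)

theorem letCol_late (T : ℕ) : ∀ (c : Bool) (W : ℕ → Letter) (τ : ℕ → Trans) (j : Bool) (k : ℤ)
    (t : ℕ), 2 * T + 2 ≤ t → letCol T c W τ j k t = alt (k + t) := by
  induction T with
  | zero =>
    intro c W τ j k t ht
    match t with
    | 0 => omega
    | 1 => omega
    | t + 2 => simp [letCol]
  | succ T ih =>
    intro c W τ j k t ht
    match t with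
    | 0 => omega
    | 1 => omega
    | t + 2 =>
      simp only [letCol]
      rw [ih _ _ _ _ k t (by omega)]
      exact alt_congr (by push_cast; omega)

theorem omUp_cases (i : Fin 4) (k : ℤ) :
    (omUp i k = .om (if k % 2 = 0 then 2 else 3) ∧ i = par (k + 1)) ∨
    (omUp i k = alt (k + 1) ∧ i ≠ par (k + 1)) := by
  unfold omUp
  split
  · rename_i h; left; exact ⟨rfl, h⟩
  · rename_i h; right; exact ⟨rfl, h⟩

theorem omUp_om (i : Fin 4) (k : ℤ) : ∃ i', omUp i k = .om i' := by
  rcases omUp_cases i k with ⟨h, -⟩ | ⟨h, -⟩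
  · exact ⟨_, h⟩
  · exact ⟨_, h⟩

theorem om_vert0 (i : Fin 4) (k : ℤ) : G.Adj (.om i) (omUp i k) := by
  rw [gadj]
  rcases omUp_cases i k with ⟨h, h'⟩ | ⟨h, h'⟩
  · rw [h]
    simp only [adj]
    rw [h']
    unfold par
    split <;> split <;> decide
  · rw [h]; exact h'

theorem omUp_alt (i : Fin 4) {k k' : ℤ} (h : (k - k') % 2 = 1) : G.Adj (omUp i k) (alt (k' + 1)) := by
  rcases omUp_cases i k with ⟨h1, -⟩ | ⟨h1, -⟩
  · rw [h1, gadj]
    unfold alt par
    simp only [adj]
    split <;> split <;> decide
  · rw [h1]; exact alt_adj (by omega)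

theorem omUp_HL (i : Fin 4) {k k' : ℤ} {v : Vtx} (h : (k - k') % 2 = 1) (hv : HL v (k' + 1)) :
    G.Adj (omUp i k) v := by
  obtain ⟨i', hi'⟩ := omUp_om i k
  rcases hv with ⟨c, rfl⟩ | ⟨c, s, rfl⟩ | rfl
  · rw [hi', gadj]; simp [adj]
  · rw [hi', gadj]; simp [adj]
  · exact omUp_alt i h

theorem omUp_omUp (i i' : Fin 4) {k k' : ℤ} (h : (k - k') % 2 = 1) :
    G.Adj (omUp i k) (omUp i' k') := by
  rcases omUp_cases i' k' with ⟨h1, -⟩ | ⟨h1, -⟩
  · rcases omUp_cases i k with ⟨h2, -⟩ | ⟨h2, -⟩
    · rw [h1, h2, gadj]
      simp only [adj]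
      rcases Int.emod_two_eq_zero_or_one k with h3 | h3
      · have : k' % 2 = 1 := by omega
        simp [h3, this]
      · have : k' % 2 = 0 := by omega
        simp [h3, this]
    · rw [h1, h2, gadj]
      unfold alt par
      simp only [adj]
      split <;> split <;> decide
  · rw [h1]; exact omUp_alt i h

theorem vert (T : ℕ) (a : Lab) (k : ℤ) (t : ℕ) (ha : a.valid T) :
    G.Adj (a.col T k t) (a.col T k (t + 1)) := by
  cases a with
  | om i =>
    match t with
    | 0 => simp only [Lab.col]; exact om_vert0 i k
    | 1 =>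
      simp only [Lab.col]
      have := omUp_alt i (k := k) (k' := k + 1) (by omega)
      have e : (k + 1 + 1 : ℤ) = k + ((0 + 2 : ℕ) : ℤ) := by push_cast; ring
      rw [e] at this
      exact this
    | t + 2 => simp only [Lab.col]; exact alt_adj (by push_cast; omega)
  | del j =>
    match t with
    | 0 => rw [gadj]; simp [Lab.col, adj, alt]
    | t + 1 => simp only [Lab.col]; exact alt_adj (by push_cast; omega)
  | nb c x j =>
    match t with
    | 0 => rw [gadj]; simp [Lab.col, adj]
    | 1 => rw [gadj]; simp [Lab.col, adj, alt]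
    | t + 2 => simp only [Lab.col]; exact alt_adj (by push_cast; omega)
  | nm c x j =>
    match t with
    | 0 => rw [gadj]; simp [Lab.col, adj, symOK]
    | 1 => rw [gadj]; simp [Lab.col, adj, alt]
    | t + 2 => simp only [Lab.col]; exact alt_adj (by push_cast; omega)
  | hubB c σ => simp only [Lab.col]; exact hubCol_vert T c σ k t
  | hubM c s σ =>
    match t with
    | 0 =>
      simp only [Lab.col]
      rw [hubCol_zero, gadj]; simp [adj]
    | t + 1 => simp only [Lab.col]; exact hubCol_vert T _ σ _ t
  | letB c W τ j => simp only [Lab.col]; exact letCol_vert T c W τ j k t ha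
  | letM c x W τ j =>
    match t with
    | 0 =>
      simp only [Lab.col]
      rw [letCol_zero, gadj]; simp [adj, vertOK, ha.1]
    | t + 1 => simp only [Lab.col]; exact letCol_vert T _ W τ j _ t ha.2

theorem horiz (T : ℕ) (a b : Lab) {k k' : ℤ} (t : ℕ) (hk : (k - k') % 2 = 1)
    (h : a.comp1 T b) : G.Adj (a.col T k t) (b.col T k' t) := by
  cases a with
  | om i =>
    cases b with
    | om i' =>
      match t with
      | 0 => exact h
      | 1 => exact omUp_omUp i i' hk
      | t + 2 => exact alt_adj (by push_cast; omega)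
    | del j =>
      match t with
      | 0 => rw [gadj]; simp [Lab.col, adj]
      | 1 => 
        have := omUp_alt i hk
        simpa [Lab.col] using this
      | t + 2 => exact alt_adj (by push_cast; omega)
    | hubB c σ =>
      match t with
      | 0 =>
        simp only [Lab.col]
        rw [hubCol_zero, gadj]; simp [adj]
      | 1 =>
        simp only [Lab.col]
        refine omUp_HL i hk ?_
        have := hubCol_HL T c σ k' 1
        simpa using this
      | t + 2 =>
        simp only [Lab.col]
        exact (HL_alt (by push_cast; omega) (hubCol_HL T c σ k' (t + 2))).symm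
    | hubM c s σ =>
      match t with
      | 0 => rw [gadj]; simp [Lab.col, adj]
      | 1 =>
        simp only [Lab.col]
        refine omUp_HL i hk ?_
        have := hubCol_HL T (!c) σ (k' + 1) 0
        simpa using this
      | t + 2 =>
        simp only [Lab.col]
        exact (HL_alt (by push_cast; omega) (hubCol_HL T (!c) σ (k' + 1) (t + 1))).symm
    | _ => exact absurd h (by simp [Lab.comp1])
  | del j =>
    cases b with
    | del j' =>
      match t with
      | 0 => exact h
      | t + 1 => exact alt_adj (by push_cast; omega)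
    | nb c x j' =>
      match t with
      | 0 => exact h
      | 1 => rw [gadj]; simp [Lab.col, adj, alt]
      | t + 2 => exact alt_adj (by push_cast; omega)
    | _ => exact absurd h (by simp [Lab.comp1])
  | nb c x j =>
    cases b with
    | nm c' t' j' =>
      match t with
      | 0 => exact h
      | 1 => rw [gadj]; simp [Lab.col, adj]
      | t + 2 => exact alt_adj (by push_cast; omega)
    | _ => exact absurd h (by simp [Lab.comp1])
  | nm c x j => cases b <;> exact absurd h (by simp [Lab.comp1])
  | hubB c σ =>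
    cases b with
    | letB c' W τ j =>
      obtain ⟨rfl, h2⟩ := h
      simp only [Lab.col]
      exact hubLet_adj T _ _ _ _ _ _ _ t hk h2
    | hubM c' s σ' =>
      match t with
      | 0 =>
        simp only [Lab.col]
        rw [hubCol_zero, gadj]; simp [adj]
      | t + 1 =>
        simp only [Lab.col]
        exact hubCol_diag T _ _ _ _ _ _ t (by omega)
    | nb c' x j =>
      have hc : c = c' := h
      subst hc
      match t with
      | 0 =>
        simp only [Lab.col]
        rw [hubCol_zero, gadj]; simp [adj]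
      | 1 =>
        simp only [Lab.col]
        refine HL_hb c (hubCol_HL T c σ k 1) ?_
        intro c'
        cases T with
        | zero => simp [hubCol, alt]
        | succ T => simp [hubCol]
      | t + 2 =>
        simp only [Lab.col]
        exact HL_alt (by push_cast; omega) (hubCol_HL T c σ k (t + 2))
    | _ => exact absurd h (by simp [Lab.comp1])
  | hubM c s σ =>
    cases b with
    | letM c' t' W τ j =>
      obtain ⟨rfl, h2, h3⟩ := h
      match t with
      | 0 => exact ⟨rfl, h2⟩
      | t + 1 =>
        simp only [Lab.col]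
        exact hubLet_adj T _ _ _ _ _ _ _ t (by omega) h3
    | nm c' t' j =>
      obtain ⟨rfl, h2⟩ := h
      match t with
      | 0 => exact ⟨rfl, h2⟩
      | 1 =>
        simp only [Lab.col]
        rw [hubCol_zero, gadj]; simp [adj]
      | t + 2 =>
        simp only [Lab.col]
        exact HL_alt (by push_cast; omega) (hubCol_HL T (!c) σ (k + 1) (t + 1))
    | _ => exact absurd h (by simp [Lab.comp1])
  | letB c W τ j =>
    cases b with
    | letB c' W' τ' j' =>
      obtain ⟨rfl, rfl, rfl, h2⟩ := h
      simp only [Lab.col]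
      exact letLet_adj T _ _ _ _ _ _ _ t hk h2
    | _ => exact absurd h (by simp [Lab.comp1])
  | letM c t' W τ j =>
    cases b with
    | letM c' t'' W' τ' j' =>
      obtain ⟨rfl, rfl, rfl, rfl, h2⟩ := h
      match t with
      | 0 => rw [gadj]; simp [Lab.col, adj, h2]
      | t + 1 =>
        simp only [Lab.col]
        exact letLet_adj T _ _ _ _ _ _ _ t (by omega) h2
    | _ => exact absurd h (by simp [Lab.comp1])

end Labm

open Labm in
theorem LAB : LAB_stmt := by
  refine ⟨vert, ?_, ?_, ?_⟩
  · intro T a b k t _ _ h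
    rcases h with h | h
    · exact horiz T a b t (by omega) h
    · exact (horiz T b a t (by omega) h).symm
  · intro T a k t ht
    cases a with
    | om i =>
      match t with
      | 0 => omega
      | 1 => omega
      | t + 2 => rfl
    | del j =>
      match t with
      | 0 => omega
      | t + 1 => rfl
    | nb c x j =>
      match t with
      | 0 => omega
      | 1 => omega
      | t + 2 => rfl
    | nm c x j =>
      match t with
      | 0 => omega
      | 1 => omega
      | t + 2 => rfl
    | hubB c σ => simp only [Lab.col]; exact hubCol_late T c σ k t (by omega)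
    | hubM c s σ =>
      match t with
      | 0 => omega
      | t + 1 =>
        simp only [Lab.col]
        rw [hubCol_late T _ σ _ t (by omega)]
        exact alt_congr (by push_cast; omega)
    | letB c W τ j => simp only [Lab.col]; exact letCol_late T c W τ j k t (by omega)
    | letM c x W τ j =>
      match t with
      | 0 => omega
      | t + 1 =>
        simp only [Lab.col]
        rw [letCol_late T _ W τ j _ t (by omega)]
        exact alt_congr (by push_cast; omega)
  · intro T a k
    cases a with
    | hubB c σ => simp only [Lab.col, Lab.vtx]; exact hubCol_zero T c σ k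
    | letB c W τ j => simp only [Lab.col, Lab.vtx]; exact letCol_zero T c W τ j k
    | _ => rfl

end Pool.Agent.H26.Hom
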