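import Mathlib
import Pool.Agent.H26.Hom.Stmts

namespace Pool.Agent.H26.Hom

namespace Lbl

theorem gadj (u v : Vtx) : G.Adj u v ↔ adj u v := Iff.rfl

/-- position `k` is the left member of a pair of ends -/
def L (r : ℤ → Vtx) (k : ℤ) : Prop :=
  isHub (r k) = false ∧ isHub (r (k + 1)) = false ∧ coord (r k) ≠ coord (r (k + 1))

def w0 : Vtx → Letter
  | .eb _ x _ => x
  | .em _ t _ => t.top
  | _ => .dead

open Classical in
noncomputable def lab (r : ℤ → Vtx) (W : ℤ → ℕ → Letter) (τ : ℤ → ℕ → Trans) (σ : ℤ → ℕ → Sym)
    (k : ℤ) : Lab :=
  match r k with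
  | .om i => .om i
  | .del j => .del j
  | .hb c => .hubB c (σ k)
  | .hm c s => .hubM c s (σ k)
  | .eb c x j => if L r k then .letB c (W k) (τ k) j
      else if L r (k - 1) then .letB c (W (k - 1)) (τ (k - 1)) j else .nb c x j
  | .em c t j => if L r k then .letM c t (W k) (τ k) j
      else if L r (k - 1) then .letM c t (W (k - 1)) (τ (k - 1)) j else .nm c t j

/-- the structure: towers for the letters and symbols for the hubs -/
theorem main (T : ℕ) (r : ℤ → Vtx) (hr : IsWalk G r) (hN : Nice r) (W : ℤ → ℕ → Letter)
    (τ : ℤ → ℕ → Trans) (σ : ℤ → ℕ → Sym)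
    (hW : ∀ k, L r k → W k 0 = w0 (r k) ∧ TowerOK T (W k) (τ k))
    (h1 : ∀ k, L r (k + 1) → ∀ l < T, symOK (σ k l) (τ (k + 1) l) (coord (r (k + 1))))
    (h2 : ∀ k, L r (k - 2) → ∀ l < T, symOK (σ k l) (τ (k - 2) l) (coord (r (k - 1)))) :
    (∀ k, (lab r W τ σ k).vtx = r k) ∧ (∀ k, (lab r W τ σ k).valid T) ∧
      (∀ k, (lab r W τ σ k).compat T (lab r W τ σ (k + 1))) := by
  classical
  -- consequences of niceness
  have n1 : ∀ k, L r k → isHub (r (k - 1)) = true ∧ isHub (r (k + 2)) = true := by
    intro k h
    exact hN k h.1 h.2.1 h.2.2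
  have hsame : ∀ k, L r k → w0 (r k) = w0 (r (k + 1)) := by
    intro k h
    have ha := hr k
    rw [gadj] at ha
    obtain ⟨a1, a2, a3⟩ := h
    revert a1 a2 a3 ha
    cases r k <;> cases r (k + 1) <;> simp only [adj, isHub, coord, w0] <;> grind
  have hW' : ∀ k, L r (k - 1) → W (k - 1) 0 = w0 (r k) ∧ TowerOK T (W (k - 1)) (τ (k - 1)) := by
    intro k h
    have := hsame (k - 1) h
    rw [sub_add_cancel] at this
    rw [← this]
    exact hW (k - 1) h
  have hL1 : ∀ k, L r (k - 1) → isHub (r k) = false := by
    intro k h
    have := h.2.1
    rwa [sub_add_cancel] at this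
  refine ⟨?_, ?_, ?_⟩
  · intro k
    unfold lab
    cases hk : r k with
    | eb c x j =>
      simp only
      split
      · rename_i h
        have := (hW k h).1
        rw [hk] at this
        simp only [w0] at this
        simp only [Lab.vtx, this]
      · split
        · rename_i h
          have := (hW' k h).1
          rw [hk] at this
          simp only [w0] at this
          simp only [Lab.vtx, this]
        · rfl
    | em c x j =>
      simp only
      split
      · rfl
      · split
        · rfl
        · rfl
    | _ => rfl
  · intro k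
    unfold lab
    cases hk : r k with
    | eb c x j =>
      simp only
      split
      · rename_i h
        exact (hW k h).2
      · split
        · rename_i h
          exact (hW' k h).2
        · trivial
    | em c x j =>
      simp only
      split
      · rename_i h
        have := (hW k h).1
        rw [hk] at this
        simp only [w0] at this
        exact ⟨this.symm, (hW k h).2⟩
      · split
        · rename_i h
          have := (hW' k h).1
          rw [hk] at this
          simp only [w0] at this
          exact ⟨this.symm, (hW' k h).2⟩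
        · trivial
    | _ => trivial
  · intro k
    have ha := hr k
    rw [gadj] at ha
    have e0 : k + 1 - 1 = k := by ring
    have e2 : k + 1 - 2 = k - 1 := by ring
    have e3 : k - 1 + 2 = k + 1 := by ring
    have e4 : k + 1 + 1 = k + 2 := by ring
    -- exclusions
    have x1 : L r k → ¬ L r (k + 1) := by
      intro h h'
      have := (n1 (k + 1) h').1
      rw [e0, h.1] at this
      exact Bool.noConfusion this
    have x2 : isHub (r (k + 1)) = false → ¬ L r (k - 1) := by
      intro h h'
      have := (n1 (k - 1) h').2
      rw [e3, h] at this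
      exact Bool.noConfusion this
    have x3 : isHub (r k) = false → ¬ L r (k + 1) := by
      intro h h'
      have := (n1 (k + 1) h').1
      rw [e0, h] at this
      exact Bool.noConfusion this
    have y1 : isHub (r k) = true → ¬ L r k := by
      intro h h'
      rw [h'.1] at h; exact Bool.noConfusion h
    have y2 : isHub (r (k + 1)) = true → ¬ L r k := by
      intro h h'
      rw [h'.2.1] at h; exact Bool.noConfusion h
    have y3 : isHub (r (k + 1)) = true → ¬ L r (k + 1) := by
      intro h h'
      rw [h'.1] at h; exact Bool.noConfusion h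
    have s1 := h1 k
    have s2 := h2 (k + 1)
    rw [e2, e0] at s2
    unfold lab
    rw [e0]
    unfold Lab.compat
    cases hk : r k <;> cases hk1 : r (k + 1) <;> rw [hk, hk1] at ha <;>
      (try exact False.elim ha) <;> (try simp only)
    case om.om => left; exact ha
    case om.del => left; trivial
    case om.hb => left; trivial
    case om.hm => left; trivial
    case del.om => right; trivial
    case hb.om => right; trivial
    case hm.om => right; trivial
    case del.del => left; exact ha
    case hb.hm => left; trivial
    case hm.hb => right; trivial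
    case del.eb j c x j' =>
      have g1 : ¬ L r (k + 1) := x3 (by rw [hk]; rfl)
      have g2 : ¬ L r k := by
        intro h
        have := h.2.2
        rw [hk, hk1] at this
        exact this ha.1
      rw [if_neg g1, if_neg g2]
      left; exact ha
    case eb.del c x j' j =>
      have g1 : ¬ L r (k - 1) := x2 (by rw [hk1]; rfl)
      have g2 : ¬ L r k := by
        intro h
        have := h.2.2
        rw [hk, hk1] at this
        exact this ha.1.symm
      rw [if_neg g2, if_neg g1]
      right; exact ha
    case eb.em c x j c' t j' =>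
      have g0 : ¬ L r k := by
        intro h
        have := h.2.2
        rw [hk, hk1] at this
        exact this ha.1
      have g1 : ¬ L r (k - 1) := x2 (by rw [hk1]; rfl)
      have g2 : ¬ L r (k + 1) := x3 (by rw [hk]; rfl)
      rw [if_neg g0, if_neg g1, if_neg g2, if_neg g0]
      left; exact ha
    case em.eb c' t j' c x j =>
      have g0 : ¬ L r k := by
        intro h
        have := h.2.2
        rw [hk, hk1] at this
        exact this ha.1.symm
      have g1 : ¬ L r (k - 1) := x2 (by rw [hk1]; rfl)
      have g2 : ¬ L r (k + 1) := x3 (by rw [hk]; rfl)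
      rw [if_neg g0, if_neg g1, if_neg g2, if_neg g0]
      right; exact ha
    case eb.eb c x j c' x' j' =>
      have g0 : L r k := by
        refine ⟨by rw [hk]; rfl, by rw [hk1]; rfl, ?_⟩
        rw [hk, hk1]; exact ha.2.2
      rw [if_pos g0, if_neg (x1 g0), if_pos g0]
      left; exact ⟨ha.1, rfl, rfl, ha.2.2⟩
    case em.em c x j c' x' j' =>
      have g0 : L r k := by
        refine ⟨by rw [hk]; rfl, by rw [hk1]; rfl, ?_⟩
        rw [hk, hk1]; exact ha.2.2
      rw [if_pos g0, if_neg (x1 g0), if_pos g0]
      left; exact ⟨ha.1, ha.2.1, rfl, rfl, ha.2.2⟩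
    case hb.eb c c' x j =>
      have g0 : ¬ L r k := y1 (by rw [hk]; rfl)
      by_cases g1 : L r (k + 1)
      · rw [if_pos g1]
        left
        refine ⟨ha, fun l hl => ?_⟩
        have := s1 g1 l hl
        rw [hk1] at this
        exact this
      · rw [if_neg g1, if_neg g0]
        left; exact ha
    case eb.hb c' x j c =>
      have g0 : ¬ L r k := y2 (by rw [hk1]; rfl)
      rw [if_neg g0]
      by_cases g1 : L r (k - 1)
      · rw [if_pos g1]
        right
        refine ⟨ha, fun l hl => ?_⟩
        have := s2 g1 l hl
        rw [hk] at this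
        exact this
      · rw [if_neg g1]
        right; exact ha
    case hm.em c s c' t j =>
      have g0 : ¬ L r k := y1 (by rw [hk]; rfl)
      by_cases g1 : L r (k + 1)
      · rw [if_pos g1]
        left
        refine ⟨ha.1, ha.2, fun l hl => ?_⟩
        have := s1 g1 l hl
        rw [hk1] at this
        exact this
      · rw [if_neg g1, if_neg g0]
        left; exact ha
    case em.hm c' t j c s =>
      have g0 : ¬ L r k := y2 (by rw [hk1]; rfl)
      rw [if_neg g0]
      by_cases g1 : L r (k - 1)
      · rw [if_pos g1]
        right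
        refine ⟨ha.1, ha.2, fun l hl => ?_⟩
        have := s2 g1 l hl
        rw [hk] at this
        exact this
      · rw [if_neg g1]
        right; exact ha

end Lbl

open Lbl in
theorem LABEL : LABEL_stmt := by
  classical
  rintro hSEL T r hr hN ⟨S, hS, hSr⟩
  -- the two families of letters
  set S₁ : Finset ℤ := S.filter (fun k => L r k ∧ coord (r k) = false) with hS₁
  set S₂ : Finset ℤ := (S.filter (fun k => L r k ∧ coord (r k) = true)).image (fun k => -k) with hS₂
  have c₁ : S₁.card < nT T := lt_of_le_of_lt (Finset.card_filter_le _ _) hS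
  have c₂ : S₂.card < nT T :=
    lt_of_le_of_lt (Finset.card_image_le.trans (Finset.card_filter_le _ _)) hS
  obtain ⟨W₁, τ₁, h1, h1'⟩ := hSEL T S₁ (fun k => w0 (r k)) c₁
  obtain ⟨W₂, τ₂, h2, h2'⟩ := hSEL T S₂ (fun k => w0 (r (-k))) c₂
  have m₁ : ∀ k, L r k → coord (r k) = false → k ∈ S₁ := by
    intro k h h'
    rw [hS₁, Finset.mem_filter]
    exact ⟨hSr k h.1, h, h'⟩
  have m₂ : ∀ k, L r k → coord (r k) = true → -k ∈ S₂ := by
    intro k h h'
    rw [hS₂, Finset.mem_image]
    exact ⟨k, by rw [Finset.mem_filter]; exact ⟨hSr k h.1, h, h'⟩, rfl⟩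
  set W : ℤ → ℕ → Letter := fun k => if coord (r k) = false then W₁ k else W₂ (-k) with hWd
  set τ : ℤ → ℕ → Trans := fun k => if coord (r k) = false then τ₁ k else τ₂ (-k) with hτd
  set σ : ℤ → ℕ → Sym := fun k l =>
    if L r (k - 2) then
      (if L r (k + 1) ∧ coord (r (k - 1)) ≠ coord (r (k + 1)) then
        .inl ((τ (k + 1) l).side (coord (r (k + 1)))) else .inr (coord (r (k - 1))))
    else .inr (coord (r (k + 1))) with hσd
  refine ⟨lab r W τ σ, main T r hr hN W τ σ ?_ ?_ ?_⟩
  · intro k hk
    by_cases hc : coord (r k) = false
    · simp only [hWd, hτd, if_pos hc]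
      exact h1 k (m₁ k hk hc)
    · have hc' : coord (r k) = true := by simpa using hc
      simp only [hWd, hτd, if_neg hc]
      have := h2 (-k) (m₂ k hk hc')
      rw [neg_neg] at this
      exact this
  · intro k hk l _
    simp only [hσd]
    by_cases g1 : L r (k - 2)
    · rw [if_pos g1]
      by_cases g2 : coord (r (k - 1)) ≠ coord (r (k + 1))
      · have g3 : L r (k + 1) ∧ coord (r (k - 1)) ≠ coord (r (k + 1)) := ⟨hk, g2⟩
        rw [if_pos g3]
        left; rfl
      · have g3 : ¬ (L r (k + 1) ∧ coord (r (k - 1)) ≠ coord (r (k + 1))) := fun h => g2 h.2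
        rw [if_neg g3]
        right
        have : coord (r (k - 1)) = coord (r (k + 1)) := not_not.1 g2
        rw [this]
    · rw [if_neg g1]; right; rfl
  · intro k hk l hl
    simp only [hσd]
    rw [if_pos hk]
    by_cases g : L r (k + 1) ∧ coord (r (k - 1)) ≠ coord (r (k + 1))
    · rw [if_pos g]
      left
      obtain ⟨g1, g2⟩ := g
      have g3 := hk.2.2
      have e1 : k - 2 + 1 = k - 1 := by ring
      rw [e1] at g3
      have g4 : coord (r (k + 1)) = coord (r (k - 2)) := by
        revert g2 g3
        cases coord (r (k - 1)) <;> cases coord (r (k + 1)) <;> cases coord (r (k - 2)) <;> simp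
      congr 1
      by_cases hc : coord (r (k - 2)) = false
      · have hc1 : coord (r (k + 1)) = false := by rw [g4]; exact hc
        have hc2 : coord (r (k - 1)) = true := by
          rw [hc] at g3; simpa using g3.symm
        simp only [hτd]
        rw [if_pos hc, if_pos hc1, hc1, hc2]
        have ha := m₁ _ hk hc
        have hb := m₁ _ g1 hc1
        have e2 : k - 2 + 3 = k + 1 := by ring
        have := h1' (k - 2) ha (by rw [e2]; exact hb) l hl
        rw [e2] at this
        simp only [Trans.side]
        exact this.symm
      · have hc' : coord (r (k - 2)) = true := by simpa using hc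
        have hc1 : coord (r (k + 1)) = true := by rw [g4]; exact hc'
        have hc2 : coord (r (k - 1)) = false := by
          rw [hc'] at g3; simpa using g3.symm
        simp only [hτd]
        have hc1' : ¬ coord (r (k + 1)) = false := by rw [hc1]; simp
        rw [if_neg hc, if_neg hc1', hc1, hc2]
        have ha := m₂ _ hk hc'
        have hb := m₂ _ g1 hc1
        have e2 : -(k + 1) + 3 = -(k - 2) := by ring
        have := h2' (-(k + 1)) hb (by rw [e2]; exact ha) l hl
        rw [e2] at this
        simp only [Trans.side]
        exact this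
    · rw [if_neg g]; right; rfl

end Pool.Agent.H26.Hom
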