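import Mathlib
import Pool.Agent.H26.Hom.Stmts

namespace Pool.Agent.H26.Hom

namespace Normm

theorem gadj (u v : Vtx) : G.Adj u v ↔ adj u v := Iff.rfl

/-- the own hub of an end -/
def own : Vtx → Vtx
  | .del _ => .om 0
  | .eb c _ _ => .hb c
  | .em c _ j => .hm c (.inr j)
  | v => v

/-- the partner of an end -/
def partner : Vtx → Vtx
  | .del j => .del (!j)
  | .eb c x j => .eb c x (!j)
  | .em c t j => .em c t (!j)
  | v => v

theorem own_hub {v : Vtx} (_ : isHub v = false) : isHub (own v) = true := by
  cases v <;> simp_all [own, isHub]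

theorem partner_end {v : Vtx} (h : isHub v = false) : isHub (partner v) = false := by
  cases v <;> simp_all [partner, isHub]

theorem partner_coord {v : Vtx} (h : isHub v = false) : coord (partner v) = !coord v := by
  cases v <;> simp_all [partner, isHub, coord]

theorem own_adj {v : Vtx} (h : isHub v = false) : G.Adj (own v) v := by
  rw [gadj]
  cases v <;> simp_all [own, isHub, adj, symOK]

theorem partner_adj {v : Vtx} (h : isHub v = false) : G.Adj (partner v) v := by
  rw [gadj]
  cases v <;> simp_all [partner, isHub, adj]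

theorem eq_partner {u v : Vtx} (hu : isHub u = false) (hv : isHub v = false) (h : G.Adj u v)
    (hc : coord u ≠ coord v) : partner u = v := by
  have hb : ∀ a b : Bool, a ≠ b → (!a) = b := by decide
  have hcc := hb _ _ hc
  rw [gadj] at h
  cases u <;> cases v <;> simp only [adj, isHub, coord, partner] at * <;> grind

theorem own_own {u v : Vtx} (hu : isHub u = false) (hv : isHub v = false) (h : G.Adj u v)
    (hc : coord u = coord v) : G.Adj (own u) (own v) := by
  rw [gadj] at *
  cases u <;> cases v <;> simp only [adj, isHub, coord, own] at * <;> grind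

theorem own_hub_adj {u v w : Vtx} (hu : isHub u = false) (hv : isHub v = false) (h : G.Adj u v)
    (hc : coord u = coord v) (hw : isHub w = true) (hvw : G.Adj v w) : G.Adj (own u) w := by
  rw [gadj] at *
  cases u <;> cases v <;> simp only [adj, isHub, coord, own] at * <;>
    cases w <;> simp only [adj, isHub] at * <;> grind

theorem partner_partner {u v : Vtx} (hu : isHub u = false) (hv : isHub v = false)
    (h : G.Adj u v) (hc : coord u = coord v) : G.Adj (partner u) (partner v) := by
  rw [gadj] at *
  cases u <;> cases v <;> simp only [adj, isHub, coord, partner] at * <;> grind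

theorem partner_inv (v : Vtx) : partner (partner v) = v := by
  cases v <;> simp [partner]

end Normm

open Normm in
theorem NORM : NORM_stmt := by
  classical
  rintro p hp ⟨M, hM⟩
  -- the last coordinate of the block
  have hex : ∀ k : ℤ, ∃ n : ℕ, isHub (p (k + n + 1)) = true := by
    intro k
    refine ⟨(|M| + |k|).toNat, hM _ ?_⟩
    have h1 : 0 ≤ |M| + |k| := by positivity
    rw [Int.toNat_of_nonneg h1]
    have h2 := neg_abs_le k
    have h3 := le_abs_self M
    have h4 : M ≤ k + (|M| + |k|) + 1 := by linarith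
    exact h4.trans (le_abs_self _)
  obtain ⟨J, hJ1, hJ2⟩ : ∃ J : ℤ → Bool, (∀ k, isHub (p (k + 1)) = true → J k = coord (p k)) ∧
      (∀ k, isHub (p (k + 1)) = false → J k = J (k + 1)) := by
    refine ⟨fun k => coord (p (k + (Nat.find (hex k) : ℕ))), ?_, ?_⟩
    · intro k hk
      have h1 : Nat.find (hex k) = 0 := by
        rw [Nat.find_eq_zero]; simpa using hk
      simp only [h1]; simp
    · intro k hk
      have h1 : Nat.find (hex k) = Nat.find (hex (k + 1)) + 1 := by
        rw [Nat.find_eq_iff]
        constructor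
        · have := Nat.find_spec (hex (k + 1))
          have e : k + ((Nat.find (hex (k + 1)) + 1 : ℕ) : ℤ) + 1 =
            k + 1 + (Nat.find (hex (k + 1)) : ℕ) + 1 := by push_cast; ring
          rw [e]; exact this
        · intro n hn
          cases n with
          | zero => simpa using hk
          | succ n =>
            have := Nat.find_min (hex (k + 1)) (m := n) (by omega)
            have e : k + ((n + 1 : ℕ) : ℤ) + 1 = k + 1 + (n : ℕ) + 1 := by push_cast; ring
            rw [e]; exact this
      simp only [h1]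
      congr 2
      push_cast; ring
  -- the region
  obtain ⟨A, hA⟩ : ∃ A : ℤ → Prop, ∀ k, A k ↔ (isHub (p k) = false ∧
      (coord (p k) = J k ∨ A (k - 1))) := by
    refine ⟨fun k => ∃ m ≤ k, (∀ i, m ≤ i → i ≤ k → isHub (p i) = false) ∧ coord (p m) = J k, ?_⟩
    intro k
    constructor
    · rintro ⟨m, hm, h1, h2⟩
      refine ⟨h1 k hm le_rfl, ?_⟩
      rcases eq_or_lt_of_le hm with h3 | h3
      · left; rw [← h3] at h2 ⊢; exact h2
      · right
        refine ⟨m, by omega, fun i hi hi' => h1 i hi (by omega), ?_⟩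
        rw [h2]
        have h4 : isHub (p (k - 1 + 1)) = false := by
          rw [sub_add_cancel]; exact h1 k hm le_rfl
        have := hJ2 (k - 1) h4
        rw [this, sub_add_cancel]
    · rintro ⟨h1, h2 | ⟨m, hm, h3, h4⟩⟩
      · refine ⟨k, le_rfl, fun i hi hi' => ?_, h2⟩
        obtain rfl : i = k := by omega
        exact h1
      · refine ⟨m, by omega, fun i hi hi' => ?_, ?_⟩
        · rcases eq_or_lt_of_le hi' with h5 | h5
          · rw [h5]; exact h1
          · exact h3 i hi (by omega)
        · rw [h4]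
          have h5 : isHub (p (k - 1 + 1)) = false := by rw [sub_add_cancel]; exact h1
          have := hJ2 (k - 1) h5
          rw [this, sub_add_cancel]
  have hAend : ∀ k, A k → isHub (p k) = false := fun k h => ((hA k).1 h).1
  have hAsucc : ∀ k, A k → isHub (p (k + 1)) = false → A (k + 1) := by
    intro k h1 h2
    rw [hA]; refine ⟨h2, Or.inr ?_⟩
    rw [add_sub_cancel_right]; exact h1
  -- y1
  obtain ⟨y₁, hy₁⟩ : ∃ y₁ : ℤ → Vtx, ∀ k, y₁ k =
      if isHub (p (k + 1)) = false ∧ A k then
        (if coord (p k) = J k then own (p k) else partner (p k)) else p (k + 1) :=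
    ⟨_, fun k => rfl⟩
  have hw1 : IsWalk G y₁ := by
    intro k
    have e : k + 1 + 1 = k + 2 := by ring
    rw [hy₁ k, hy₁ (k + 1), e]
    have huv := hp k
    have hvw := hp (k + 1)
    rw [e] at hvw
    by_cases h1 : isHub (p (k + 1)) = false ∧ A k
    · have hu := hAend k h1.2
      have hA1 := hAsucc k h1.2 h1.1
      have hJk : J k = J (k + 1) := hJ2 k h1.1
      rw [if_pos h1]
      by_cases h2 : isHub (p (k + 2)) = false
      · have hc2 : isHub (p (k + 2)) = false ∧ A (k + 1) := ⟨h2, hA1⟩
        rw [if_pos hc2]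
        by_cases h3 : coord (p k) = J k
        · by_cases h4 : coord (p (k + 1)) = J (k + 1)
          · rw [if_pos h3, if_pos h4]
            exact own_own hu h1.1 huv (by rw [h3, h4, hJk])
          · rw [if_pos h3, if_neg h4]
            have h5 : coord (p (k + 1)) ≠ coord (p k) := by
              intro h; rw [h, h3, hJk] at h4; exact h4 rfl
            rw [eq_partner h1.1 hu huv.symm h5]
            exact own_adj hu
        · by_cases h4 : coord (p (k + 1)) = J (k + 1)
          · rw [if_neg h3, if_pos h4]
            have h5 : coord (p k) ≠ coord (p (k + 1)) := by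
              intro h; rw [h, h4, hJk] at h3; exact h3 rfl
            rw [eq_partner hu h1.1 huv h5]
            exact (own_adj h1.1).symm
          · rw [if_neg h3, if_neg h4]
            refine partner_partner hu h1.1 huv ?_
            rw [← hJk] at h4
            revert h3 h4
            cases coord (p k) <;> cases coord (p (k + 1)) <;> cases J k <;> simp
      · have h2' : isHub (p (k + 2)) = true := by simpa using h2
        have hc2 : ¬ (isHub (p (k + 2)) = false ∧ A (k + 1)) := fun h => h2 h.1
        rw [if_neg hc2]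
        have h3 : J (k + 1) = coord (p (k + 1)) := hJ1 (k + 1) (by rw [e]; exact h2')
        by_cases h4 : coord (p k) = J k
        · rw [if_pos h4]
          exact own_hub_adj hu h1.1 huv (by rw [h4, hJk, h3]) h2' hvw
        · rw [if_neg h4]
          have h5 : coord (p k) ≠ coord (p (k + 1)) := by
            intro h; rw [h, ← h3, hJk] at h4; exact h4 rfl
          rw [eq_partner hu h1.1 huv h5]
          exact hvw
    · rw [if_neg h1]
      by_cases h2 : isHub (p (k + 2)) = false ∧ A (k + 1)
      · rw [if_pos h2]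
        have hv := hAend (k + 1) h2.2
        split
        · exact (own_adj hv).symm
        · exact (partner_adj hv).symm
      · rw [if_neg h2]; exact hvw
  have hv1 : VAdj G p y₁ := by
    intro k
    rw [hy₁ k]
    split
    · rename_i h
      have hu := hAend k h.2
      split
      · exact (own_adj hu).symm
      · exact (partner_adj hu).symm
    · exact hp k
  -- y2
  obtain ⟨y₂, hy₂⟩ : ∃ y₂ : ℤ → Vtx, ∀ k, y₂ k = y₁ (k - 1) := ⟨_, fun k => rfl⟩
  have hy₂' : ∀ k, y₂ (k + 1) = y₁ k := by intro k; rw [hy₂, add_sub_cancel_right]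
  have hw2 : IsWalk G y₂ := by
    intro k
    rw [hy₂ k, hy₂' k]
    have := hw1 (k - 1)
    rwa [sub_add_cancel] at this
  have hv2 : VAdj G y₁ y₂ := by
    intro k
    rw [hy₂ k]
    have := hw1 (k - 1)
    rw [sub_add_cancel] at this
    exact this.symm
  have hf2 : ∀ k, y₂ k = if isHub (p k) = false ∧ A (k - 1) then
        (if coord (p (k - 1)) = J (k - 1) then own (p (k - 1)) else partner (p (k - 1)))
        else p k := by
    intro k
    rw [hy₂, hy₁, sub_add_cancel]
  have hP0 : ∀ k, isHub (p k) = true → y₂ k = p k := by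
    intro k hk
    rw [hf2, if_neg]
    rintro ⟨h, -⟩
    rw [h] at hk; exact Bool.noConfusion hk
  have hP0' : ∀ k, isHub (y₂ k) = false → isHub (p k) = false := by
    intro k hk
    by_contra h
    have h' : isHub (p k) = true := by simpa using h
    rw [hP0 k h'] at hk
    exact h hk
  have hJ3 : ∀ k, isHub (p k) = false → J (k - 1) = J k := by
    intro k hk
    have := hJ2 (k - 1) (by rw [sub_add_cancel]; exact hk)
    rwa [sub_add_cancel] at this
  -- an end of y2 whose coordinate is not J
  have hQ : ∀ k, isHub (y₂ k) = false → coord (y₂ k) ≠ J k → y₂ k = p k ∧ ¬ A k := by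
    intro k hk hc
    have hpk := hP0' k hk
    have h1 : ¬ A (k - 1) := by
      intro h
      have hu := hAend _ h
      have hc2 : isHub (p k) = false ∧ A (k - 1) := ⟨hpk, h⟩
      rw [hf2, if_pos hc2] at hk hc
      by_cases h3 : coord (p (k - 1)) = J (k - 1)
      · rw [if_pos h3, own_hub hu] at hk
        exact Bool.noConfusion hk
      · rw [if_neg h3, partner_coord hu] at hc
        rw [hJ3 k hpk] at h3
        revert h3 hc
        cases coord (p (k - 1)) <;> cases J k <;> simp
    have h2 : y₂ k = p k := by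
      rw [hf2, if_neg]
      exact fun h => h1 h.2
    refine ⟨h2, fun h => ?_⟩
    rw [hA] at h
    rcases h.2 with h3 | h3
    · rw [h2] at hc; exact hc h3
    · exact h1 h3
  have hP1 : ∀ k, isHub (y₂ k) = false → coord (y₂ k) ≠ J k →
      isHub (y₂ (k + 1)) = false ∧ J k = J (k + 1) ∧ y₂ (k + 1) = p (k + 1) := by
    intro k hk hc
    obtain ⟨h1, h2⟩ := hQ k hk hc
    have h3 : isHub (p (k + 1)) = false := by
      by_contra h
      have h' : isHub (p (k + 1)) = true := by simpa using h
      rw [h1] at hc
      exact hc (hJ1 k h').symm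
    have h4 : y₂ (k + 1) = p (k + 1) := by
      rw [hf2, if_neg]
      rintro ⟨-, h⟩
      rw [add_sub_cancel_right] at h
      exact h2 h
    exact ⟨by rw [h4]; exact h3, hJ2 k h3, h4⟩
  have hP2 : ∀ k, isHub (y₂ k) = false → isHub (y₂ (k + 1)) = false →
      coord (y₂ (k + 1)) ≠ J (k + 1) → coord (y₂ k) ≠ J k := by
    intro k h1 h2 h3 h4
    obtain ⟨h5, h6⟩ := hQ (k + 1) h2 h3
    have hp1 := hP0' _ h2
    have hpk := hP0' _ h1
    have h7 : ¬ A k := fun h => h6 (hAsucc k h hp1)
    have h8 : ¬ A (k - 1) := by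
      intro h
      apply h7
      have := hAsucc (k - 1) h (by rw [sub_add_cancel]; exact hpk)
      rwa [sub_add_cancel] at this
    have h9 : y₂ k = p k := by
      rw [hf2, if_neg]
      exact fun h => h8 h.2
    apply h7
    rw [hA]
    exact ⟨hpk, Or.inl (by rw [← h9]; exact h4)⟩
  have hP3 : ∀ k, isHub (y₂ k) = false → coord (y₂ k) ≠ J k → coord (y₂ (k + 1)) = J (k + 1) →
      isHub (y₂ (k + 2)) = true := by
    intro k h1 h2 h3
    obtain ⟨h4, h5, h6⟩ := hP1 k h1 h2
    rw [h6] at h3 h4
    have h7 : A (k + 1) := by rw [hA]; exact ⟨h4, Or.inl h3⟩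
    by_cases h8 : isHub (p (k + 2)) = true
    · rw [hP0 _ h8]; exact h8
    · have h8' : isHub (p (k + 2)) = false := by simpa using h8
      have e : k + 2 - 1 = k + 1 := by ring
      have hc2 : isHub (p (k + 2)) = false ∧ A (k + 1) := ⟨h8', h7⟩
      rw [hf2, e, if_pos hc2, if_pos h3]
      exact own_hub h4
  -- y3
  obtain ⟨y₃, hy₃⟩ : ∃ y₃ : ℤ → Vtx, ∀ k, y₃ k =
      if isHub (y₂ k) = false ∧ isHub (y₂ (k - 1)) = false ∧ coord (y₂ k) ≠ J k then own (y₂ k)
      else y₂ (k - 1) := ⟨_, fun k => rfl⟩
  have hy₃' : ∀ k, y₃ (k + 1) =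
      if isHub (y₂ (k + 1)) = false ∧ isHub (y₂ k) = false ∧ coord (y₂ (k + 1)) ≠ J (k + 1) then
        own (y₂ (k + 1)) else y₂ k := by
    intro k; rw [hy₃, add_sub_cancel_right]
  have hw2' : ∀ k, G.Adj (y₂ (k - 1)) (y₂ k) := by
    intro k
    have := hw2 (k - 1)
    rwa [sub_add_cancel] at this
  have hw3 : IsWalk G y₃ := by
    intro k
    rw [hy₃ k, hy₃' k]
    by_cases h1 : isHub (y₂ k) = false ∧ isHub (y₂ (k - 1)) = false ∧ coord (y₂ k) ≠ J k
    · rw [if_pos h1]
      by_cases h2 : isHub (y₂ (k + 1)) = false ∧ isHub (y₂ k) = false ∧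
          coord (y₂ (k + 1)) ≠ J (k + 1)
      · rw [if_pos h2]
        obtain ⟨-, h3, -⟩ := hP1 k h1.1 h1.2.2
        refine own_own h1.1 h2.1 (hw2 k) ?_
        have h4 := h1.2.2
        have h5 := h2.2.2
        rw [← h3] at h5
        revert h4 h5
        cases coord (y₂ k) <;> cases coord (y₂ (k + 1)) <;> cases J k <;> simp
      · rw [if_neg h2]; exact own_adj h1.1
    · rw [if_neg h1]
      by_cases h2 : isHub (y₂ (k + 1)) = false ∧ isHub (y₂ k) = false ∧
          coord (y₂ (k + 1)) ≠ J (k + 1)
      · rw [if_pos h2]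
        have h3 := hP2 k h2.2.1 h2.1 h2.2.2
        obtain ⟨-, h4, -⟩ := hP1 k h2.2.1 h3
        have h5 : isHub (y₂ (k - 1)) = true := by
          by_contra h
          exact h1 ⟨h2.2.1, by simpa using h, h3⟩
        refine (own_hub_adj h2.1 h2.2.1 (hw2 k).symm ?_ h5 (hw2' k).symm).symm
        have h6 := h2.2.2
        rw [← h4] at h6
        revert h3 h6
        cases coord (y₂ k) <;> cases coord (y₂ (k + 1)) <;> cases J k <;> simp
      · rw [if_neg h2]; exact hw2' k
  have hv3 : VAdj G y₂ y₃ := by
    intro k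
    rw [hy₃ k]
    split
    · rename_i h; exact (own_adj h.1).symm
    · exact (hw2' k).symm
  -- r
  refine ⟨y₁, y₂, y₃, fun k => y₃ (k + 1), hw1, hw2, hw3, fun k => hw3 (k + 1), hv1, hv2, hv3,
    fun k => hw3 k, ?_, ?_⟩
  · -- nice
    intro k h1 h2 h3
    simp only at h1 h2 h3 ⊢
    have hr : ∀ k, isHub (y₃ (k + 1)) = false → y₃ (k + 1) = y₂ k ∧
        ¬ (isHub (y₂ (k + 1)) = false ∧ isHub (y₂ k) = false ∧ coord (y₂ (k + 1)) ≠ J (k + 1)) := by
      intro k hk
      rw [hy₃'] at hk ⊢
      by_cases h : isHub (y₂ (k + 1)) = false ∧ isHub (y₂ k) = false ∧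
          coord (y₂ (k + 1)) ≠ J (k + 1)
      · rw [if_pos h, own_hub h.1] at hk
        exact Bool.noConfusion hk
      · rw [if_neg h]; exact ⟨rfl, h⟩
    obtain ⟨e1, n1⟩ := hr k h1
    obtain ⟨e2, n2⟩ := hr (k + 1) h2
    rw [e1] at h1 h3
    rw [e2] at h2 h3
    have c1 : coord (y₂ (k + 1)) = J (k + 1) := by
      by_contra h
      exact n1 ⟨h2, h1, h⟩
    have hpk1 := hP0' _ h2
    have hJk : J k = J (k + 1) := hJ2 k hpk1
    have c0 : coord (y₂ k) ≠ J k := by
      intro h
      apply h3
      rw [h, c1, hJk]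
    constructor
    · have e3 : k - 1 + 1 = k := by ring
      rw [e3, hy₃ k]
      split
      · rename_i h; exact own_hub h.1
      · rename_i h
        by_contra h'
        exact h ⟨h1, by simpa using h', c0⟩
    · have h4 := hP3 k h1 c0 c1
      rw [hy₃' (k + 2)]
      split
      · rename_i h; exact own_hub h.1
      · exact h4
  · intro k hk
    simp only
    rw [hy₃', if_neg]
    · exact hP0 k hk
    · rintro ⟨-, h, -⟩
      rw [hP0 k hk, hk] at h
      exact Bool.noConfusion h

end Pool.Agent.H26.Hom
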