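import Pool.Agent.H26.Hom.Stmts

/-!
Above a tight row, a large window is uniform.
-/

namespace Pool.Agent.H26.Hom

theorem TIGHT : TIGHT_stmt := by
  intro V G x y lo hi L hL ht hh hv
  -- down-closed
  have down : ∀ n : ℕ, ∀ k : ℤ, k < hi → y k = x (k + 1) → lo < k - n →
      y (k - n) = x (k - n + 1) := by
    intro n
    induction n with
    | zero => intro k _ h _; simpa using h
    | succ n ih =>
      intro k hk h hlo
      push_cast at hlo ⊢
      have h1 := ih k hk h (by omega)
      have h2 := ht (k - n) (by omega) (by omega)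
      have h3 := hh (k - n - 1) (by omega) (by omega)
      have h4 := hv (k - n - 1) (by omega) (by omega)
      have e1 : k - n - 1 + 1 = k - n := by ring
      rw [e1, h1] at h3
      have := h2.2 _ h4 h3
      have e2 : k - (n + 1 : ℤ) = k - n - 1 := by ring
      rw [e2, e1]
      exact this
  have up : ∀ n : ℕ, ∀ k : ℤ, lo < k → y k = x (k - 1) → k + n < hi →
      y (k + n) = x (k + n - 1) := by
    intro n
    induction n with
    | zero => intro k _ h _; simpa using h
    | succ n ih =>
      intro k hk h hhi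
      push_cast at hhi ⊢
      have h1 := ih k hk h (by omega)
      have h2 := ht (k + n) (by omega) (by omega)
      have h3 := hh (k + n) (by omega) (by omega)
      have h4 := hv (k + n + 1) (by omega) (by omega)
      rw [h1] at h3
      have := h2.2 _ h3 h4.symm
      have e2 : k + (n + 1 : ℤ) = k + n + 1 := by ring
      have e3 : k + (n : ℤ) + 1 - 1 = k + n := by ring
      rw [e2, e3]
      exact this
  by_cases hF : ∃ k, lo + 1 + L ≤ k ∧ k < hi ∧ y k = x (k + 1)
  · obtain ⟨k, hk1, hk2, hk3⟩ := hF
    refine ⟨lo + 1, lo + 1 + L, by omega, by omega, by omega, Or.inl fun j hj1 hj2 => ?_⟩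
    obtain ⟨n, hn⟩ := Int.eq_ofNat_of_zero_le (show 0 ≤ k - j by omega)
    have := down n k hk2 hk3 (by omega)
    have e : k - (n : ℤ) = j := by rw [← hn]; ring
    rwa [e] at this
  · by_cases hB : ∃ k, lo < k ∧ k ≤ hi - 1 - L ∧ y k = x (k - 1)
    · obtain ⟨k, hk1, hk2, hk3⟩ := hB
      refine ⟨hi - 1 - L, hi - 1, by omega, by omega, by omega,
        Or.inr (Or.inl fun j hj1 hj2 => ?_)⟩
      obtain ⟨n, hn⟩ := Int.eq_ofNat_of_zero_le (show 0 ≤ j - k by omega)
      have := up n k hk1 hk3 (by omega)
      have e : k + (n : ℤ) = j := by rw [← hn]; ring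
      rwa [e] at this
    · refine ⟨lo + 1 + L, hi - 1 - L, by omega, by omega, by omega,
        Or.inr (Or.inr fun j hj1 hj2 => ⟨fun h => ?_, fun h => ?_⟩)⟩
      · exact hB ⟨j, by omega, hj2, h⟩
      · exact hF ⟨j, hj1, by omega, h⟩

end Pool.Agent.H26.Hom
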