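import Pool.Agent.H26.Hom.Stmts

set_option autoImplicit false

namespace Pool.Agent.H26.Hom.Word

/-- a transition -/
def mk (s : State) (x : Letter) (s' : State) (h : okT s x s' = true) : Trans := ⟨(s, x, s'), h⟩

/-- the counter of a bit -/
def cnt (c0 c1 : ℕ) (b : Bool) : ℕ := if b then c1 else c0

/-- conclusion -/
def Concl (N T : ℕ) (w : List Letter) (c0 c1 : ℕ) (κ : Kind) : Prop :=
  ∃ (b : Bool) (ts : List Trans), cnt c0 c1 b < N ∧ PathFrom ⟨κ, b⟩ ts ∧ ts.map Trans.bot = w ∧
    Wok N T (cnt c0 c1 b) (ts.map Trans.top) ∧ (κ = .idle → lp (ts.map Trans.top) = lp w)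

theorem one (N T : ℕ) {l : List Letter} {c0 c1 : ℕ} {κ : Kind} {x : Letter} (κ' : Kind)
    (hκ : ∀ b, okT ⟨κ, b⟩ x ⟨κ', b⟩ = true)
    (hout : ∀ w', upd T (cnt c0 c1 true) (out x κ κ') w' = cnt c0 c1 true ∧
      upd T (cnt c0 c1 false) (out x κ κ') w' = cnt c0 c1 false)
    (hlp : κ = .idle → (∀ w', lp (out x κ κ' :: w') = 0 ∧ lp (x :: l) = 0) ∨
      (κ' = .idle ∧ ∀ w', lp (out x κ κ' :: w') = lp w' + 1 ∧ lp (x :: l) = lp l + 1))
    (h : Concl N T l c0 c1 κ') : Concl N T (x :: l) c0 c1 κ := by
  obtain ⟨b, ts, h1, h2, h3, h4, h5⟩ := h
  refine ⟨b, mk ⟨κ, b⟩ x ⟨κ', b⟩ (hκ b) :: ts, h1, ⟨rfl, h2⟩, ?_, ?_, ?_⟩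
  · rw [List.map_cons, h3]; rfl
  · change upd T _ (out x κ κ') _ < N ∧ Wok N T (upd T _ (out x κ κ') _) _
    have e : upd T (cnt c0 c1 b) (out x κ κ') (ts.map Trans.top) = cnt c0 c1 b := by
      cases b
      · exact (hout _).2
      · exact (hout _).1
    rw [e]
    exact ⟨h1, h4⟩
  · intro hk
    change lp (out x κ κ' :: ts.map Trans.top) = _
    rcases hlp hk with h | ⟨hk', h⟩
    · rw [(h _).1, (h []).2]
    · rw [(h _).1, (h []).2, h5 hk']

/-- a computing letter before a plain letter -/
theorem two (N T : ℕ) {l : List Letter} {c0 c1 d0 d1 : ℕ} {κ : Kind} {h : Flag} {x y : Bool}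
    (hκ : κ = .idle ∨ κ = .nop)
    (H : ∀ b : Bool, cnt d0 d1 b < N → ∃ (k : Bool) (h' : Flag), cnt c0 c1 k < N ∧
      rule h x k b h' = true ∧ (∀ w', lp w' = lp l →
        upd T (cnt c0 c1 k) (.comp h' y) w' = cnt d0 d1 b))
    (hc : Concl N T l d0 d1 .idle) : Concl N T (.comp h x :: .plain y :: l) c0 c1 κ := by
  obtain ⟨b, ts, h1, h2, h3, h4, h5⟩ := hc
  obtain ⟨k, h', g1, g2, g3⟩ := H b h1
  have ok1 : okT ⟨κ, k⟩ (.comp h x) ⟨.car h', b⟩ = true := by
    rcases hκ with rfl | rfl <;> simp [okT, inOK, outOK, bitOK, g2]
  have ok2 : okT ⟨.car h', b⟩ (.plain y) ⟨.idle, b⟩ = true := by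
    simp [okT, inOK, outOK, bitOK]
  refine ⟨k, mk _ _ _ ok1 :: mk _ _ _ ok2 :: ts, g1, ⟨rfl, rfl, h2⟩, ?_, ?_, ?_⟩
  · rw [List.map_cons, List.map_cons, h3]; rfl
  · change cnt c0 c1 k < N ∧ (upd T (cnt c0 c1 k) (.comp h' y) (ts.map Trans.top) < N ∧
      Wok N T (upd T (cnt c0 c1 k) (.comp h' y) (ts.map Trans.top)) (ts.map Trans.top))
    rw [g3 _ (h5 rfl)]
    exact ⟨g1, h1, h4⟩
  · intro _
    rfl

theorem key (N T : ℕ) : ∀ (n : ℕ) (w : List Letter), w.length ≤ n →
    ∀ (a c0 c1 : ℕ), c0 ≤ N → c1 * (N + 1) + c0 ≤ a → a < (N + 1) ^ 2 - 1 →
    Wok ((N + 1) ^ 2 - 1) (T + 1) a w → ∀ κ : Kind, (κ = .idle ∨ (κ = .nop ∧ lp w = 0)) →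
    Concl N T w c0 c1 κ := by
  intro n
  induction n with
  | zero =>
    intro w hw a c0 c1 hc0 hc ha _ κ _
    have : w = [] := List.length_eq_zero_iff.mp (by omega)
    subst this
    have hlt : c0 < N ∨ c1 < N := by
      by_contra hcon
      push Not at hcon
      have h1 : N * (N + 1) ≤ c1 * (N + 1) := Nat.mul_le_mul_right _ hcon.2
      have h2 : (N + 1) ^ 2 = N * (N + 1) + N + 1 := by ring
      omega
    rcases hlt with h | h
    · exact ⟨false, [], h, trivial, rfl, trivial, fun _ => rfl⟩
    · exact ⟨true, [], h, trivial, rfl, trivial, fun _ => rfl⟩
  | succ n ih =>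
    intro w hw a c0 c1 hc0 hc ha hW κ hκ
    have hlt : c0 < N ∨ c1 < N := by
      by_contra hcon
      push Not at hcon
      have h1 : N * (N + 1) ≤ c1 * (N + 1) := Nat.mul_le_mul_right _ hcon.2
      have h2 : (N + 1) ^ 2 = N * (N + 1) + N + 1 := by ring
      omega
    have hNpos : 0 < N := by omega
    cases w with
    | nil =>
      rcases hlt with h | h
      · exact ⟨false, [], h, trivial, rfl, trivial, fun _ => rfl⟩
      · exact ⟨true, [], h, trivial, rfl, trivial, fun _ => rfl⟩
    | cons x l =>
      have hl : l.length ≤ n := by simpa using hw
      obtain ⟨hW1, hW2⟩ := hW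
      have hκ' : κ = .idle ∨ κ = .nop := by
        rcases hκ with h | ⟨h, _⟩
        · exact Or.inl h
        · exact Or.inr h
      cases x with
      | plain y =>
        have hκ1 : κ = .idle := by
          rcases hκ with h | ⟨_, h⟩
          · exact h
          · simp [lp] at h
        subst hκ1
        refine one N T .idle (fun b => by simp [okT, inOK, outOK, bitOK])
          (fun w' => ⟨rfl, rfl⟩) (fun _ => Or.inr ⟨rfl, fun w' => ⟨rfl, rfl⟩⟩)
          (ih l hl a c0 c1 hc0 hc ha hW2 .idle (Or.inl rfl))
      | cons h y =>
        refine one N T .idle (fun b => ?_) (fun w' => ⟨rfl, rfl⟩)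
          (fun _ => Or.inl fun w' => ⟨rfl, rfl⟩)
          (ih l hl a c0 c1 hc0 hc ha hW2 .idle (Or.inl rfl))
        rcases hκ' with rfl | rfl <;> simp [okT, inOK, outOK, bitOK]
      | dead =>
        refine one N T .idle (fun b => ?_) (fun w' => ⟨rfl, rfl⟩)
          (fun _ => Or.inl fun w' => ⟨rfl, rfl⟩)
          (ih l hl a c0 c1 hc0 hc ha hW2 .idle (Or.inl rfl))
        rcases hκ' with rfl | rfl <;> simp [okT, inOK, outOK, bitOK]
      | comp h x =>
        by_cases hp : lp l = 0
        · -- not followed by a plain letter
          have hu : upd (T + 1) a (.comp h x) l = a := by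
            cases h <;> simp [upd, hp]
          rw [hu] at hW2
          refine one N T .nop (fun b => ?_) (fun w' => ⟨rfl, rfl⟩)
            (fun _ => Or.inl fun w' => ⟨rfl, rfl⟩)
            (ih l hl a c0 c1 hc0 hc ha hW2 .nop (Or.inr ⟨rfl, hp⟩))
          have hr : ∃ h', rule h x b b h' = true := by
            cases h <;> cases x <;> cases b <;> simp [rule]
          rcases hκ' with rfl | rfl <;>
            simp only [okT, inOK, outOK, bitOK, Bool.and_self, Bool.true_and,
              decide_eq_true_eq] <;> exact hr
        · cases l with
          | nil => exact absurd rfl hp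
          | cons z l =>
            cases z with
            | comp _ _ => exact absurd rfl hp
            | cons _ _ => exact absurd rfl hp
            | dead => exact absurd rfl hp
            | plain y =>
              have hl' : l.length ≤ n := by
                simp only [List.length_cons] at hl; omega
              obtain ⟨hW3, hW4⟩ := hW2
              have e0 : ∀ a', upd (T + 1) a' (.plain y) l = a' := fun _ => rfl
              rw [e0] at hW3 hW4
              have elp : lp (.plain y :: l) = lp l + 1 := rfl
              by_cases hlong : T ≤ lp l
              · have hlong' : T + 1 ≤ lp (.plain y :: l) := by rw [elp]; omega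
                cases h with
                | F =>
                  have hu : upd (T + 1) a (.comp .F x) (.plain y :: l) = 0 := by
                    simp [upd, hlong']
                  rw [hu] at hW3 hW4
                  refine two N T (d0 := 0) (d1 := 0) hκ' ?_
                    (ih l hl' 0 0 0 (Nat.zero_le _) (by simp) hW3 hW4 .idle (Or.inl rfl))
                  intro b _
                  have hc00 : cnt 0 0 b = 0 := by cases b <;> rfl
                  rcases hlt with h | h
                  · refine ⟨false, .F, h, by simp [rule], ?_⟩
                    intro w' hw'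
                    simp [upd, hw', hlong, hc00]
                  · refine ⟨true, .F, h, by simp [rule], ?_⟩
                    intro w' hw'
                    simp [upd, hw', hlong, hc00]
                | K =>
                  have hu : upd (T + 1) a (.comp .K x) (.plain y :: l) = a := rfl
                  rw [hu] at hW3 hW4
                  refine two N T (d0 := c0) (d1 := c1) hκ' ?_
                    (ih l hl' a c0 c1 hc0 hc ha hW4 .idle (Or.inl rfl))
                  intro b hb
                  exact ⟨b, .K, hb, by simp [rule], fun w' _ => rfl⟩
                | E =>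
                  have hu : upd (T + 1) a (.comp .E x) (.plain y :: l) = a + 1 := by
                    simp [upd, hlong']
                  rw [hu] at hW3 hW4
                  cases x with
                  | false =>
                    by_cases hc0N : c0 < N
                    · refine two N T (d0 := c0 + 1) (d1 := c1) hκ' ?_
                        (ih l hl' (a + 1) (c0 + 1) c1 (by omega) (by omega) hW3 hW4 .idle
                          (Or.inl rfl))
                      intro b hb
                      cases b with
                      | false =>
                        refine ⟨false, .E, hc0N, by simp [rule], ?_⟩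
                        intro w' hw'
                        simp [upd, hw', hlong, cnt]
                      | true =>
                        refine ⟨true, .K, hb, by simp [rule], ?_⟩
                        intro w' hw'
                        simp [upd, cnt]
                    · refine two N T (d0 := c0) (d1 := c1) hκ' ?_
                        (ih l hl' (a + 1) c0 c1 hc0 (by omega) hW3 hW4 .idle (Or.inl rfl))
                      intro b hb
                      cases b with
                      | false => exact absurd hb hc0N
                      | true =>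
                        refine ⟨true, .K, hb, by simp [rule], ?_⟩
                        intro w' hw'
                        simp [upd, cnt]
                  | true =>
                    by_cases hc0N : c0 < N
                    · refine two N T (d0 := 0) (d1 := 0) hκ' ?_
                        (ih l hl' (a + 1) 0 0 (Nat.zero_le _) (by simp) hW3 hW4 .idle
                          (Or.inl rfl))
                      intro b _
                      have hc00 : cnt 0 0 b = 0 := by cases b <;> rfl
                      refine ⟨false, .F, hc0N, by simp [rule], ?_⟩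
                      intro w' hw'
                      simp [upd, hw', hlong, hc00]
                    · have hc0e : c0 = N := by omega
                      have hc1 : c1 < N := by
                        rcases hlt with h | h
                        · exact absurd h hc0N
                        · exact h
                      have e1 : (c1 + 1) * (N + 1) = c1 * (N + 1) + N + 1 := by ring
                      refine two N T (d0 := 0) (d1 := c1 + 1) hκ' ?_
                        (ih l hl' (a + 1) 0 (c1 + 1) (Nat.zero_le _) (by omega) hW3 hW4 .idle
                          (Or.inl rfl))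
                      intro b hb
                      cases b with
                      | false =>
                        refine ⟨true, .F, hc1, by simp [rule], ?_⟩
                        intro w' hw'
                        simp [upd, hw', hlong, cnt]
                      | true =>
                        refine ⟨true, .E, hc1, by simp [rule], ?_⟩
                        intro w' hw'
                        simp [upd, hw', hlong, cnt]
              · -- not long
                have hlong' : ¬ T + 1 ≤ lp (.plain y :: l) := by rw [elp]; omega
                have hu : upd (T + 1) a (.comp h x) (.plain y :: l) = a := by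
                  cases h <;> simp [upd, hlong']
                rw [hu] at hW3 hW4
                refine two N T (d0 := c0) (d1 := c1) hκ' ?_
                  (ih l hl' a c0 c1 hc0 hc ha hW4 .idle (Or.inl rfl))
                intro b hb
                have hr : ∃ h', rule h x b b h' = true := by
                  cases h <;> cases x <;> cases b <;> simp [rule]
                obtain ⟨h', hr⟩ := hr
                refine ⟨b, h', hb, hr, ?_⟩
                intro w' hw'
                have : ¬ T ≤ lp w' := by rw [hw']; exact hlong
                cases h' <;> simp [upd, this]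

end Word

open Word in
theorem WORD : WORD_stmt := by
  intro N T w hN hW
  have h1 : (0 : ℕ) < (N + 1) ^ 2 - 1 := by
    have e : (N + 1) ^ 2 = N * N + 2 * N + 1 := by ring
    rw [e]; omega
  obtain ⟨b, ts, h1, h2, h3, h4, -⟩ := key N T w.length w le_rfl 0 0 0 (Nat.zero_le _)
    (by simp) h1 hW .idle (Or.inl rfl)
  have hc00 : cnt 0 0 b = 0 := by cases b <;> rfl
  rw [hc00] at h4
  exact ⟨⟨.idle, b⟩, ts, h2, h3, h4⟩

end Pool.Agent.H26.Hom
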